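import Pool.Agent.Lib.MP_e0f57b_al.Final

/-! Resolution independent form of the multiplicity theorem. -/

open Matrix

attribute [local instance 100] LieRing.ofAssociativeRing

namespace Pool.Agent.MP_e0f57b_al.Br

section

variable (M : Type*) [AddCommGroup M] [Module ℂ M] [LieRingModule 𝔤 M] [LieModule ℂ 𝔤 M]

def IsTModO : Prop :=
  Submodule.span ℂ {m : M | ∃ μ : Fin 2 → ℤ, ∀ i, ⁅hh i, m⁆ = (μ i : ℂ) • m} = ⊤

theorem span_eq : Submodule.span ℂ {m : M | ∃ μ : Fin 2 → ℤ, ∀ i, ⁅hh i, m⁆ = (μ i : ℂ) • m} =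
    ⨆ μ, wt M μ := by
  apply le_antisymm
  · rw [Submodule.span_le]
    rintro m ⟨μ, hμ⟩
    exact Submodule.mem_iSup_of_mem (p := wt M) μ hμ
  · exact iSup_le fun μ m hm => Submodule.subset_span ⟨μ, hm⟩

theorem isTModO_iff : IsTModO M ↔ IsTMod M := by
  rw [IsTModO, span_eq]; rfl

def IsInjO : Prop :=
  IsTModO M ∧ ∀ (N N' : Type) [AddCommGroup N] [Module ℂ N] [LieRingModule 𝔤 N] [LieModule ℂ 𝔤 N]
    [AddCommGroup N'] [Module ℂ N'] [LieRingModule 𝔤 N'] [LieModule ℂ 𝔤 N'],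
    IsTModO N → IsTModO N' → ∀ i : N →ₗ⁅ℂ, 𝔤⁆ N', Function.Injective i → ∀ φ : N →ₗ⁅ℂ, 𝔤⁆ M,
      ∃ ψ : N' →ₗ⁅ℂ, 𝔤⁆ M, ∀ n, ψ (i n) = φ n

def IsProducedO (ν : Fin 2 → ℤ) (ε : M →ₗ[ℂ] ℂ) : Prop :=
  IsTModO M ∧ (∀ X ∈ bor, ∀ m, ε ⁅X, m⁆ = chi ν X * ε m) ∧
    ∀ (N : Type) [AddCommGroup N] [Module ℂ N] [LieRingModule 𝔤 N] [LieModule ℂ 𝔤 N],
      IsTModO N → ∀ f : N →ₗ[ℂ] ℂ, (∀ X ∈ bor, ∀ n, f ⁅X, n⁆ = chi ν X * f n) →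
        ∃! φ : N →ₗ⁅ℂ, 𝔤⁆ M, ∀ n, ε (φ n) = f n

variable {M}

def KFinO (m : M) : Prop :=
  ∃ F : Submodule ℂ M, FiniteDimensional ℂ F ∧ (∀ X ∈ kk, ∀ f ∈ F, ⁅X, f⁆ ∈ F) ∧ m ∈ F

theorem mem_Gam_iff (m : M) : m ∈ Gam M ↔ KFinO m := Iff.rfl

end

def IsR1O (W A : Type) [AddCommGroup W] [Module ℂ W] [LieRingModule 𝔤 W] [LieModule ℂ 𝔤 W]
    [AddCommGroup A] [Module ℂ A] [LieRingModule 𝔤 A] [LieModule ℂ 𝔤 A] : Prop :=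
  ∃ (J Q : Type) (_ : AddCommGroup J) (_ : Module ℂ J) (_ : LieRingModule 𝔤 J)
    (_ : LieModule ℂ 𝔤 J) (_ : AddCommGroup Q) (_ : Module ℂ Q) (_ : LieRingModule 𝔤 Q)
    (_ : LieModule ℂ 𝔤 Q) (j : W →ₗ⁅ℂ, 𝔤⁆ J) (p : J →ₗ⁅ℂ, 𝔤⁆ Q),
    IsInjO J ∧ Function.Injective j ∧ Function.Surjective p ∧
    (∀ y, p y = 0 ↔ ∃ w, j w = y) ∧
    ∃ S : LieSubmodule ℂ 𝔤 Q, (∀ z, z ∈ S ↔ KFinO z) ∧ ∃ r : S →ₗ⁅ℂ, 𝔤⁆ A,
      Function.Surjective r ∧ ∀ z : S, r z = 0 ↔ ∃ y, KFinO y ∧ p y = z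

def IsAO (lam : Fin 2 → ℤ) (A : Type) [AddCommGroup A] [Module ℂ A] [LieRingModule 𝔤 A]
    [LieModule ℂ 𝔤 A] : Prop :=
  ∃ (W : Type) (_ : AddCommGroup W) (_ : Module ℂ W) (_ : LieRingModule 𝔤 W)
    (_ : LieModule ℂ 𝔤 W) (ε : W →ₗ[ℂ] ℂ), IsProducedO W (lam + twoRho) ε ∧ IsR1O W A

def UnbddO (A : Type) [AddCommGroup A] [Module ℂ A] [LieRingModule 𝔤 A]
    [LieModule ℂ 𝔤 A] : Prop :=
  ∀ N : ℕ, ∃ E : Submodule ℂ A, FiniteDimensional ℂ E ∧ E ≠ ⊥ ∧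
    (∀ X ∈ kk, ∀ v ∈ E, ⁅X, v⁆ ∈ E) ∧
    (∀ E' ≤ E, (∀ X ∈ kk, ∀ v ∈ E', ⁅X, v⁆ ∈ E') → E' = ⊥ ∨ E' = E) ∧
    ∃ f : Fin N → (E →ₗ[ℂ] A), LinearIndependent ℂ f ∧
      ∀ n, ∀ X ∈ kk, ∀ (v : E) (hv : ⁅X, (v : A)⁆ ∈ E), f n ⟨⁅X, (v : A)⁆, hv⟩ = ⁅X, f n v⁆

/-! ### multiplicities -/

theorem unbddO_of {A : Type} [AddCommGroup A] [Module ℂ A] [LieRingModule 𝔤 A]
    [LieModule ℂ 𝔤 A] (h : UnbddKTypes A) : UnbddO A := by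
  intro N
  obtain ⟨m, ρ, ⟨hfin, ⟨hne, hirr⟩, -⟩, f, hli, hf⟩ := h (N + 1)
  have hf0 : f 0 ≠ 0 := hli.ne_zero 0
  have hinj : Function.Injective (f 0) := by
    rw [← LinearMap.ker_eq_bot]
    rcases hirr (LinearMap.ker (f 0)) (by
      intro x s hs
      rw [LinearMap.mem_ker] at hs ⊢
      rw [hf, hs, lie_zero]) with h | h
    · exact h
    · exact absurd (LinearMap.ker_eq_top.1 h) hf0
  let E : Submodule ℂ A := LinearMap.range (f 0)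
  let e : (Fin (m + 1) → ℂ) ≃ₗ[ℂ] E := LinearEquiv.ofInjective (f 0) hinj
  have he : ∀ s, (e s : A) = f 0 s := fun s => rfl
  have he' : ∀ v : E, (v : A) = f 0 (e.symm v) := by
    intro v
    rw [← he, LinearEquiv.apply_symm_apply]
  refine ⟨E, inferInstance, ?_, ?_, ?_, fun n => f n.castSucc ∘ₗ e.symm.toLinearMap, ?_, ?_⟩
  · intro h
    apply hne
    symm
    rw [eq_bot_iff]
    intro s _
    rw [Submodule.mem_bot]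
    apply hinj
    rw [map_zero]
    have : f 0 s ∈ E := ⟨s, rfl⟩
    rw [h, Submodule.mem_bot] at this
    exact this
  · rintro X hX _ ⟨s, rfl⟩
    exact ⟨ρ ⟨X, hX⟩ s, hf 0 ⟨X, hX⟩ s⟩
  · intro E' hE' hK
    rcases hirr (E'.comap (f 0)) (fun x s hs => by
      show f 0 (ρ x s) ∈ E'
      rw [hf]
      exact hK x x.2 _ hs) with h | h
    · left
      rw [eq_bot_iff]
      intro w hw
      obtain ⟨s, rfl⟩ := hE' hw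
      have : s ∈ E'.comap (f 0) := hw
      rw [h, Submodule.mem_bot] at this
      rw [Submodule.mem_bot, this, map_zero]
    · right
      apply le_antisymm hE'
      rintro w ⟨s, rfl⟩
      have : s ∈ E'.comap (f 0) := by rw [h]; trivial
      exact this
  · have hli' := hli.comp _ (Fin.castSucc_injective N)
    rw [Fintype.linearIndependent_iff] at hli' ⊢
    intro t ht
    apply hli' t
    ext s
    have := LinearMap.congr_fun ht (e (Pi.single s 1))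
    simpa using this
  · intro n X hX v hv
    show f n.castSucc (e.symm ⟨⁅X, (v : A)⁆, hv⟩) = ⁅X, f n.castSucc (e.symm v)⁆
    have h1 : (⟨⁅X, (v : A)⁆, hv⟩ : E) = e (ρ ⟨X, hX⟩ (e.symm v)) := by
      apply Subtype.ext
      rw [he, hf, ← he']
    rw [h1, LinearEquiv.symm_apply_apply, hf]

end Pool.Agent.MP_e0f57b_al.Br
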