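import Pool.Agent.Lib.MP_e0f57b_al.BrM

/-! Existence of a model of `A_𝔟(λ)`. -/

open Matrix

attribute [local instance 100] LieRing.ofAssociativeRing

namespace Pool.Agent.MP_e0f57b_al.Br

theorem injO {W : Type} [AddCommGroup W] [Module ℂ W] [LieRingModule 𝔤 W]
    [LieModule ℂ 𝔤 W] (hW : IsTMod W) : IsInjO (I W) := by
  refine ⟨(isTModO_iff _).2 isTMod_Tfin, ?_⟩
  intro N N' _ _ _ _ _ _ _ _ hN hN' i hi φ
  exact I_injective hW ((isTModO_iff _).1 hN) ((isTModO_iff _).1 hN') i hi φ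

theorem R1_isR1O {W : Type} [AddCommGroup W] [Module ℂ W] [LieRingModule 𝔤 W]
    [LieModule ℂ 𝔤 W] (hW : IsTMod W) : IsR1O W (R1 hW) :=
  ⟨I W, Qt hW, inferInstance, inferInstance, inferInstance, inferInstance, inferInstance,
    inferInstance, inferInstance, inferInstance, j hW, pr hW, injO hW, j_inj hW,
    LieSubmodule.Quotient.surjective_mk' _,
    fun _ => (LieSubmodule.Quotient.mk_eq_zero _).trans Iff.rfl, Gam (Qt hW),
    fun z => mem_Gam_iff z,
    LieSubmodule.Quotient.mk' (((Gam (I W)).map (pr hW)).comap (Gam (Qt hW)).incl),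
    LieSubmodule.Quotient.surjective_mk' _,
    fun _ => (LieSubmodule.Quotient.mk_eq_zero _).trans Iff.rfl⟩

theorem exists_AO (lam : Fin 2 → ℤ) : ∃ (A : Type) (_ : AddCommGroup A) (_ : Module ℂ A)
    (_ : LieRingModule 𝔤 A) (_ : LieModule ℂ 𝔤 A), IsAO lam A :=
  ⟨Ab lam, inferInstance, inferInstance, inferInstance, inferInstance,
    V (lam + twoRho), inferInstance, inferInstance, inferInstance, inferInstance,
    ev (lam + twoRho), V_produced _, R1_isR1O isTMod_Tfin⟩

end Pool.Agent.MP_e0f57b_al.Br
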