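import Pool.Agent.Lib.MP_e0f57b_al.Final

/-!
The definitions used in the statement of `Pool.Agent.Results.MP_e0f57b_al`.

`G = Sp(4, ℂ) ∩ U(2, 2)`, a conjugate of `Sp(4, ℝ)` in `Sp(4, ℂ)`, with maximal compact subgroup
`K = G ∩ U(4)` and complexified Lie algebra `𝔤 = sp(4, ℂ)`. All matrices are `4 × 4`, in `2 × 2`
blocks.
-/

open Matrix

attribute [local instance 100] LieRing.ofAssociativeRing

namespace Pool.Agent.MP_e0f57b_al.St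

/-! ### Groups -/

/-- the Hermitian form of signature `(2, 2)` -/
def H22 : Matrix (Fin 2 ⊕ Fin 2) (Fin 2 ⊕ Fin 2) ℂ := fromBlocks 1 0 0 (-1)

/-- `g ∈ Sp(4, ℂ) ∩ U(2, 2)` -/
def InG (g : (Matrix (Fin 2 ⊕ Fin 2) (Fin 2 ⊕ Fin 2) ℂ)ˣ) : Prop :=
  g.valᵀ * J (Fin 2) ℂ * g.val = J (Fin 2) ℂ ∧ g.valᴴ * H22 * g.val = H22

theorem InG.mul {a b : (Matrix (Fin 2 ⊕ Fin 2) (Fin 2 ⊕ Fin 2) ℂ)ˣ} (ha : InG a) (hb : InG b) :
    InG (a * b) := MP_e0f57b_al.G.mul_mem ha hb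

theorem InG.one : InG 1 := MP_e0f57b_al.G.one_mem

theorem InG.inv {a : (Matrix (Fin 2 ⊕ Fin 2) (Fin 2 ⊕ Fin 2) ℂ)ˣ} (ha : InG a) : InG a⁻¹ :=
  MP_e0f57b_al.G.inv_mem ha

/-- the group `G = Sp(4, ℂ) ∩ U(2, 2)` -/
def G : Subgroup (Matrix (Fin 2 ⊕ Fin 2) (Fin 2 ⊕ Fin 2) ℂ)ˣ where
  carrier := {g | InG g}
  mul_mem' := InG.mul
  one_mem' := InG.one
  inv_mem' := InG.inv

/-- `g ∈ G ∩ U(4)` -/
def InU (g : (Matrix (Fin 2 ⊕ Fin 2) (Fin 2 ⊕ Fin 2) ℂ)ˣ) : Prop := InG g ∧ g.valᴴ * g.val = 1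

theorem InU.mul {a b : (Matrix (Fin 2 ⊕ Fin 2) (Fin 2 ⊕ Fin 2) ℂ)ˣ} (ha : InU a) (hb : InU b) :
    InU (a * b) := MP_e0f57b_al.K.mul_mem ha hb

theorem InU.one : InU 1 := MP_e0f57b_al.K.one_mem

theorem InU.inv {a : (Matrix (Fin 2 ⊕ Fin 2) (Fin 2 ⊕ Fin 2) ℂ)ˣ} (ha : InU a) : InU a⁻¹ :=
  MP_e0f57b_al.K.inv_mem ha

/-- `K = G ∩ U(4)`, the fixed points in `G` of the Cartan involution `g ↦ (gᴴ)⁻¹` -/
def K : Subgroup (Matrix (Fin 2 ⊕ Fin 2) (Fin 2 ⊕ Fin 2) ℂ)ˣ where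
  carrier := {g | InU g}
  mul_mem' := InU.mul
  one_mem' := InU.one
  inv_mem' := InU.inv

/-- `g` is a diagonal matrix in `G` -/
def InT (g : (Matrix (Fin 2 ⊕ Fin 2) (Fin 2 ⊕ Fin 2) ℂ)ˣ) : Prop :=
  InG g ∧ ∀ i j, i ≠ j → g.val i j = 0

theorem InT.mul {a b : (Matrix (Fin 2 ⊕ Fin 2) (Fin 2 ⊕ Fin 2) ℂ)ˣ} (ha : InT a) (hb : InT b) :
    InT (a * b) := MP_e0f57b_al.T.mul_mem ha hb

theorem InT.one : InT 1 := MP_e0f57b_al.T.one_mem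

theorem InT.inv {a : (Matrix (Fin 2 ⊕ Fin 2) (Fin 2 ⊕ Fin 2) ℂ)ˣ} (ha : InT a) : InT a⁻¹ :=
  MP_e0f57b_al.T.inv_mem ha

/-- the compact torus of diagonal matrices in `G` -/
def T : Subgroup (Matrix (Fin 2 ⊕ Fin 2) (Fin 2 ⊕ Fin 2) ℂ)ˣ where
  carrier := {g | InT g}
  mul_mem' := InT.mul
  one_mem' := InT.one
  inv_mem' := InT.inv

/-- `G` is conjugate in `GL(4, ℂ)` to the real symplectic group `Sp(4, ℝ)`. -/
def IsRealSymplectic : Prop :=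
  ∃ C : (Matrix (Fin 2 ⊕ Fin 2) (Fin 2 ⊕ Fin 2) ℂ)ˣ,
    ∀ g : (Matrix (Fin 2 ⊕ Fin 2) (Fin 2 ⊕ Fin 2) ℂ)ˣ, g ∈ G ↔
      ∃ A ∈ Matrix.symplecticGroup (Fin 2) ℝ,
        C.inv * g.val * C.val = A.map (fun r : ℝ => (r : ℂ))

/-! ### The Lie algebra -/

/-- the complex Lie algebra `𝔤 = sp(4, ℂ)` -/
def gC : Type := LieAlgebra.Symplectic.sp (Fin 2) ℂ

instance instR : LieRing gC := LieSubalgebra.lieRing ℂ _ (LieAlgebra.Symplectic.sp (Fin 2) ℂ)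

instance instA : LieAlgebra ℂ gC :=
  LieSubalgebra.lieAlgebra ℂ _ (LieAlgebra.Symplectic.sp (Fin 2) ℂ)

/-- the matrix of an element of `𝔤` -/
def gC.mat (X : gC) : Matrix (Fin 2 ⊕ Fin 2) (Fin 2 ⊕ Fin 2) ℂ :=
  (LieAlgebra.Symplectic.sp (Fin 2) ℂ).incl X

/-- `X` lies in the real form `𝔤₀`, the Lie algebra of `G` -/
def InG0 (X : gC) : Prop := X.matᴴ * H22 + H22 * X.mat = 0

/-- `X` lies in the complexified Lie algebra `𝔨` of `K`: `X` is block diagonal -/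
def InK (X : gC) : Prop := ∀ i j, X.mat (.inl i) (.inr j) = 0 ∧ X.mat (.inr i) (.inl j) = 0

theorem h_mem (i : Fin 2) : (fromBlocks (single i i 1) 0 0 (-(single i i 1)ᵀ) :
    Matrix (Fin 2 ⊕ Fin 2) (Fin 2 ⊕ Fin 2) ℂ) ∈ LieAlgebra.Symplectic.sp (Fin 2) ℂ :=
  (MP_e0f57b_al.hh i).2

/-- the standard basis `diag(1, 0, -1, 0)`, `diag(0, 1, 0, -1)` of the Cartan subalgebra `𝔱`, the
complexified Lie algebra of `T` -/
def h (i : Fin 2) : gC := Subtype.mk (fromBlocks (single i i 1) 0 0 (-(single i i 1)ᵀ)) (h_mem i)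

/-- `𝔤₀` and its subalgebra `𝔤₀ ∩ s` form a symmetric pair: `𝔤₀ ∩ s` is the fixed point set of an
involution `τ` of `𝔤₀` (here `τ` stands for its complex linear extension to `𝔤`). -/
def SymmetricPair (s : Set gC) : Prop :=
  ∃ τ : gC ≃ₗ⁅ℂ⁆ gC, (∀ X, τ (τ X) = X) ∧ (∀ X, InG0 X → InG0 (τ X)) ∧
    ∀ X, InG0 X → (τ X = X ↔ X ∈ s)

/-- `exp (t X) ∈ K` for all real `t` -/
def expK : Set gC := {X | ∀ t : ℝ, ∃ k ∈ K, k.val = NormedSpace.exp (t • X.mat)}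

/-! ### Parabolic subalgebras -/

/-- `𝔮` is a `θ`-stable parabolic subalgebra of `𝔤`: the sum of the eigenspaces of `ad x` for the
nonnegative eigenvalues, where `x ∈ √-1 𝔨₀`, i.e. `x ∈ 𝔨` is a Hermitian matrix. -/
def IsThetaStableParabolic (q : Set gC) : Prop :=
  ∃ x : gC, InK x ∧ x.matᴴ = x.mat ∧ ∀ X : gC, X ∈ q ↔
    X ∈ ⨆ (a : ℝ) (_ : 0 ≤ a), Module.End.eigenspace (LieAlgebra.ad ℂ gC x : Module.End ℂ gC) (a : ℂ)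

theorem exists_AdG {g : (Matrix (Fin 2 ⊕ Fin 2) (Fin 2 ⊕ Fin 2) ℂ)ˣ} (hg : InG g) (X : gC) :
    ∃ Y : gC, Y.mat = g.val * X.mat * g.inv := ⟨AdG g hg X, rfl⟩

/-- `g ∈ G` and `Ad(g) 𝔮 = 𝔮` -/
def InN (q : Set gC) (g : (Matrix (Fin 2 ⊕ Fin 2) (Fin 2 ⊕ Fin 2) ℂ)ˣ) : Prop :=
  InG g ∧ ∀ X Y : gC, Y.mat = g.val * X.mat * g.inv → (Y ∈ q ↔ X ∈ q)

theorem InN.mul {q : Set gC} {a b : (Matrix (Fin 2 ⊕ Fin 2) (Fin 2 ⊕ Fin 2) ℂ)ˣ} (ha : InN q a)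
    (hb : InN q b) : InN q (a * b) := by
  refine ⟨ha.1.mul hb.1, fun X Y hY => ?_⟩
  obtain ⟨Z, hZ⟩ := exists_AdG hb.1 X
  rw [← hb.2 X Z hZ]
  refine ha.2 Z Y ?_
  rw [hZ, hY]
  show (a.val * b.val) * X.mat * (b.inv * a.inv) = _
  simp only [Matrix.mul_assoc]

theorem InN.one {q : Set gC} : InN q 1 := ⟨InG.one, fun X Y hY => by
  have : Y = X := Subtype.ext (by
    have h1 : Y.mat = 1 * X.mat * 1 := hY
    rwa [Matrix.one_mul, Matrix.mul_one] at h1)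
  rw [this]⟩

theorem InN.inv {q : Set gC} {a : (Matrix (Fin 2 ⊕ Fin 2) (Fin 2 ⊕ Fin 2) ℂ)ˣ} (ha : InN q a) :
    InN q a⁻¹ := by
  refine ⟨ha.1.inv, fun X Y hY => ?_⟩
  refine (ha.2 Y X ?_).symm
  have h1 : Y.mat = a.inv * X.mat * a.val := hY
  rw [h1]
  calc X.mat = (a.val * a.inv) * X.mat * (a.val * a.inv) := by
        rw [a.val_inv, Matrix.one_mul, Matrix.mul_one]
    _ = _ := by simp only [Matrix.mul_assoc]

/-- `N_G(𝔮) = {g ∈ G | Ad(g) 𝔮 = 𝔮}` -/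
def Nrm (q : Set gC) : Subgroup (Matrix (Fin 2 ⊕ Fin 2) (Fin 2 ⊕ Fin 2) ℂ)ˣ where
  carrier := {g | InN q g}
  mul_mem' := InN.mul
  one_mem' := InN.one
  inv_mem' := InN.inv

/-- `𝔮` is of virtually symmetric type: some `θ`-stable parabolic subalgebra `𝔮'` of symmetric type
has `L = N_G(𝔮) ⊆ L' = N_G(𝔮')` with `L' / L` compact. (The real Levi subalgebra of `𝔮'` is
`𝔤₀ ∩ 𝔮'`.) -/
def VirtuallySymmetricType (q : Set gC) : Prop :=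
  ∃ q' : Set gC, IsThetaStableParabolic q' ∧ SymmetricPair q' ∧ Nrm q ≤ Nrm q' ∧
    CompactSpace (↥(Nrm q') ⧸ (Nrm q).subgroupOf (Nrm q'))

/-- The `θ`-stable Borel subalgebra `𝔟` with positive roots `e₁-e₂, 2e₁, e₁+e₂, -2e₂`. -/
def bor : Set gC :=
  {X | ∀ i j, (Sum.elim ![2, -1] ![-2, 1] : Fin 2 ⊕ Fin 2 → ℤ) i <
    (Sum.elim ![2, -1] ![-2, 1] : Fin 2 ⊕ Fin 2 → ℤ) j → X.mat i j = 0}

/-- the value at `X ∈ 𝔟` of the character `(ν₁, ν₂)` of `𝔟` -/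
def chr (ν : Fin 2 → ℤ) (X : gC) : ℂ :=
  (ν 0 : ℂ) * X.mat (.inl 0) (.inl 0) + (ν 1 : ℂ) * X.mat (.inl 1) (.inl 1)

/-- the roots of the nilradical `𝔲` of `𝔟` -/
def posRoots : Finset (Fin 2 → ℤ) := {![1, -1], ![2, 0], ![1, 1], ![0, -2]}

/-- `λ` is in the good range: `⟨λ + ρ, β⟩ > 0` for the roots `β` of `𝔲`, where
`2ρ = 2ρ(𝔲) = (4, -2)`. -/
def GoodRange (lam : Fin 2 → ℤ) : Prop :=
  ∀ β ∈ posRoots, 0 < (lam 0 + 2) * β 0 + (lam 1 - 1) * β 1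

/-! ### Modules -/

section

variable (M : Type*) [AddCommGroup M] [Module ℂ M] [LieRingModule gC M] [LieModule ℂ gC M]

/-- A `(𝔤, T)`-module: a `𝔤`-module spanned by weight vectors for `𝔱` of integral weight (the
integral weights are the characters of the torus `T`). -/
def IsTMod : Prop :=
  Submodule.span ℂ {m : M | ∃ μ : Fin 2 → ℤ, ∀ i, ⁅h i, m⁆ = (μ i : ℂ) • m} = ⊤

/-- `M` is injective in the category of `(𝔤, T)`-modules. -/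
def IsInjTMod : Prop :=
  IsTMod M ∧ ∀ (N N' : Type) [AddCommGroup N] [Module ℂ N] [LieRingModule gC N] [LieModule ℂ gC N]
    [AddCommGroup N'] [Module ℂ N'] [LieRingModule gC N'] [LieModule ℂ gC N'],
    IsTMod N → IsTMod N' → ∀ i : N →ₗ⁅ℂ, gC⁆ N', Function.Injective i → ∀ φ : N →ₗ⁅ℂ, gC⁆ M,
      ∃ ψ : N' →ₗ⁅ℂ, gC⁆ M, ∀ n, ψ (i n) = φ n

/-- The `(𝔤, T)`-module `M` is `pro_𝔟^𝔤 (ℂ_ν)`, the module produced (coinduced) from the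
`(𝔟, T)`-module `ℂ_ν`: `ε : M → ℂ_ν` is a `𝔟`-map, and every `𝔟`-map `f : N → ℂ_ν` on a
`(𝔤, T)`-module `N` is `ε ∘ φ` for a unique `𝔤`-map `φ : N → M`. -/
def IsProduced (ν : Fin 2 → ℤ) (ε : M →ₗ[ℂ] ℂ) : Prop :=
  IsTMod M ∧ (∀ X ∈ bor, ∀ m, ε ⁅X, m⁆ = chr ν X * ε m) ∧
    ∀ (N : Type) [AddCommGroup N] [Module ℂ N] [LieRingModule gC N] [LieModule ℂ gC N],
      IsTMod N → ∀ f : N →ₗ[ℂ] ℂ, (∀ X ∈ bor, ∀ n, f ⁅X, n⁆ = chr ν X * f n) →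
        ∃! φ : N →ₗ⁅ℂ, gC⁆ M, ∀ n, ε (φ n) = f n

variable {M}

/-- `m` is `𝔨`-finite. The `𝔨`-finite vectors of a `(𝔤, T)`-module `M` form the `(𝔤, K)`-module
`Γ(M)`, Zuckerman's functor (`K ≅ U(2)` is connected and contains `T`). -/
def KFin (m : M) : Prop :=
  ∃ F : Submodule ℂ M, FiniteDimensional ℂ F ∧ (∀ X, InK X → ∀ f ∈ F, ⁅X, f⁆ ∈ F) ∧ m ∈ F

end

/-- `A` is `R¹Γ(W)`, the value at the `(𝔤, T)`-module `W` of the first derived functor of `Γ`: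
there are an exact sequence `0 → W → J → Q → 0` of `(𝔤, T)`-modules with `J` injective, and a
surjective `𝔤`-map `r : Γ(Q) → A` whose kernel is the image of `Γ(J)`. -/
def IsR1 (W A : Type) [AddCommGroup W] [Module ℂ W] [LieRingModule gC W] [LieModule ℂ gC W]
    [AddCommGroup A] [Module ℂ A] [LieRingModule gC A] [LieModule ℂ gC A] : Prop :=
  ∃ (J Q : Type) (_ : AddCommGroup J) (_ : Module ℂ J) (_ : LieRingModule gC J)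
    (_ : LieModule ℂ gC J) (_ : AddCommGroup Q) (_ : Module ℂ Q) (_ : LieRingModule gC Q)
    (_ : LieModule ℂ gC Q) (j : W →ₗ⁅ℂ, gC⁆ J) (p : J →ₗ⁅ℂ, gC⁆ Q),
    IsInjTMod J ∧ Function.Injective j ∧ Function.Surjective p ∧
    (∀ y, p y = 0 ↔ ∃ w, j w = y) ∧
    ∃ S : LieSubmodule ℂ gC Q, (∀ z, z ∈ S ↔ KFin z) ∧ ∃ r : S →ₗ⁅ℂ, gC⁆ A,
      Function.Surjective r ∧ ∀ z : S, r z = 0 ↔ ∃ y, KFin y ∧ p y = z

/-- `A` is the Zuckerman derived functor module `A_𝔟(λ) = R¹Γ (pro_𝔟^𝔤 (ℂ_λ ⊗ Λ^top 𝔲))`; here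
`dim (𝔲 ∩ 𝔨) = 1` and `𝔟` acts on `Λ^top 𝔲` by `2ρ(𝔲) = (4, -2)`. -/
def IsA (lam : Fin 2 → ℤ) (A : Type) [AddCommGroup A] [Module ℂ A] [LieRingModule gC A]
    [LieModule ℂ gC A] : Prop :=
  ∃ (W : Type) (_ : AddCommGroup W) (_ : Module ℂ W) (_ : LieRingModule gC W)
    (_ : LieModule ℂ gC W) (ε : W →ₗ[ℂ] ℂ), IsProduced W (lam + ![4, -2]) ε ∧ IsR1 W A

/-- the multiplicities of `K`-types in the `(𝔤, K)`-module `A` are unbounded: for every `N` there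
is a finite-dimensional irreducible `𝔨`-submodule `E ≠ 0` of `A` with `dim Hom_𝔨(E, A) ≥ N`. -/
def UnbddKTypes (A : Type) [AddCommGroup A] [Module ℂ A] [LieRingModule gC A]
    [LieModule ℂ gC A] : Prop :=
  ∀ N : ℕ, ∃ E : Submodule ℂ A, FiniteDimensional ℂ E ∧ E ≠ ⊥ ∧
    (∀ X, InK X → ∀ v ∈ E, ⁅X, v⁆ ∈ E) ∧
    (∀ E' ≤ E, (∀ X, InK X → ∀ v ∈ E', ⁅X, v⁆ ∈ E') → E' = ⊥ ∨ E' = E) ∧
    ∃ f : Fin N → (E →ₗ[ℂ] A), LinearIndependent ℂ f ∧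
      ∀ n X, InK X → ∀ (v : E) (hv : ⁅X, (v : A)⁆ ∈ E), f n ⟨⁅X, (v : A)⁆, hv⟩ = ⁅X, f n v⁆

/-! ### Unitary representations -/

section

variable {H : Type*} [NormedAddCommGroup H] [InnerProductSpace ℂ H]

/-- `π` is a (strongly continuous) unitary representation of `G` on the Hilbert space `H`, and `Φ`
identifies the `𝔤`-module `A` with the underlying `(𝔤, K)`-module of `π`: `Φ` is a linear bijection
of `A` onto the space of `K`-finite vectors, and intertwines the action of `𝔤₀` with the derivative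
of `π`. -/
structure IsCompletion (A : Type) [AddCommGroup A] [Module ℂ A] [LieRingModule gC A]
    [LieModule ℂ gC A] (π : G →* (H ≃ₗᵢ[ℂ] H)) (Φ : A →ₗ[ℂ] H) : Prop where
  cont : ∀ v : H, Continuous fun g : G => π g v
  inj : Function.Injective Φ
  range : ∀ v : H, v ∈ LinearMap.range Φ ↔
    FiniteDimensional ℂ (Submodule.span ℂ {w | ∃ k : G, k.val ∈ K ∧ w = π k v})
  deriv : ∀ X : gC, InG0 X → ∀ γ : ℝ → G,
    (∀ t : ℝ, (γ t).val.val = NormedSpace.exp (t • X.mat)) → ∀ a : A,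
      HasDerivAt (fun t : ℝ => π (γ t) (Φ a)) (Φ ⁅X, a⁆) 0

/-- the multiplicities in the restriction to `K` of a unitary representation `π` of `G` are
unbounded: for every `N` there is an irreducible finite-dimensional `K`-subrepresentation `E ≠ 0`
of `H` with `dim Hom_K(E, H) ≥ N`. -/
def UnbddRestriction (π : G →* (H ≃ₗᵢ[ℂ] H)) : Prop :=
  ∀ N : ℕ, ∃ E : Submodule ℂ H, FiniteDimensional ℂ E ∧ E ≠ ⊥ ∧
    (∀ k : G, k.val ∈ K → ∀ v ∈ E, π k v ∈ E) ∧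
    (∀ E' ≤ E, (∀ k : G, k.val ∈ K → ∀ v ∈ E', π k v ∈ E') → E' = ⊥ ∨ E' = E) ∧
    ∃ f : Fin N → (E →ₗ[ℂ] H), LinearIndependent ℂ f ∧
      ∀ n (k : G), k.val ∈ K → ∀ (v : E) (hv : π k v ∈ E), f n ⟨π k v, hv⟩ = π k (f n v)

end

end Pool.Agent.MP_e0f57b_al.St
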