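import Pool.Agent.Lib.MP_e0f57b_al.BrF
import Pool.Agent.Lib.MP_e0f57b_al.St

/-! Transfer of the group theoretic statements. -/

open Matrix

attribute [local instance 100] LieRing.ofAssociativeRing

namespace Pool.Agent.MP_e0f57b_al.St

theorem isRealSymplectic : IsRealSymplectic := G_conj

theorem K_eq : K = MP_e0f57b_al.K := Subgroup.ext fun _ => Iff.rfl

theorem T_eq : T = MP_e0f57b_al.T := Subgroup.ext fun _ => Iff.rfl

theorem compactK : CompactSpace K := by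
  rw [K_eq]; exact compact_K

theorem Nrm_eq (q : LieSubalgebra ℂ 𝔤) :
    Nrm {X : gC | (X : 𝔤) ∈ q} = MP_e0f57b_al.Nrm q := by
  ext g
  constructor
  · rintro ⟨hg, h⟩
    exact ⟨hg, fun X => h X (AdG g hg X) rfl⟩
  · rintro ⟨hg, h⟩
    refine ⟨hg, fun X Y hY => ?_⟩
    have : Y = AdG g hg X := Subtype.ext hY
    rw [this]
    exact h X

theorem tau_mem_g {X : Mat} (hX : X ∈ 𝔤) : Hm * X * Hm ∈ 𝔤 := by
  rw [mem_g_iff] at hX ⊢
  rw [transpose_mul, transpose_mul, Hm_transpose]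
  calc Hm * (Xᵀ * Hm) * Jm = Hm * (Xᵀ * (Hm * Jm)) := by simp only [Matrix.mul_assoc]
    _ = - (Hm * ((Xᵀ * Jm) * Hm)) := by rw [Hm_mul_Jm]; simp [Matrix.mul_assoc]
    _ = (Hm * Jm) * (X * Hm) := by rw [hX]; simp [Matrix.mul_assoc]
    _ = Jm * (-(Hm * X * Hm)) := by rw [Hm_mul_Jm]; simp [Matrix.mul_assoc]

/-- the Cartan involution of `𝔤` -/
def tauC : 𝔤 ≃ₗ⁅ℂ⁆ 𝔤 where
  toFun X := ⟨Hm * X * Hm, tau_mem_g X.2⟩
  invFun X := ⟨Hm * X * Hm, tau_mem_g X.2⟩
  map_add' X Y := by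
    apply Subtype.ext
    show Hm * ((X : Mat) + Y) * Hm = Hm * X * Hm + Hm * Y * Hm
    rw [Matrix.mul_add, Matrix.add_mul]
  map_smul' c X := by
    apply Subtype.ext
    show Hm * (c • (X : Mat)) * Hm = c • (Hm * X * Hm)
    rw [Matrix.mul_smul, Matrix.smul_mul]
  map_lie' {X Y} := by
    apply Subtype.ext
    show Hm * (⁅(X : Mat), (Y : Mat)⁆) * Hm = ⁅Hm * (X : Mat) * Hm, Hm * (Y : Mat) * Hm⁆
    rw [Ring.lie_def, Ring.lie_def]
    have e : ∀ A B : Mat, Hm * A * Hm * (Hm * B * Hm) = Hm * (A * B) * Hm := by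
      intro A B
      calc Hm * A * Hm * (Hm * B * Hm) = Hm * A * (Hm * Hm) * B * Hm := by
            simp only [Matrix.mul_assoc]
        _ = Hm * (A * B) * Hm := by rw [Hm_mul_Hm]; simp [Matrix.mul_assoc]
    rw [e, e, Matrix.mul_sub, Matrix.sub_mul]
  left_inv X := by
    apply Subtype.ext
    show Hm * (Hm * (X : Mat) * Hm) * Hm = X
    calc Hm * (Hm * (X : Mat) * Hm) * Hm = (Hm * Hm) * X * (Hm * Hm) := by
          simp only [Matrix.mul_assoc]
      _ = X := by rw [Hm_mul_Hm]; simp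
  right_inv X := by
    apply Subtype.ext
    show Hm * (Hm * (X : Mat) * Hm) * Hm = X
    calc Hm * (Hm * (X : Mat) * Hm) * Hm = (Hm * Hm) * X * (Hm * Hm) := by
          simp only [Matrix.mul_assoc]
      _ = X := by rw [Hm_mul_Hm]; simp

theorem tauC_tauC (X : 𝔤) : tauC (tauC X) = X := tauC.left_inv X

/-- an element of `𝔤₀`, as an element of `g0` -/
def toG0 (X : gC) (hX : InG0 X) : g0 := ⟨X.mat, Subtype.property (show 𝔤 from X), hX⟩

theorem tauC_inG0 (X : gC) (hX : InG0 X) : InG0 (tauC X : 𝔤) := (tau_mem (toG0 X hX).2).2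

theorem tauC_eq_iff (X : gC) (hX : InG0 X) : (tauC X : 𝔤) = X ↔ tauHm (toG0 X hX) = toG0 X hX := by
  rw [Subtype.ext_iff, Subtype.ext_iff]; rfl

theorem tauHm_iff (X : g0) :
    tauHm X = X ↔ ∀ t : ℝ, ∃ k ∈ MP_e0f57b_al.K, (k : Mat) = NormedSpace.exp (t • (X : Mat)) := by
  rw [tauHm_eq_iff_skew]
  constructor
  · intro h t
    refine ⟨expU (t • (X : Mat)), ⟨expU_mem (g0.smul_mem t X.2), ?_⟩, rfl⟩
    show (NormedSpace.exp (t • (X : Mat)))ᴴ * NormedSpace.exp (t • (X : Mat)) = 1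
    rw [← Matrix.exp_conjTranspose]
    have h5 : (t • (X : Mat))ᴴ = - (t • (X : Mat)) := by
      rw [real_smul_eq, conjTranspose_smul, h]; simp
    rw [h5]
    exact (expU (t • (X : Mat))).inv_mul
  · intro h
    apply eq_of_exp_eq
    intro t
    obtain ⟨k, hk, hk'⟩ := h t
    have h5 : (k : Mat)ᴴ * k = 1 := hk.2
    have h6 : (t • (X : Mat)ᴴ) = (t • (X : Mat))ᴴ := by
      rw [real_smul_eq, real_smul_eq, conjTranspose_smul]; simp
    have h7 : (k : Mat) * NormedSpace.exp (-(t • (X : Mat))) = 1 := by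
      rw [hk']; exact (expU (t • (X : Mat))).mul_inv
    rw [h6, Matrix.exp_conjTranspose, ← hk', smul_neg]
    calc (k : Mat)ᴴ = (k : Mat)ᴴ * ((k : Mat) * NormedSpace.exp (-(t • (X : Mat)))) := by
          rw [h7, Matrix.mul_one]
      _ = _ := by rw [← Matrix.mul_assoc, h5, Matrix.one_mul]

theorem symmetricPair_expK : SymmetricPair expK :=
  ⟨tauC, tauC_tauC, tauC_inG0, fun X hX => by
    have h := (tauC_eq_iff X hX).trans (tauHm_iff (toG0 X hX))
    exact h⟩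

theorem symmetricPair_qt : SymmetricPair {X : gC | (X : 𝔤) ∈ qt} :=
  ⟨tauC, tauC_tauC, tauC_inG0, fun X hX => by
    have h := (tauC_eq_iff X hX).trans ((tauHm_eq_iff (toG0 X hX)).trans (qt_iff (toG0 X hX)).symm)
    exact h⟩

theorem bor_eq' : bor = {X : gC | (X : 𝔤) ∈ MP_e0f57b_al.bor} := rfl

theorem thetaStable_bor : IsThetaStableParabolic bor := bor_thetaStable

theorem thetaStable_qt : IsThetaStableParabolic {X : gC | (X : 𝔤) ∈ qt} := qt_thetaStable

theorem Nrm_bor' : Nrm bor = T := by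
  rw [bor_eq', Nrm_eq, Nrm_bor, T_eq]

theorem vst_bor : VirtuallySymmetricType bor := by
  refine ⟨{X : gC | (X : 𝔤) ∈ qt}, thetaStable_qt, symmetricPair_qt, ?_, ?_⟩
  · rw [Nrm_bor', Nrm_eq, Nrm_qt, T_eq]; exact T_le_K
  · rw [Nrm_eq, Nrm_qt]
    have := compact_K
    infer_instance

end Pool.Agent.MP_e0f57b_al.St
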