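import Pool.Agent.Lib.MP_e0f57b_al.BrG

/-! Transfer of the statements on modules. -/

open Matrix

attribute [local instance 100] LieRing.ofAssociativeRing

namespace Pool.Agent.MP_e0f57b_al.St

theorem goodRange_old {lam : Fin 2 → ℤ} (hg : GoodRange lam) : MP_e0f57b_al.GoodRange lam := by
  intro k hk
  simp only [Finset.mem_insert, Finset.mem_singleton] at hk
  rcases hk with rfl | rfl | rfl | rfl
  · exact hg ![1, -1] (by simp [posRoots])
  · exact hg ![2, 0] (by simp [posRoots])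
  · exact hg ![1, 1] (by simp [posRoots])
  · exact hg ![0, -2] (by simp [posRoots])

theorem goodRange_zero : GoodRange 0 := by
  intro β hβ
  simp only [posRoots, Finset.mem_insert, Finset.mem_singleton] at hβ
  rcases hβ with rfl | rfl | rfl | rfl <;> decide

theorem exists_A (lam : Fin 2 → ℤ) : ∃ (A : Type) (_ : AddCommGroup A) (_ : Module ℂ A)
    (_ : LieRingModule gC A) (_ : LieModule ℂ gC A), IsA lam A := Br.exists_AO lam

theorem unbdd_of_A {A : Type} [AddCommGroup A] [Module ℂ A] [i : LieRingModule gC A]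
    [l : LieModule ℂ gC A] {lam : Fin 2 → ℤ} (hg : GoodRange lam) (hA : IsA lam A) :
    @MP_e0f57b_al.UnbddKTypes A _ _ i l :=
  @Br.unbddO_of_A A _ _ i l lam (goodRange_old hg) hA

theorem unbddKTypes_of_A {A : Type} [AddCommGroup A] [Module ℂ A] [i : LieRingModule gC A]
    [l : LieModule ℂ gC A] {lam : Fin 2 → ℤ} (hg : GoodRange lam) (hA : IsA lam A) :
    UnbddKTypes A :=
  @Br.unbddO_of A _ _ i l (unbdd_of_A hg hA)

theorem completion_old {A : Type} [AddCommGroup A] [Module ℂ A] [i : LieRingModule gC A]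
    [l : LieModule ℂ gC A] {H : Type*} [NormedAddCommGroup H] [InnerProductSpace ℂ H]
    (π : G →* (H ≃ₗᵢ[ℂ] H)) (Φ : A →ₗ[ℂ] H) (hc : IsCompletion A π Φ) :
    @MP_e0f57b_al.IsCompletion A _ _ i H _ _ π Φ :=
  @MP_e0f57b_al.IsCompletion.mk A _ _ i H _ _ π Φ hc.cont hc.inj hc.range
    (fun X γ hγ a => hc.deriv (⟨(X : Mat), X.2.1⟩ : 𝔤) X.2.2 γ hγ a)

theorem unbddRestriction_of_A {A : Type} [AddCommGroup A] [Module ℂ A] [i : LieRingModule gC A]
    [l : LieModule ℂ gC A] {lam : Fin 2 → ℤ} (hg : GoodRange lam) (hA : IsA lam A)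
    {H : Type*} [NormedAddCommGroup H] [InnerProductSpace ℂ H]
    (π : G →* (H ≃ₗᵢ[ℂ] H)) (Φ : A →ₗ[ℂ] H) (hc : IsCompletion A π Φ) : UnbddRestriction π :=
  @unbdd_restriction A _ _ i l H _ _ π Φ (completion_old π Φ hc) (unbdd_of_A hg hA)

end Pool.Agent.MP_e0f57b_al.St
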