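import Pool.Agent.Lib.MP_e0f57b_al.BrV

/-! The multiplicity theorem for an arbitrary injective resolution. -/

open Matrix

attribute [local instance 100] LieRing.ofAssociativeRing

namespace Pool.Agent.MP_e0f57b_al.Br

theorem wt_equiv {ν : Fin 2 → ℤ} {W : Type} [AddCommGroup W] [Module ℂ W] [LieRingModule 𝔤 W]
    [LieModule ℂ 𝔤 W] {ε : W →ₗ[ℂ] ℂ} (hW : IsProducedO W ν ε) (μ : Fin 2 → ℤ) :
    Nonempty (wt W μ ≃ₗ[ℂ] (pset (μ - ν) → ℂ)) := by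
  obtain ⟨φ, ψ, h1, h2⟩ := exists_iso hW
  obtain ⟨e⟩ := wt_V_equiv ν μ
  let a : wt W μ →ₗ[ℂ] wt (V ν) μ :=
    ((φ : W →ₗ[ℂ] V ν).domRestrict _).codRestrict _ fun w => map_mem_wt φ w.2
  let b : wt (V ν) μ →ₗ[ℂ] wt W μ :=
    ((ψ : V ν →ₗ[ℂ] W).domRestrict _).codRestrict _ fun w => map_mem_wt ψ w.2
  let e0 : wt W μ ≃ₗ[ℂ] wt (V ν) μ :=
    { a with
      invFun := b
      left_inv := fun w => Subtype.ext (h1 w)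
      right_inv := fun v => Subtype.ext (h2 v) }
  exact ⟨e0.trans e⟩

section

variable {ν : Fin 2 → ℤ} {W : Type} [AddCommGroup W] [Module ℂ W] [LieRingModule 𝔤 W]
    [LieModule ℂ 𝔤 W] (h : ∀ μ, Nonempty (wt W μ ≃ₗ[ℂ] (pset (μ - ν) → ℂ)))

include h

theorem finrank_wt (μ : Fin 2 → ℤ) :
    Module.finrank ℂ (wt W μ) = Nat.card (pset (μ - ν)) := by
  obtain ⟨e⟩ := h μ
  have : Finite (pset (μ - ν)) := (pset_finite _).to_subtype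
  have := Fintype.ofFinite (pset (μ - ν))
  rw [e.finrank_eq, Module.finrank_fintype_fun_eq_card, Nat.card_eq_fintype_card]

theorem fd_wt (μ : Fin 2 → ℤ) : FiniteDimensional ℂ (wt W μ) := by
  obtain ⟨e⟩ := h μ
  have : Finite (pset (μ - ν)) := (pset_finite _).to_subtype
  exact Module.Finite.equiv e.symm

theorem Gam_W (hT : IsTMod W) (hν : 0 < ν 0 - ν 1) : Gam W = ⊥ := by
  refine Gam_eq_bot hT fun μ hμ => ?_
  obtain ⟨e⟩ := h μ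
  have hne : (pset (μ - ν)).Nonempty := by
    by_contra h
    rw [Set.not_nonempty_iff_eq_empty] at h
    have : IsEmpty (pset (μ - ν)) := by rw [h]; infer_instance
    apply hμ
    have : Subsingleton (wt W μ) := e.toEquiv.subsingleton
    rw [Submodule.eq_bot_iff]
    intro x hx
    have := Subsingleton.elim (⟨x, hx⟩ : wt W μ) 0
    exact congrArg Subtype.val this
  have := pset_pos _ hne
  simp only [Pi.sub_apply] at this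
  omega

end

theorem mult_rho' {W J Q A : Type} [AddCommGroup W] [Module ℂ W] [LieRingModule 𝔤 W]
    [LieModule ℂ 𝔤 W] [AddCommGroup J] [Module ℂ J] [LieRingModule 𝔤 J] [LieModule ℂ 𝔤 J]
    [AddCommGroup Q] [Module ℂ Q] [LieRingModule 𝔤 Q] [LieModule ℂ 𝔤 Q]
    [AddCommGroup A] [Module ℂ A] [LieRingModule 𝔤 A] [LieModule ℂ 𝔤 A]
    (hW : IsTMod W) (hG : Gam W = ⊥) (hfd : ∀ μ, FiniteDimensional ℂ (wt W μ))
    (jj : W →ₗ⁅ℂ, 𝔤⁆ J) (hjj : Function.Injective jj) (p : J →ₗ⁅ℂ, 𝔤⁆ Q)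
    (hp : ∀ y, p y = 0 ↔ ∃ w, jj w = y) (r : Gam Q →ₗ⁅ℂ, 𝔤⁆ A)
    (hr : ∀ z : Gam Q, r z = 0 → ∃ y ∈ Gam J, p y = z)
    (F : I W →ₗ⁅ℂ, 𝔤⁆ J) (hF : ∀ w, F (j hW w) = jj w)
    (m : ℕ) (q : ℤ) (ρ : kk →ₗ⁅ℂ⁆ Module.End ℂ (Fin (m + 1) → ℂ)) (h0 : ρ (hk 0) = opH1 m q)
    (h1 : ρ (hk 1) = opH2 m q) (he : ρ ek = opE m) (hf : ρ fk = opF m) (hK : IsKType ρ) (N : ℕ)
    (hN : N + Module.finrank ℂ (wt W ![q + m, q]) + Module.finrank ℂ (wt W ![q, q + m]) ≤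
      Module.finrank ℂ (wt W ![q + m + 1, q - 1])) : MultGe ρ A N := by
  obtain ⟨c, hc, hind⟩ : ∃ c : Fin N → (kk →ₗ[ℂ] (Fin (m + 1) → ℂ) →ₗ[ℂ] W),
      (∀ n, IsCocycle ρ (c n)) ∧
      ∀ (t : Fin N → ℂ) (φ : (Fin (m + 1) → ℂ) →ₗ[ℂ] W),
        (∀ (x : kk) s, ∑ n, t n • c n x s = ⁅(x : 𝔤), φ s⁆ - φ (ρ x s)) → t = 0 :=
    exists_cocycles hfd m q ρ h0 h1 he hf N hN
  have hlift : ∀ n, ∃ ψ : (Fin (m + 1) → ℂ) →ₗ[ℂ] I W, ∀ (x : kk) s,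
      ⁅(x : 𝔤), ψ s⁆ = j hW (c n x s) + ψ (ρ x s) := fun n => exists_lift hW ρ hK.2.2 (c n) (hc n)
  have hψ := fun n => (hlift n).choose_spec
  exact mult_gen jj hjj p hp r hr (fun w hw => by rwa [hG, LieSubmodule.mem_bot] at hw) ρ c
    (fun n => (F : I W →ₗ[ℂ] J) ∘ₗ (hlift n).choose) (fun n x s => by
      show ⁅(x : 𝔤), F ((hlift n).choose s)⁆ = jj (c n x s) + F ((hlift n).choose (ρ x s))
      rw [← LieModuleHom.map_lie, hψ, map_add, hF]) hind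

theorem mult_A {W J Q A : Type} [AddCommGroup W] [Module ℂ W] [LieRingModule 𝔤 W]
    [LieModule ℂ 𝔤 W] [AddCommGroup J] [Module ℂ J] [LieRingModule 𝔤 J] [LieModule ℂ 𝔤 J]
    [AddCommGroup Q] [Module ℂ Q] [LieRingModule 𝔤 Q] [LieModule ℂ 𝔤 Q]
    [AddCommGroup A] [Module ℂ A] [LieRingModule 𝔤 A] [LieModule ℂ 𝔤 A]
    (hW : IsTMod W) (hG : Gam W = ⊥) (hfd : ∀ μ, FiniteDimensional ℂ (wt W μ))
    (jj : W →ₗ⁅ℂ, 𝔤⁆ J) (hjj : Function.Injective jj) (p : J →ₗ⁅ℂ, 𝔤⁆ Q)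
    (hp : ∀ y, p y = 0 ↔ ∃ w, jj w = y) (r : Gam Q →ₗ⁅ℂ, 𝔤⁆ A)
    (hr : ∀ z : Gam Q, r z = 0 → ∃ y ∈ Gam J, p y = z)
    (F : I W →ₗ⁅ℂ, 𝔤⁆ J) (hF : ∀ w, F (j hW w) = jj w)
    (ν : Fin 2 → ℤ) (hfr : ∀ μ, Module.finrank ℂ (wt W μ) = Nat.card (pset (μ - ν)))
    (a b : ℤ) (g4 : 0 < a + b + 1) (g5 : b < 1) (h0 : ν 0 = a + 4) (h1 : ν 1 = b - 2) (k : ℕ) :
    ∃ (m : ℕ) (ρ : kk →ₗ⁅ℂ⁆ Module.End ℂ (Fin (m + 1) → ℂ)), IsKType ρ ∧ MultGe ρ A (k + 1) := by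
  obtain ⟨m, hm⟩ : ∃ m : ℕ, (m : ℤ) = a - b + 4 + 2 * k :=
    ⟨(a - b + 4 + 2 * k).toNat, Int.toNat_of_nonneg (by omega)⟩
  have hN : (k + 1) + Module.finrank ℂ (wt W ![(b - 1) + (m : ℤ), b - 1]) +
      Module.finrank ℂ (wt W ![b - 1, (b - 1) + (m : ℤ)]) ≤
      Module.finrank ℂ (wt W ![(b - 1) + (m : ℤ) + 1, (b - 1) - 1]) := by
    rw [hfr, hfr, hfr]
    exact fr_ineq a b m k hm g4 g5 ν h0 h1
  exact (exists_rho m (b - 1)).elim fun ρ h => ⟨m, ρ, h.2.2.2.2,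
    mult_rho' hW hG hfd jj hjj p hp r hr F hF m (b - 1) ρ h.1 h.2.1 h.2.2.1 h.2.2.2.1 h.2.2.2.2
      (k + 1) hN⟩

theorem unbdd_of_R1 {W A : Type} [AddCommGroup W] [Module ℂ W] [LieRingModule 𝔤 W]
    [LieModule ℂ 𝔤 W] [AddCommGroup A] [Module ℂ A] [LieRingModule 𝔤 A] [LieModule ℂ 𝔤 A]
    {lam : Fin 2 → ℤ} (hg : GoodRange lam) {ε : W →ₗ[ℂ] ℂ} (hP : IsProducedO W (lam + twoRho) ε)
    (hR : IsR1O W A) : UnbddKTypes A := by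
  obtain ⟨J, Q, _, _, _, _, _, _, _, _, jj, p, hJ, hjj, -, hp, S, hS, r, -, hr⟩ := hR
  have hW : IsTMod W := (isTModO_iff _).1 hP.1
  have hS' : S = Gam Q := by
    ext z
    exact (hS z).trans (mem_Gam_iff z).symm
  subst hS'
  obtain ⟨F, hF⟩ := hJ.2 W (I W) hP.1 ((isTModO_iff _).2 isTMod_Tfin) (j hW) (j_inj hW) jj
  have hw := wt_equiv hP
  have hgi := good_ineq lam hg
  exact unbdd_of fun k => mult_A hW (Gam_W hw hW (by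
    rw [lam_rho0, lam_rho1]; omega)) (fd_wt hw) jj hjj p hp r
    (fun z hz => (hr z).1 hz) F hF (lam + twoRho) (finrank_wt hw) (lam 0) (lam 1) hgi.1 hgi.2
    (lam_rho0 lam) (lam_rho1 lam) k

theorem unbddO_of_A {A : Type} [AddCommGroup A] [Module ℂ A] [LieRingModule 𝔤 A]
    [LieModule ℂ 𝔤 A] {lam : Fin 2 → ℤ} (hg : GoodRange lam) (hA : IsAO lam A) :
    UnbddKTypes A := by
  obtain ⟨W, _, _, _, _, ε, hP, hR⟩ := hA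
  exact unbdd_of_R1 hg hP hR

end Pool.Agent.MP_e0f57b_al.Br
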