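import Pool.Agent.Lib.MP_e0f57b_al.Br

/-! The produced module: universal property, uniqueness. -/

open Matrix

attribute [local instance 100] LieRing.ofAssociativeRing

namespace Pool.Agent.MP_e0f57b_al.Br

/-- evaluation at `1` -/
def ev (ν : Fin 2 → ℤ) : V ν →ₗ[ℂ] ℂ where
  toFun F := (F : Vfull ν).1 1
  map_add' _ _ := rfl
  map_smul' _ _ := rfl

theorem act_V_apply {ν : Fin 2 → ℤ} (u v : U) (F : V ν) :
    ((act (V ν) u F : V ν) : Vfull ν).1 v = (F : Vfull ν).1 (v * u) := by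
  let B : Subalgebra ℂ U :=
    { carrier := {u | ∀ (v : U) (F : V ν),
        ((act (V ν) u F : V ν) : Vfull ν).1 v = (F : Vfull ν).1 (v * u)}
      mul_mem' := by
        intro a b ha hb v F
        rw [map_mul, Module.End.mul_apply, ha, hb, mul_assoc]
      add_mem' := by
        intro a b ha hb v F
        rw [map_add, LinearMap.add_apply, mul_add, map_add, ← ha, ← hb]
        rfl
      algebraMap_mem' := by
        intro c v F
        rw [AlgHom.commutes, Module.algebraMap_end_apply, ← Algebra.commutes, ← Algebra.smul_def,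
          map_smul]
        rfl }
  exact uea_mem B (fun x v F => by
    rw [act_iU]
    rfl) u v F

/-- the universal map -/
def uni {ν : Fin 2 → ℤ} {N : Type} [AddCommGroup N] [Module ℂ N] [LieRingModule 𝔤 N]
    [LieModule ℂ 𝔤 N] (hN : IsTMod N) (f : N →ₗ[ℂ] ℂ)
    (hf : ∀ X ∈ bor, ∀ n, f ⁅X, n⁆ = chi ν X * f n) : N →ₗ⁅ℂ, 𝔤⁆ V ν :=
  let Ψ : N →ₗ⁅ℂ, 𝔤⁆ Vfull ν :=
    { toFun := fun n => ⟨Prd.of (f ∘ₗ (act N).toLinearMap.flip n), by
        intro X hX u
        show f (act N (iU X * u) n) = chi ν X * f (act N u n)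
        rw [map_mul, Module.End.mul_apply, act_iU, hf X hX]⟩
      map_add' := fun a b => by
        apply Subtype.ext; ext u
        show f (act N u (a + b)) = f (act N u a) + f (act N u b)
        rw [map_add, map_add]
      map_smul' := fun c a => by
        apply Subtype.ext; ext u
        show f (act N u (c • a)) = c • f (act N u a)
        rw [map_smul, map_smul]
      map_lie' := fun {x n} => by
        apply Subtype.ext; ext u
        show f (act N u ⁅x, n⁆) = f (act N (u * iU x) n)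
        rw [map_mul, Module.End.mul_apply, act_iU] }
  have hΨ : ∀ n, Ψ n ∈ Tfin (Vfull ν) := fun n => map_mem_Tfin Ψ (by
    show n ∈ ⨆ μ, wt N μ
    rw [show (⨆ μ, wt N μ) = ⊤ from hN]; trivial)
  { toFun := fun n => ⟨Ψ n, hΨ n⟩
    map_add' := fun a b => by apply Subtype.ext; exact map_add Ψ a b
    map_smul' := fun c a => by apply Subtype.ext; exact map_smul Ψ c a
    map_lie' := fun {x n} => by apply Subtype.ext; exact LieModuleHom.map_lie Ψ x n }

theorem uni_apply {ν : Fin 2 → ℤ} {N : Type} [AddCommGroup N] [Module ℂ N] [LieRingModule 𝔤 N]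
    [LieModule ℂ 𝔤 N] (hN : IsTMod N) (f : N →ₗ[ℂ] ℂ)
    (hf : ∀ X ∈ bor, ∀ n, f ⁅X, n⁆ = chi ν X * f n) (n : N) (u : U) :
    ((uni hN f hf n : V ν) : Vfull ν).1 u = f (act N u n) := rfl

theorem V_produced (ν : Fin 2 → ℤ) : IsProducedO (V ν) ν (ev ν) := by
  refine ⟨(isTModO_iff _).2 isTMod_Tfin, ?_, ?_⟩
  · intro X hX F
    show (F : Vfull ν).1 (1 * iU X) = chi ν X * (F : Vfull ν).1 1
    rw [one_mul]
    have := (F : Vfull ν).2 X hX 1
    rwa [mul_one] at this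
  · intro N _ _ _ _ hN f hf
    rw [isTModO_iff] at hN
    refine ⟨uni hN f hf, fun n => ?_, fun ψ hψ => ?_⟩
    · show ((uni hN f hf n : V ν) : Vfull ν).1 1 = f n
      rw [uni_apply, map_one]; rfl
    · refine LieModuleHom.ext fun n => Subtype.ext (Subtype.ext (Prd.ext fun u => ?_))
      show ((ψ n : V ν) : Vfull ν).1 u = ((uni hN f hf n : V ν) : Vfull ν).1 u
      rw [uni_apply]
      have h1 := hψ (act N u n)
      rw [act_hom] at h1
      have h2 : ev ν (act (V ν) u (ψ n)) = ((act (V ν) u (ψ n) : V ν) : Vfull ν).1 1 := rfl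
      rw [h2, act_V_apply, one_mul] at h1
      exact h1

/-- a produced module is isomorphic to `V ν` -/
theorem exists_iso {ν : Fin 2 → ℤ} {W : Type} [AddCommGroup W] [Module ℂ W] [LieRingModule 𝔤 W]
    [LieModule ℂ 𝔤 W] {ε : W →ₗ[ℂ] ℂ} (hW : IsProducedO W ν ε) :
    ∃ (φ : W →ₗ⁅ℂ, 𝔤⁆ V ν) (ψ : V ν →ₗ⁅ℂ, 𝔤⁆ W), (∀ w, ψ (φ w) = w) ∧ ∀ v, φ (ψ v) = v := by
  have hV := V_produced ν
  obtain ⟨φ, hφ, -⟩ := hV.2.2 W hW.1 ε hW.2.1
  obtain ⟨ψ, hψ, -⟩ := hW.2.2 (V ν) hV.1 (ev ν) hV.2.1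
  refine ⟨φ, ψ, ?_, ?_⟩
  · obtain ⟨χ, -, hχ⟩ := hW.2.2 W hW.1 ε hW.2.1
    have h1 := hχ (ψ.comp φ) (fun w => by
      show ε (ψ (φ w)) = ε w
      rw [hψ, hφ])
    have h2 := hχ LieModuleHom.id (fun w => rfl)
    intro w
    exact congrArg (fun g : W →ₗ⁅ℂ, 𝔤⁆ W => g w) (h1.trans h2.symm)
  · obtain ⟨χ, -, hχ⟩ := hV.2.2 (V ν) hV.1 (ev ν) hV.2.1
    have h1 := hχ (φ.comp ψ) (fun w => by
      show ev ν (φ (ψ w)) = ev ν w
      rw [hφ, hψ])
    have h2 := hχ LieModuleHom.id (fun w => rfl)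
    intro w
    exact congrArg (fun g : V ν →ₗ⁅ℂ, 𝔤⁆ V ν => g w) (h1.trans h2.symm)

end Pool.Agent.MP_e0f57b_al.Br
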