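import Pool.Agent.Lib.MP_e0f57b_al.FDefs

/-! A11: many cocycles which are independent modulo coboundaries. -/

open Matrix

attribute [local instance 100] LieRing.ofAssociativeRing

namespace Pool.Agent.MP_e0f57b_al

theorem a11_lie_e (i : Fin 2) : ⁅hk i, ek⁆ = ((rt 2 i : ℤ) : ℂ) • ek :=
  Subtype.ext (lie_hh_xb i 2)

theorem a11_lie_f (i : Fin 2) : ⁅hk i, fk⁆ = ((rt 6 i : ℤ) : ℂ) • fk :=
  Subtype.ext (lie_hh_xb i 6)

theorem a11_rt (i : Fin 2) : rt 6 i = - rt 2 i := by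
  fin_cases i <;> rfl

/-- the weights of the representation of dimension `m + 1` -/
def a11_et (m : ℕ) (q : ℤ) (j : ℤ) : Fin 2 → ℤ := ![q + m - j, q + j]

theorem a11_et_e (m : ℕ) (q j : ℤ) : a11_et m q j + rt 2 = a11_et m q (j - 1) := by
  ext i; fin_cases i <;> simp [a11_et, rt] <;> ring

theorem a11_et_f (m : ℕ) (q j : ℤ) : a11_et m q j + rt 6 = a11_et m q (j + 1) := by
  ext i; fin_cases i <;> simp [a11_et, rt] <;> ring

section

variable {W : Type} [AddCommGroup W] [Module ℂ W] [LieRingModule 𝔤 W] [LieModule ℂ 𝔤 W]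
  {m : ℕ} {q : ℤ}

/-- `φ` shifts the weights by `β` -/
def a11_Shift (ρ : kk →ₗ⁅ℂ⁆ Module.End ℂ (Fin (m + 1) → ℂ)) (β : Fin 2 → ℤ)
    (φ : (Fin (m + 1) → ℂ) →ₗ[ℂ] W) : Prop :=
  ∀ i s, ⁅hh i, φ s⁆ = φ (ρ (hk i) s) + ((β i : ℤ) : ℂ) • φ s

theorem a11_rho_single {ρ : kk →ₗ⁅ℂ⁆ Module.End ℂ (Fin (m + 1) → ℂ)}
    (h0 : ρ (hk 0) = opH1 m q) (h1 : ρ (hk 1) = opH2 m q) (i : Fin 2) (j : Fin (m + 1)) :
    ρ (hk i) (Pi.single j 1) = ((a11_et m q j i : ℤ) : ℂ) • (Pi.single j 1 : Fin (m + 1) → ℂ) := by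
  have hi : i = 0 ∨ i = 1 := by fin_cases i <;> simp
  rcases hi with rfl | rfl
  · rw [h0]
    ext l
    show ((q : ℂ) + m - (l : ℕ)) * (Pi.single j 1 : Fin (m + 1) → ℂ) l = _
    by_cases h : l = j
    · subst h
      simp [a11_et]
    · simp [h]
  · rw [h1]
    ext l
    show ((q : ℂ) + (l : ℕ)) * (Pi.single j 1 : Fin (m + 1) → ℂ) l = _
    by_cases h : l = j
    · subst h
      simp [a11_et]
    · simp [h]

theorem a11_shift_L {ρ : kk →ₗ⁅ℂ⁆ Module.End ℂ (Fin (m + 1) → ℂ)}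
    (h0 : ρ (hk 0) = opH1 m q) (h1 : ρ (hk 1) = opH2 m q) {β : Fin 2 → ℤ}
    {v : Fin (m + 1) → W} (hv : ∀ j : Fin (m + 1), v j ∈ wt W (a11_et m q j + β)) :
    a11_Shift ρ β (Fintype.linearCombination ℂ v) := by
  intro i s
  have h : (LieModule.toEnd ℂ 𝔤 W (hh i)).comp (Fintype.linearCombination ℂ v) =
      (Fintype.linearCombination ℂ v).comp (ρ (hk i)) +
        ((β i : ℤ) : ℂ) • (Fintype.linearCombination ℂ v) := by
    refine LinearMap.pi_ext' fun j => LinearMap.ext_ring ?_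
    have e1 := hv j i
    simp only [LinearMap.comp_apply, LinearMap.add_apply, LinearMap.smul_apply,
      LinearMap.coe_single, a11_rho_single h0 h1, map_smul,
      Fintype.linearCombination_apply_single, one_smul, LieModule.toEnd_apply_apply]
    rw [e1, ← add_smul]
    congr 1
    simp
  have := congrArg (fun f => f s) h
  simpa using this

theorem a11_shift_wt {ρ : kk →ₗ⁅ℂ⁆ Module.End ℂ (Fin (m + 1) → ℂ)}
    (h0 : ρ (hk 0) = opH1 m q) (h1 : ρ (hk 1) = opH2 m q) {φ : (Fin (m + 1) → ℂ) →ₗ[ℂ] W}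
    (hφ : a11_Shift ρ 0 φ) (j : Fin (m + 1)) :
    φ (Pi.single j 1) ∈ wt W (a11_et m q j) := by
  intro i
  rw [hφ, a11_rho_single h0 h1, map_smul]
  simp

/-- the defect of the cocycle identity -/
def a11_D (ρ : kk →ₗ⁅ℂ⁆ Module.End ℂ (Fin (m + 1) → ℂ)) (A B : (Fin (m + 1) → ℂ) →ₗ[ℂ] W) :
    (Fin (m + 1) → ℂ) →ₗ[ℂ] W :=
  (LieModule.toEnd ℂ 𝔤 W (xb 2)).comp B + A.comp (ρ fk) -
    (LieModule.toEnd ℂ 𝔤 W (xb 6)).comp A - B.comp (ρ ek)

theorem a11_D_apply (ρ : kk →ₗ⁅ℂ⁆ Module.End ℂ (Fin (m + 1) → ℂ))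
    (A B : (Fin (m + 1) → ℂ) →ₗ[ℂ] W) (s : Fin (m + 1) → ℂ) :
    a11_D ρ A B s = ⁅xb 2, B s⁆ + A (ρ fk s) - ⁅xb 6, A s⁆ - B (ρ ek s) := rfl

theorem a11_comm_e (ρ : kk →ₗ⁅ℂ⁆ Module.End ℂ (Fin (m + 1) → ℂ)) (i : Fin 2)
    (s : Fin (m + 1) → ℂ) :
    ρ (hk i) (ρ ek s) = ρ ek (ρ (hk i) s) + ((rt 2 i : ℤ) : ℂ) • ρ ek s := by
  have h := LieHom.map_lie ρ (hk i) ek
  rw [a11_lie_e, map_smul, Ring.lie_def] at h
  have h2 := congrArg (fun f : Module.End ℂ (Fin (m + 1) → ℂ) => f s) h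
  simp only [LinearMap.smul_apply, LinearMap.sub_apply, Module.End.mul_apply] at h2
  rw [h2]; abel

theorem a11_comm_f (ρ : kk →ₗ⁅ℂ⁆ Module.End ℂ (Fin (m + 1) → ℂ)) (i : Fin 2)
    (s : Fin (m + 1) → ℂ) :
    ρ (hk i) (ρ fk s) = ρ fk (ρ (hk i) s) + ((rt 6 i : ℤ) : ℂ) • ρ fk s := by
  have h := LieHom.map_lie ρ (hk i) fk
  rw [a11_lie_f, map_smul, Ring.lie_def] at h
  have h2 := congrArg (fun f : Module.End ℂ (Fin (m + 1) → ℂ) => f s) h
  simp only [LinearMap.smul_apply, LinearMap.sub_apply, Module.End.mul_apply] at h2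
  rw [h2]; abel

theorem a11_D_shift (ρ : kk →ₗ⁅ℂ⁆ Module.End ℂ (Fin (m + 1) → ℂ))
    {A B : (Fin (m + 1) → ℂ) →ₗ[ℂ] W} (hA : a11_Shift ρ (rt 2) A) (hB : a11_Shift ρ (rt 6) B) :
    a11_Shift ρ 0 (a11_D ρ A B) := by
  intro i s
  have e1 : ⁅hh i, ⁅xb 2, B s⁆⁆ = ⁅xb 2, B (ρ (hk i) s)⁆ := by
    rw [leibniz_lie, lie_hh_xb, hB, lie_add, smul_lie, lie_smul, a11_rt]
    push_cast
    rw [neg_smul]; abel
  have e2 : ⁅hh i, ⁅xb 6, A s⁆⁆ = ⁅xb 6, A (ρ (hk i) s)⁆ := by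
    rw [leibniz_lie, lie_hh_xb, hA, lie_add, smul_lie, lie_smul, a11_rt]
    push_cast
    rw [neg_smul]; abel
  have e3 : ⁅hh i, A (ρ fk s)⁆ = A (ρ fk (ρ (hk i) s)) := by
    rw [hA, a11_comm_f, map_add, map_smul, a11_rt]
    push_cast
    rw [neg_smul]; abel
  have e4 : ⁅hh i, B (ρ ek s)⁆ = B (ρ ek (ρ (hk i) s)) := by
    rw [hB, a11_comm_e, map_add, map_smul, a11_rt]
    push_cast
    rw [neg_smul]; abel
  rw [a11_D_apply, a11_D_apply, lie_sub, lie_sub, lie_add, e1, e2, e3, e4]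
  simp

/-- the cochain attached to `(A, B)` -/
def a11_c (A B : (Fin (m + 1) → ℂ) →ₗ[ℂ] W) : kk →ₗ[ℂ] (Fin (m + 1) → ℂ) →ₗ[ℂ] W :=
  ((co 2).comp kk.toSubmodule.subtype).smulRight A + ((co 6).comp kk.toSubmodule.subtype).smulRight B

theorem a11_c_apply (A B : (Fin (m + 1) → ℂ) →ₗ[ℂ] W) (x : kk) (s : Fin (m + 1) → ℂ) :
    a11_c A B x s = co 2 (x : 𝔤) • A s + co 6 (x : 𝔤) • B s := rfl

theorem a11_c_h (A B : (Fin (m + 1) → ℂ) →ₗ[ℂ] W) (i : Fin 2) (s : Fin (m + 1) → ℂ) :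
    a11_c A B (hk i) s = 0 := by
  rw [a11_c_apply]
  have hi : i = 0 ∨ i = 1 := by fin_cases i <;> simp
  have e0 : ((hk 0 : kk) : 𝔤) = xb 0 := rfl
  have e1 : ((hk 1 : kk) : 𝔤) = xb 1 := rfl
  rcases hi with rfl | rfl
  · rw [e0, co_xb, co_xb, if_neg (by decide), if_neg (by decide)]; simp
  · rw [e1, co_xb, co_xb, if_neg (by decide), if_neg (by decide)]; simp

theorem a11_c_e (A B : (Fin (m + 1) → ℂ) →ₗ[ℂ] W) (s : Fin (m + 1) → ℂ) :
    a11_c A B ek s = A s := by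
  rw [a11_c_apply]
  have e0 : ((ek : kk) : 𝔤) = xb 2 := rfl
  rw [e0, co_xb, co_xb, if_pos rfl, if_neg (by decide)]; simp

theorem a11_c_f (A B : (Fin (m + 1) → ℂ) →ₗ[ℂ] W) (s : Fin (m + 1) → ℂ) :
    a11_c A B fk s = B s := by
  rw [a11_c_apply]
  have e0 : ((fk : kk) : 𝔤) = xb 6 := rfl
  rw [e0, co_xb, co_xb, if_neg (by decide), if_pos rfl]; simp

theorem a11_lie_ef : ⁅ek, fk⁆ = hk 0 - hk 1 := by
  apply Subtype.ext
  apply Subtype.ext
  show ⁅((xb 2 : 𝔤) : Mat), ((xb 6 : 𝔤) : Mat)⁆ = ((hh 0 : 𝔤) : Mat) - ((hh 1 : 𝔤) : Mat)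
  rw [Ring.lie_def]
  ext a b
  rcases a with a | a <;> rcases b with b | b <;> fin_cases a <;> fin_cases b <;>
    simp [xb, hh, mk, fromBlocks_multiply, Matrix.mul_apply, single]

theorem a11_ind {p : kk → Prop} (hadd : ∀ x y, p x → p y → p (x + y))
    (hsmul : ∀ (c : ℂ) x, p x → p (c • x)) (h0 : p (hk 0)) (h1 : p (hk 1)) (he : p ek)
    (hf : p fk) (X : kk) : p X := by
  rw [kk_eq X]
  exact hadd _ _ (hadd _ _ (hadd _ _ (hsmul _ _ h0) (hsmul _ _ h1)) (hsmul _ _ he))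
    (hsmul _ _ hf)

theorem a11_cocycle (ρ : kk →ₗ⁅ℂ⁆ Module.End ℂ (Fin (m + 1) → ℂ))
    {A B : (Fin (m + 1) → ℂ) →ₗ[ℂ] W} (hA : a11_Shift ρ (rt 2) A) (hB : a11_Shift ρ (rt 6) B)
    (hD : a11_D ρ A B = 0) : IsCocycle ρ (a11_c A B) := by
  refine ⟨fun i s => a11_c_h A B i s, ?_⟩
  set c := a11_c A B with hc
  set P : kk → kk → Prop := fun x y => ∀ s, c ⁅x, y⁆ s =
    ⁅(x : 𝔤), c y s⁆ + c x (ρ y s) - ⁅(y : 𝔤), c x s⁆ - c y (ρ x s) with hP
  have hsymm : ∀ x y, P x y → P y x := by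
    intro x y h s
    have h1 := h s
    rw [← lie_skew, map_neg, LinearMap.neg_apply, h1]
    abel
  have hdiag : ∀ x, P x x := by
    intro x s
    rw [lie_self, map_zero, LinearMap.zero_apply]
    abel
  have hadd : ∀ x y z, P x z → P y z → P (x + y) z := by
    intro x y z h1 h2 s
    have e1 := h1 s
    have e2 := h2 s
    have e3 : ((x + y : kk) : 𝔤) = (x : 𝔤) + (y : 𝔤) := rfl
    rw [add_lie, map_add, LinearMap.add_apply, e1, e2, e3, add_lie, map_add, map_add,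
      LinearMap.add_apply, LinearMap.add_apply, LinearMap.add_apply, lie_add, map_add]
    abel
  have hsmul : ∀ (a : ℂ) x z, P x z → P (a • x) z := by
    intro a x z h1 s
    have e1 := h1 s
    have e3 : ((a • x : kk) : 𝔤) = a • (x : 𝔤) := rfl
    rw [smul_lie, map_smul, LinearMap.smul_apply, e1, e3, smul_lie, map_smul, map_smul,
      LinearMap.smul_apply, LinearMap.smul_apply, LinearMap.smul_apply, lie_smul, map_smul]
    module
  -- the basic cases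
  have hhy : ∀ i y, (∀ s, c ⁅hk i, y⁆ s = ⁅hh i, c y s⁆ - c y (ρ (hk i) s)) → P (hk i) y := by
    intro i y h s
    rw [h s, hc, a11_c_h, a11_c_h, lie_zero]
    have : ((hk i : kk) : 𝔤) = hh i := rfl
    rw [this]
    abel
  have hhh : ∀ i l, P (hk i) (hk l) := by
    intro i l
    apply hhy
    intro s
    have : ⁅hk i, hk l⁆ = 0 := by
      have hl : l = 0 ∨ l = 1 := by fin_cases l <;> simp
      rcases hl with rfl | rfl
      · have h := lie_hh_xb i 0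
        apply Subtype.ext
        have e : rt 0 i = 0 := by fin_cases i <;> rfl
        rw [e, Int.cast_zero, zero_smul] at h
        exact h
      · have h := lie_hh_xb i 1
        apply Subtype.ext
        have e : rt 1 i = 0 := by fin_cases i <;> rfl
        rw [e, Int.cast_zero, zero_smul] at h
        exact h
    rw [this, map_zero, LinearMap.zero_apply, hc, a11_c_h, a11_c_h, lie_zero, sub_zero]
  have hhe : ∀ i, P (hk i) ek := by
    intro i
    apply hhy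
    intro s
    rw [a11_lie_e, map_smul, LinearMap.smul_apply, hc, a11_c_e, a11_c_e, hA]
    abel
  have hhf : ∀ i, P (hk i) fk := by
    intro i
    apply hhy
    intro s
    rw [a11_lie_f, map_smul, LinearMap.smul_apply, hc, a11_c_f, a11_c_f, hB]
    abel
  have hef : P ek fk := by
    intro s
    rw [a11_lie_ef, map_sub, LinearMap.sub_apply, hc, a11_c_h, a11_c_h, a11_c_f, a11_c_f,
      a11_c_e, a11_c_e]
    have h := congrArg (fun f => f s) hD
    simp only [a11_D_apply, LinearMap.zero_apply] at h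
    have e1 : ((ek : kk) : 𝔤) = xb 2 := rfl
    have e2 : ((fk : kk) : 𝔤) = xb 6 := rfl
    rw [e1, e2, h, sub_zero]
  -- conclusion
  have hgen : ∀ y, P (hk 0) y → P (hk 1) y → P ek y → P fk y → ∀ x, P x y := fun y a b e f x =>
    a11_ind (p := fun x => P x y) (fun x z h1 h2 => hadd x z y h1 h2)
      (fun r x h1 => hsmul r x y h1) a b e f x
  intro x y
  have h0 : ∀ x, P x (hk 0) := hgen _ (hhh 0 0) (hhh 1 0) (hsymm _ _ (hhe 0)) (hsymm _ _ (hhf 0))
  have h1 : ∀ x, P x (hk 1) := hgen _ (hhh 0 1) (hhh 1 1) (hsymm _ _ (hhe 1)) (hsymm _ _ (hhf 1))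
  have he : ∀ x, P x ek := hgen _ (hhe 0) (hhe 1) (hdiag ek) (hsymm _ _ hef)
  have hf : ∀ x, P x fk := hgen _ (hhf 0) (hhf 1) hef (hdiag fk)
  exact hsymm _ _ (hgen x (hsymm _ _ (h0 x)) (hsymm _ _ (h1 x)) (hsymm _ _ (he x))
    (hsymm _ _ (hf x)) y)

end

theorem a11_exists_indep {E Q : Type*} [AddCommGroup E] [Module ℂ E] [AddCommGroup Q]
    [Module ℂ Q] [FiniteDimensional ℂ E] (g : E →ₗ[ℂ] Q) (N : ℕ)
    (h : N ≤ Module.finrank ℂ (LinearMap.range g)) :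
    ∃ z : Fin N → E, LinearIndependent ℂ (fun n => g (z n)) := by
  have b := Module.finBasis ℂ (LinearMap.range g)
  have h1 : LinearIndependent ℂ (fun n : Fin N => b (Fin.castLE h n)) :=
    b.linearIndependent.comp _ (Fin.castLE_injective h)
  have h2 := h1.map' (LinearMap.range g).subtype (Submodule.ker_subtype _)
  choose z hz using fun n : Fin N => (b (Fin.castLE h n)).2
  refine ⟨z, ?_⟩
  have h3 : (fun n => g (z n)) = (LinearMap.range g).subtype ∘ fun n : Fin N =>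
      b (Fin.castLE h n) := funext fun n => hz n
  rw [h3]
  exact h2

section

variable {W : Type} [AddCommGroup W] [Module ℂ W] [LieRingModule 𝔤 W] [LieModule ℂ 𝔤 W]
  {m : ℕ} {q : ℤ}

/-- the linear map with the given values on the basis -/
def a11_inc (f : Fin (m + 1) → (Fin 2 → ℤ)) :
    ((j : Fin (m + 1)) → wt W (f j)) →ₗ[ℂ] (Fin (m + 1) → ℂ) →ₗ[ℂ] W :=
  (Fintype.bilinearCombination ℂ ℂ).comp
    (LinearMap.pi fun j => (wt W (f j)).subtype.comp (LinearMap.proj j))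

theorem a11_inc_apply (f : Fin (m + 1) → (Fin 2 → ℤ)) (v : (j : Fin (m + 1)) → wt W (f j)) :
    a11_inc f v = Fintype.linearCombination ℂ (fun j => (v j : W)) := rfl

theorem a11_inc_inj (f : Fin (m + 1) → (Fin 2 → ℤ)) :
    Function.Injective (a11_inc (W := W) f) := by
  intro v v' h
  funext j
  apply Subtype.ext
  have h1 := congrArg (fun φ => φ (Pi.single j 1)) h
  simpa [a11_inc_apply, Fintype.linearCombination_apply_single] using h1

/-- maps of weight zero -/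
def a11_Z (ρ : kk →ₗ⁅ℂ⁆ Module.End ℂ (Fin (m + 1) → ℂ)) :
    Submodule ℂ ((Fin (m + 1) → ℂ) →ₗ[ℂ] W) where
  carrier := {φ | a11_Shift ρ 0 φ}
  add_mem' {a b} ha hb i s := by
    rw [LinearMap.add_apply, lie_add, ha i s, hb i s]
    simp
  zero_mem' i s := by simp
  smul_mem' c a ha i s := by
    rw [LinearMap.smul_apply, lie_smul, ha i s]
    simp

/-- evaluation on the basis -/
def a11_ev {ρ : kk →ₗ⁅ℂ⁆ Module.End ℂ (Fin (m + 1) → ℂ)}
    (h0 : ρ (hk 0) = opH1 m q) (h1 : ρ (hk 1) = opH2 m q) :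
    a11_Z (W := W) ρ →ₗ[ℂ] ((j : Fin (m + 1)) → wt W (a11_et m q j)) where
  toFun φ j := ⟨(φ : (Fin (m + 1) → ℂ) →ₗ[ℂ] W) (Pi.single j 1), a11_shift_wt h0 h1 φ.2 j⟩
  map_add' _ _ := rfl
  map_smul' _ _ := rfl

theorem a11_ev_inj {ρ : kk →ₗ⁅ℂ⁆ Module.End ℂ (Fin (m + 1) → ℂ)}
    (h0 : ρ (hk 0) = opH1 m q) (h1 : ρ (hk 1) = opH2 m q) :
    Function.Injective (a11_ev (W := W) h0 h1) := by
  intro φ ψ h
  apply Subtype.ext
  refine LinearMap.pi_ext' fun j => LinearMap.ext_ring ?_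
  have h2 := congrArg Subtype.val (congrFun h j)
  exact h2

/-- the coboundary map -/
def a11_cob (ρ : kk →ₗ⁅ℂ⁆ Module.End ℂ (Fin (m + 1) → ℂ)) : a11_Z (W := W) ρ →ₗ[ℂ]
    ((Fin (m + 1) → ℂ) →ₗ[ℂ] W) × ((Fin (m + 1) → ℂ) →ₗ[ℂ] W) where
  toFun φ := ((LieModule.toEnd ℂ 𝔤 W (xb 2)).comp (φ : (Fin (m + 1) → ℂ) →ₗ[ℂ] W) -
      (φ : (Fin (m + 1) → ℂ) →ₗ[ℂ] W).comp (ρ ek),
    (LieModule.toEnd ℂ 𝔤 W (xb 6)).comp (φ : (Fin (m + 1) → ℂ) →ₗ[ℂ] W) -
      (φ : (Fin (m + 1) → ℂ) →ₗ[ℂ] W).comp (ρ fk))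
  map_add' φ ψ := by
    refine Prod.ext ?_ ?_ <;>
    · ext s
      simp
      abel
  map_smul' c φ := by
    refine Prod.ext ?_ ?_ <;>
    · ext s
      simp [smul_sub]

/-- the cocycle equation as a linear map -/
def a11_DD (m : ℕ) (q : ℤ) (ρ : kk →ₗ⁅ℂ⁆ Module.End ℂ (Fin (m + 1) → ℂ)) :
    (((j : Fin (m + 1)) → wt W (a11_et m q j + rt 2)) ×
      ((j : Fin (m + 1)) → wt W (a11_et m q j + rt 6))) →ₗ[ℂ] (Fin (m + 1) → ℂ) →ₗ[ℂ] W where
  toFun p := a11_D ρ (a11_inc _ p.1) (a11_inc _ p.2)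
  map_add' p p' := by
    ext s
    simp only [Prod.fst_add, Prod.snd_add, map_add, LinearMap.comp_apply, LinearMap.add_apply,
      a11_D_apply, lie_add]
    abel
  map_smul' c p := by
    ext s
    simp only [Prod.smul_fst, Prod.smul_snd, map_smul, LinearMap.comp_apply, LinearMap.smul_apply,
      a11_D_apply, lie_smul, RingHom.id_apply]
    module

theorem a11_sums (V : ℤ → ℕ) (m : ℕ) :
    (∑ j : Fin (m + 1), V ((j : ℕ) - 1)) + (∑ j : Fin (m + 1), V ((j : ℕ) + 1)) + V m + V 0 =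
      V (-1) + V ((m : ℤ) + 1) + 2 * ∑ j : Fin (m + 1), V (j : ℕ) := by
  have h1 : ∑ j : Fin (m + 1), V ((j : ℕ) - 1) = V (-1) + ∑ j : Fin m, V (j : ℕ) := by
    rw [Fin.sum_univ_succ]
    simp
  have h2 : ∑ j : Fin (m + 1), V (j : ℕ) = ∑ j : Fin m, V (j : ℕ) + V m := by
    rw [Fin.sum_univ_castSucc]
    simp
  have h3 : ∑ j : Fin (m + 1), V ((j : ℕ) + 1) = ∑ j : Fin m, V ((j : ℕ) + 1) + V ((m : ℤ) + 1) := by
    rw [Fin.sum_univ_castSucc]
    simp
  have h4 : ∑ j : Fin (m + 1), V (j : ℕ) = V 0 + ∑ j : Fin m, V ((j : ℕ) + 1) := by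
    rw [Fin.sum_univ_succ]
    simp
  omega

end

theorem exists_cocycles {W : Type} [AddCommGroup W] [Module ℂ W] [LieRingModule 𝔤 W]
    [LieModule ℂ 𝔤 W] (hfd : ∀ μ, FiniteDimensional ℂ (wt W μ)) (m : ℕ) (q : ℤ)
    (ρ : kk →ₗ⁅ℂ⁆ Module.End ℂ (Fin (m + 1) → ℂ)) (h0 : ρ (hk 0) = opH1 m q)
    (h1 : ρ (hk 1) = opH2 m q) (he : ρ ek = opE m) (hf : ρ fk = opF m) (N : ℕ)
    (hN : N + Module.finrank ℂ (wt W ![q + m, q]) + Module.finrank ℂ (wt W ![q, q + m]) ≤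
      Module.finrank ℂ (wt W ![q + m + 1, q - 1])) :
    ∃ c : Fin N → (kk →ₗ[ℂ] (Fin (m + 1) → ℂ) →ₗ[ℂ] W), (∀ n, IsCocycle ρ (c n)) ∧
      ∀ (t : Fin N → ℂ) (φ : (Fin (m + 1) → ℂ) →ₗ[ℂ] W),
        (∀ (x : kk) s, ∑ n, t n • c n x s = ⁅(x : 𝔤), φ s⁆ - φ (ρ x s)) → t = 0 := by
  -- dimensions
  have hfr : ∀ μ ν : Fin 2 → ℤ, μ = ν →
      Module.finrank ℂ (wt W μ) = Module.finrank ℂ (wt W ν) := by
    rintro _ _ rfl; rfl
  set V : ℤ → ℕ := fun j => Module.finrank ℂ (wt W (a11_et m q j)) with hVdef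
  have hsum := a11_sums V m
  have e1 : V (-1) = Module.finrank ℂ (wt W ![q + m + 1, q - 1]) := by
    have : a11_et m q (-1) = ![q + m + 1, q - 1] := by
      ext i; fin_cases i <;> simp [a11_et] <;> ring
    exact hfr _ _ this
  have e2 : V 0 = Module.finrank ℂ (wt W ![q + m, q]) := by
    have : a11_et m q 0 = ![q + m, q] := by
      ext i; fin_cases i <;> simp [a11_et]
    exact hfr _ _ this
  have e3 : V m = Module.finrank ℂ (wt W ![q, q + m]) := by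
    have : a11_et m q m = ![q, q + m] := by
      ext i; fin_cases i <;> simp [a11_et]
    exact hfr _ _ this
  -- finite dimensions
  have hfZ : FiniteDimensional ℂ (a11_Z (W := W) ρ) :=
    FiniteDimensional.of_injective _ (a11_ev_inj (W := W) h0 h1)
  have hZ : Module.finrank ℂ (a11_Z (W := W) ρ) ≤ ∑ j : Fin (m + 1), V (j : ℕ) := by
    refine (LinearMap.finrank_le_finrank_of_injective (a11_ev_inj (W := W) h0 h1)).trans_eq ?_
    rw [Module.finrank_pi_fintype]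
  set D := a11_DD (W := W) m q ρ with hD
  have hP : Module.finrank ℂ (((j : Fin (m + 1)) → wt W (a11_et m q j + rt 2)) ×
      ((j : Fin (m + 1)) → wt W (a11_et m q j + rt 6))) =
      (∑ j : Fin (m + 1), V ((j : ℕ) - 1)) + ∑ j : Fin (m + 1), V ((j : ℕ) + 1) := by
    rw [Module.finrank_prod, Module.finrank_pi_fintype, Module.finrank_pi_fintype]
    congr 1
    · exact Finset.sum_congr rfl fun j _ => hfr _ _ (a11_et_e m q j)
    · exact Finset.sum_congr rfl fun j _ => hfr _ _ (a11_et_f m q j)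
  have hshift : ∀ p : (((j : Fin (m + 1)) → wt W (a11_et m q j + rt 2)) ×
      ((j : Fin (m + 1)) → wt W (a11_et m q j + rt 6))),
      a11_Shift ρ (rt 2) (a11_inc _ p.1) ∧ a11_Shift ρ (rt 6) (a11_inc _ p.2) := fun p =>
    ⟨a11_shift_L h0 h1 fun j => (p.1 j).2, a11_shift_L h0 h1 fun j => (p.2 j).2⟩
  have hDr : LinearMap.range D ≤ a11_Z (W := W) ρ := by
    rintro _ ⟨p, rfl⟩
    exact a11_D_shift ρ (hshift p).1 (hshift p).2
  have hDr' : Module.finrank ℂ (LinearMap.range D) ≤ ∑ j : Fin (m + 1), V (j : ℕ) :=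
    (Submodule.finrank_mono hDr).trans hZ
  have hrk := LinearMap.finrank_range_add_finrank_ker D
  -- the quotient map
  set Th : (((j : Fin (m + 1)) → wt W (a11_et m q j + rt 2)) ×
      ((j : Fin (m + 1)) → wt W (a11_et m q j + rt 6))) →ₗ[ℂ]
      ((Fin (m + 1) → ℂ) →ₗ[ℂ] W) × ((Fin (m + 1) → ℂ) →ₗ[ℂ] W) :=
    LinearMap.prodMap (a11_inc _) (a11_inc _) with hTh
  have hThi : Function.Injective Th := by
    intro p p' h
    exact Prod.ext (a11_inc_inj _ (congrArg Prod.fst h)) (a11_inc_inj _ (congrArg Prod.snd h))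
  set R := LinearMap.range (a11_cob (W := W) ρ) with hRdef
  have hfR : FiniteDimensional ℂ R := inferInstance
  have hR : Module.finrank ℂ R ≤ ∑ j : Fin (m + 1), V (j : ℕ) :=
    (LinearMap.finrank_range_le _).trans hZ
  set g : LinearMap.ker D →ₗ[ℂ] ((((Fin (m + 1) → ℂ) →ₗ[ℂ] W) × ((Fin (m + 1) → ℂ) →ₗ[ℂ] W)) ⧸ R) :=
    R.mkQ.comp (Th.comp (LinearMap.ker D).subtype) with hg
  have hrk2 := LinearMap.finrank_range_add_finrank_ker g
  have hker : Module.finrank ℂ (LinearMap.ker g) ≤ Module.finrank ℂ R := by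
    have hmem : ∀ z : LinearMap.ker g, Th ((z : LinearMap.ker D) : _) ∈ R := by
      intro z
      have h2 : g (z : LinearMap.ker D) = 0 := z.2
      exact (Submodule.Quotient.mk_eq_zero R).1 h2
    let u : LinearMap.ker g →ₗ[ℂ] R :=
      LinearMap.codRestrict R (Th.comp ((LinearMap.ker D).subtype.comp
        (LinearMap.ker g).subtype)) hmem
    refine LinearMap.finrank_le_finrank_of_injective (f := u) ?_
    intro z z' h
    have h2 := congrArg Subtype.val h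
    exact Subtype.ext (Subtype.ext (hThi h2))
  obtain ⟨z, hz⟩ := a11_exists_indep g N (by omega)
  refine ⟨fun n => a11_c (a11_inc _ (z n).1.1) (a11_inc _ (z n).1.2), fun n => ?_, ?_⟩
  · refine a11_cocycle ρ (hshift _).1 (hshift _).2 ?_
    exact (z n).2
  · intro t φ ht
    have hφ : a11_Shift ρ 0 φ := by
      intro i s
      have h2 := ht (hk i) s
      simp only [a11_c_h, smul_zero, Finset.sum_const_zero] at h2
      have e4 : ((hk i : kk) : 𝔤) = hh i := rfl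
      rw [e4] at h2
      have h3 := sub_eq_zero.1 h2.symm
      rw [h3]
      simp
    have hfst : (Th ((∑ n, t n • z n : LinearMap.ker D) : _)).1 =
        ∑ n, t n • a11_inc _ (z n).1.1 := by
      rw [AddSubmonoidClass.coe_finsetSum, map_sum, Prod.fst_sum]
      refine Finset.sum_congr rfl fun n _ => ?_
      rw [Submodule.coe_smul, map_smul, Prod.smul_fst]
      rfl
    have hsnd : (Th ((∑ n, t n • z n : LinearMap.ker D) : _)).2 =
        ∑ n, t n • a11_inc _ (z n).1.2 := by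
      rw [AddSubmonoidClass.coe_finsetSum, map_sum, Prod.snd_sum]
      refine Finset.sum_congr rfl fun n _ => ?_
      rw [Submodule.coe_smul, map_smul, Prod.smul_snd]
      rfl
    have hsumz : g (∑ n, t n • z n) = 0 := by
      refine (Submodule.Quotient.mk_eq_zero R).2 ⟨⟨φ, hφ⟩, ?_⟩
      refine Prod.ext ?_ ?_
      · refine LinearMap.ext fun s => ?_
        have h2 := ht ek s
        simp only [a11_c_e] at h2
        refine Eq.trans ?_ (congrArg (fun f => f s) hfst).symm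
        rw [LinearMap.sum_apply]
        exact h2.symm
      · refine LinearMap.ext fun s => ?_
        have h2 := ht fk s
        simp only [a11_c_f] at h2
        refine Eq.trans ?_ (congrArg (fun f => f s) hsnd).symm
        rw [LinearMap.sum_apply]
        exact h2.symm
    rw [map_sum] at hsumz
    simp only [map_smul] at hsumz
    exact funext fun n => Fintype.linearIndependent_iff.1 hz t hsumz n


end Pool.Agent.MP_e0f57b_al
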