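import Pool.Agent.Lib.MP_e0f57b_al.FDefs

namespace Pool.Agent.MP_e0f57b_al

theorem pset_finite (γ : Fin 2 → ℤ) : (pset γ).Finite := by
  let m : ℕ := (γ 0).toNat + (γ 0).toNat + (γ 1).natAbs
  refine Set.Finite.subset (Set.Finite.pi' (t := fun _ : Fin 4 => Set.Iic m)
    (fun _ => Set.finite_Iic m)) ?_
  rintro c ⟨h1, h2⟩ i
  show c i ≤ m
  fin_cases i <;> simp only [m] <;> simp only [Fin.zero_eta, Fin.mk_one, Fin.reduceFinMk] <;> omega

theorem pset_neg (γ : Fin 2 → ℤ) (h : γ 0 < 0) : pset γ = ∅ := by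
  ext c
  simp only [pset, Set.mem_ofPred_eq, Set.mem_empty_iff_false, iff_false]
  omega

theorem pset_pos (γ : Fin 2 → ℤ) (h : (pset γ).Nonempty) : 0 ≤ γ 0 - γ 1 := by
  obtain ⟨c, h1, h2⟩ := h
  omega

theorem pset_card (k : ℕ) :
    Nat.card (pset ![2 * (k : ℤ) - 1, 1]) + (k + 1) ≤ Nat.card (pset ![2 * (k : ℤ), 0]) := by
  have f1 : Finite (pset ![2 * (k : ℤ) - 1, 1]) := (pset_finite _).to_subtype
  have f2 : Finite (pset ![2 * (k : ℤ), 0]) := (pset_finite _).to_subtype
  have : Nat.card (pset ![2 * (k : ℤ) - 1, 1] ⊕ Fin (k + 1)) ≤ Nat.card (pset ![2 * (k : ℤ), 0]) := by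
    let f : pset ![2 * (k : ℤ) - 1, 1] ⊕ Fin (k + 1) → pset ![2 * (k : ℤ), 0] := fun z =>
      match z with
      | .inl c => ⟨![c.1 0 + 1, c.1 1, c.1 2, c.1 3], by
          obtain ⟨h1, h2⟩ := c.2
          simp only [Matrix.cons_val_zero, Matrix.cons_val_one] at h1 h2
          refine ⟨?_, ?_⟩ <;> simp <;> omega⟩
      | .inr i => ⟨![0, k - i, 2 * i, i], by
          have := i.2
          refine ⟨?_, ?_⟩ <;> simp <;> omega⟩
    refine Nat.card_le_card_of_injective f ?_
    rintro (c | i) (c' | i') h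
    · have h' := congrArg Subtype.val h
      have e0 := congrFun h' 0
      have e1 := congrFun h' 1
      have e2 := congrFun h' 2
      have e3 := congrFun h' 3
      simp [f] at e0 e1 e2 e3
      congr 1
      apply Subtype.ext
      funext i
      fin_cases i <;> simp [e0, e1, e2, e3]
    · have e0 := congrFun (congrArg Subtype.val h) 0
      simp [f] at e0
    · have e0 := congrFun (congrArg Subtype.val h) 0
      simp [f] at e0
    · have e3 := congrFun (congrArg Subtype.val h) 3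
      simp [f] at e3
      rw [Sum.inr.injEq]
      exact Fin.ext e3
  rwa [Nat.card_sum, Nat.card_fin] at this

end Pool.Agent.MP_e0f57b_al
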