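import Mathlib

/-!
Definitions for `MP_e0f57b_al`.

The group is `G = Sp(4, ℂ) ∩ U(2, 2)`, a conjugate (inside `Sp(4, ℂ)`) of `Sp(4, ℝ)`; its
complexified Lie algebra is `𝔤 = sp(4, ℂ)`.
-/

open Matrix

attribute [local instance 100] LieRing.ofAssociativeRing

namespace Pool.Agent.MP_e0f57b_al

/-- index type of the rows and columns -/
abbrev Ix : Type := Fin 2 ⊕ Fin 2

/-- complex `4 × 4` matrices -/
abbrev Mat : Type := Matrix Ix Ix ℂ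

/-- the complex Lie algebra `sp(4, ℂ)` -/
abbrev 𝔤 : LieSubalgebra ℂ Mat := LieAlgebra.Symplectic.sp (Fin 2) ℂ

/-- the Hermitian form of signature `(2, 2)` -/
def Hm : Mat := fromBlocks 1 0 0 (-1)

/-- the symplectic form -/
def Jm : Mat := Matrix.J (Fin 2) ℂ

/-- `G = Sp(4, ℂ) ∩ U(2, 2)` -/
def G : Subgroup Matˣ where
  carrier := {g | (g : Mat)ᵀ * Jm * g = Jm ∧ (g : Mat)ᴴ * Hm * g = Hm}
  mul_mem' {a b} ha hb := by
    refine ⟨?_, ?_⟩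
    · calc ((a * b : Matˣ) : Mat)ᵀ * Jm * ((a * b : Matˣ) : Mat)
          = (b : Mat)ᵀ * ((a : Mat)ᵀ * Jm * a) * b := by
            rw [Units.val_mul, transpose_mul]; simp only [Matrix.mul_assoc]
        _ = Jm := by rw [ha.1, hb.1]
    · calc ((a * b : Matˣ) : Mat)ᴴ * Hm * ((a * b : Matˣ) : Mat)
          = (b : Mat)ᴴ * ((a : Mat)ᴴ * Hm * a) * b := by
            rw [Units.val_mul, conjTranspose_mul]; simp only [Matrix.mul_assoc]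
        _ = Hm := by rw [ha.2, hb.2]
  one_mem' := by simp
  inv_mem' {a} ha := by
    have h1 : (a : Mat) * ((a⁻¹ : Matˣ) : Mat) = 1 := by simp
    have h2 : ((a⁻¹ : Matˣ) : Mat)ᵀ * (a : Mat)ᵀ = 1 := by
      rw [← transpose_mul, h1, transpose_one]
    have h3 : ((a⁻¹ : Matˣ) : Mat)ᴴ * (a : Mat)ᴴ = 1 := by
      rw [← conjTranspose_mul, h1, conjTranspose_one]
    refine ⟨?_, ?_⟩
    · calc ((a⁻¹ : Matˣ) : Mat)ᵀ * Jm * ((a⁻¹ : Matˣ) : Mat)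
          = ((a⁻¹ : Matˣ) : Mat)ᵀ * ((a : Mat)ᵀ * Jm * a) * ((a⁻¹ : Matˣ) : Mat) := by rw [ha.1]
        _ = (((a⁻¹ : Matˣ) : Mat)ᵀ * (a : Mat)ᵀ) * Jm * ((a : Mat) * ((a⁻¹ : Matˣ) : Mat)) := by
            simp only [Matrix.mul_assoc]
        _ = Jm := by rw [h1, h2]; simp
    · calc ((a⁻¹ : Matˣ) : Mat)ᴴ * Hm * ((a⁻¹ : Matˣ) : Mat)
          = ((a⁻¹ : Matˣ) : Mat)ᴴ * ((a : Mat)ᴴ * Hm * a) * ((a⁻¹ : Matˣ) : Mat) := by rw [ha.2]
        _ = (((a⁻¹ : Matˣ) : Mat)ᴴ * (a : Mat)ᴴ) * Hm * ((a : Mat) * ((a⁻¹ : Matˣ) : Mat)) := by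
            simp only [Matrix.mul_assoc]
        _ = Hm := by rw [h1, h3]; simp

/-- the maximal compact subgroup `K = G ∩ U(4)`, the fixed points of `θ g = (gᴴ)⁻¹` -/
def K : Subgroup Matˣ where
  carrier := {g | g ∈ G ∧ (g : Mat)ᴴ * g = 1}
  mul_mem' {a b} ha hb := by
    refine ⟨G.mul_mem ha.1 hb.1, ?_⟩
    calc ((a * b : Matˣ) : Mat)ᴴ * ((a * b : Matˣ) : Mat)
          = (b : Mat)ᴴ * ((a : Mat)ᴴ * a) * b := by
            rw [Units.val_mul, conjTranspose_mul]; simp only [Matrix.mul_assoc]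
        _ = 1 := by rw [ha.2]; simpa using hb.2
  one_mem' := by simp [G.one_mem]
  inv_mem' {a} ha := by
    have h1 : (a : Mat) * ((a⁻¹ : Matˣ) : Mat) = 1 := by simp
    have h3 : ((a⁻¹ : Matˣ) : Mat)ᴴ * (a : Mat)ᴴ = 1 := by
      rw [← conjTranspose_mul, h1, conjTranspose_one]
    refine ⟨G.inv_mem ha.1, ?_⟩
    calc ((a⁻¹ : Matˣ) : Mat)ᴴ * ((a⁻¹ : Matˣ) : Mat)
          = ((a⁻¹ : Matˣ) : Mat)ᴴ * ((a : Mat)ᴴ * a) * ((a⁻¹ : Matˣ) : Mat) := by rw [ha.2]; simp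
        _ = (((a⁻¹ : Matˣ) : Mat)ᴴ * (a : Mat)ᴴ) * ((a : Mat) * ((a⁻¹ : Matˣ) : Mat)) := by
            simp only [Matrix.mul_assoc]
        _ = 1 := by rw [h1, h3]; simp

theorem mem_g_iff (X : Mat) : X ∈ 𝔤 ↔ Xᵀ * Jm = Jm * (-X) := by
  simp [LieAlgebra.Symplectic.sp, Matrix.IsSkewAdjoint, Matrix.IsAdjointPair, Jm]

/-- the Lie algebra of `G`: a real form of `𝔤` -/
def g0 : LieSubalgebra ℝ Mat where
  carrier := {X | X ∈ 𝔤 ∧ Xᴴ * Hm + Hm * X = 0}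
  add_mem' {a b} ha hb := by
    refine ⟨add_mem ha.1 hb.1, ?_⟩
    rw [conjTranspose_add, add_mul, mul_add]
    calc aᴴ * Hm + bᴴ * Hm + (Hm * a + Hm * b) = (aᴴ * Hm + Hm * a) + (bᴴ * Hm + Hm * b) := by abel
      _ = 0 := by rw [ha.2, hb.2, add_zero]
  zero_mem' := by simp
  smul_mem' c a ha := by
    refine ⟨?_, ?_⟩
    · have : (c • a : Mat) = (c : ℂ) • a := by ext i j; simp
      rw [this]; exact 𝔤.smul_mem _ ha.1
    · have h1 : (c • a : Mat)ᴴ = c • aᴴ := by ext i j; simp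
      rw [h1, Matrix.smul_mul, Matrix.mul_smul, ← smul_add, ha.2, smul_zero]
  lie_mem' {a b} ha hb := by
    have h1 := ha.2
    have h2 := hb.2
    refine ⟨𝔤.lie_mem ha.1 hb.1, ?_⟩
    have e1 : aᴴ * Hm = - (Hm * a) := eq_neg_of_add_eq_zero_left h1
    have e2 : bᴴ * Hm = - (Hm * b) := eq_neg_of_add_eq_zero_left h2
    show (⁅a, b⁆ : Mat)ᴴ * Hm + Hm * ⁅a, b⁆ = 0
    rw [Ring.lie_def, conjTranspose_sub, conjTranspose_mul, conjTranspose_mul, sub_mul, mul_sub,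
      Matrix.mul_assoc bᴴ, e1, Matrix.mul_assoc aᴴ, e2]
    rw [Matrix.mul_neg, Matrix.mul_neg, ← Matrix.mul_assoc bᴴ, ← Matrix.mul_assoc aᴴ, e1, e2]
    simp only [Matrix.neg_mul, Matrix.mul_assoc]
    abel

/-- the matrix `[[A, B], [C, -Aᵀ]]` of `𝔤` -/
def mk (A B C : Matrix (Fin 2) (Fin 2) ℂ) (hB : Bᵀ = B) (hC : Cᵀ = C) : 𝔤 :=
  ⟨fromBlocks A B C (-Aᵀ), by
    rw [mem_g_iff]
    simp [Jm, Matrix.J, fromBlocks_transpose, fromBlocks_multiply, fromBlocks_neg, hB, hC]⟩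

/-- the standard basis of the compact Cartan subalgebra `𝔱` -/
def hh (i : Fin 2) : 𝔤 := mk (single i i 1) 0 0 (by simp) (by simp)

end Pool.Agent.MP_e0f57b_al
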