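import Pool.Agent.Lib.MP_e0f57b_al.GrpCpt

/-!
The exponential map of `G`, and surjectivity of `exp : 𝔨₀ → K`.
-/

open Matrix

attribute [local instance 100] LieRing.ofAssociativeRing

namespace Pool.Agent.MP_e0f57b_al

theorem exists_exp (X : g0) : ∃ γ : ℝ → G, ∀ t : ℝ, IsExp (t • X) (γ t) :=
  ⟨fun t => ⟨expU ((t • X : g0) : Mat), expU_mem (t • X : g0).2⟩, fun _ => rfl⟩

section

open scoped Matrix.Norms.L2Operator

/-- a unitary matrix is the exponential of a skew-Hermitian matrix -/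
theorem exists_log (A : Matrix (Fin 2) (Fin 2) ℂ) (h1 : Aᴴ * A = 1) :
    ∃ Y : Matrix (Fin 2) (Fin 2) ℂ, Yᴴ = -Y ∧ NormedSpace.exp Y = A := by
  have h2 : A * Aᴴ = 1 := mul_eq_one_comm.1 h1
  have hU : A ∈ unitary (Matrix (Fin 2) (Fin 2) ℂ) := ⟨h1, h2⟩
  have hn : IsStarNormal A := ⟨by show star A * A = A * star A; rw [star_eq_conjTranspose, h1, h2]⟩
  have hfin : (spectrum ℂ A).Finite := Matrix.finite_spectrum A
  have hcont : ContinuousOn Complex.log (spectrum ℂ A) := hfin.continuousOn _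
  have hsp : ∀ z ∈ spectrum ℂ A, ‖z‖ = 1 := fun z hz => by
    have := spectrum.subset_circle_of_unitary hU hz
    simpa using this
  have hne : ∀ z ∈ spectrum ℂ A, z ≠ 0 := fun z hz h0 => by
    have := hsp z hz
    rw [h0, norm_zero] at this
    exact zero_ne_one this
  refine ⟨cfc Complex.log A, ?_, ?_⟩
  · rw [← star_eq_conjTranspose, ← cfc_star, ← cfc_neg]
    apply cfc_congr
    intro z hz
    have h := hsp z hz
    show star (Complex.log z) = - Complex.log z
    rw [Complex.log, h]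
    simp
  · have hn2 : IsStarNormal (cfc Complex.log A) := cfc_predicate _ _
    rw [← CFC.exp_eq_normedSpace_exp (𝕜 := ℂ) (a := cfc Complex.log A) hn2]
    rw [← cfc_comp' (NormedSpace.exp : ℂ → ℂ) Complex.log A]
    · conv_rhs => rw [← cfc_id ℂ A hn]
      apply cfc_congr
      intro z hz
      show NormedSpace.exp (Complex.log z) = z
      rw [← Complex.exp_eq_exp_ℂ]
      exact Complex.exp_log (hne z hz)

/-- block diagonal exponentials -/
theorem exp_fromBlocks (A D : Matrix (Fin 2) (Fin 2) ℂ) :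
    NormedSpace.exp (fromBlocks A 0 0 D : Mat) =
      fromBlocks (NormedSpace.exp A) 0 0 (NormedSpace.exp D) := by
  let f : Matrix (Fin 2) (Fin 2) ℂ × Matrix (Fin 2) (Fin 2) ℂ →+* Mat :=
    { toFun := fun p => fromBlocks p.1 0 0 p.2
      map_one' := by simp [fromBlocks_one]
      map_mul' := fun p q => by simp [fromBlocks_multiply]
      map_zero' := by simp
      map_add' := fun p q => by simp [fromBlocks_add] }
  have hf : Continuous f := by
    show Continuous fun p : Matrix (Fin 2) (Fin 2) ℂ × Matrix (Fin 2) (Fin 2) ℂ =>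
      (fromBlocks p.1 0 0 p.2 : Mat)
    exact Continuous.matrix_fromBlocks continuous_fst continuous_const continuous_const
      continuous_snd
  let _ : NormedAlgebra ℚ (Matrix (Fin 2) (Fin 2) ℂ × Matrix (Fin 2) (Fin 2) ℂ) :=
    NormedAlgebra.restrictScalars ℚ ℂ _
  have h1 := NormedSpace.map_exp f hf (A, D)
  have h2 : (NormedSpace.exp (A, D)).1 = NormedSpace.exp A :=
    NormedSpace.map_exp (RingHom.fst (Matrix (Fin 2) (Fin 2) ℂ) (Matrix (Fin 2) (Fin 2) ℂ))
      continuous_fst (A, D)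
  have h3 : (NormedSpace.exp (A, D)).2 = NormedSpace.exp D :=
    NormedSpace.map_exp (RingHom.snd (Matrix (Fin 2) (Fin 2) ℂ) (Matrix (Fin 2) (Fin 2) ℂ))
      continuous_snd (A, D)
  have h4 : f (NormedSpace.exp (A, D)) =
      fromBlocks (NormedSpace.exp A) 0 0 (NormedSpace.exp D) := by
    show fromBlocks (NormedSpace.exp (A, D)).1 0 0 (NormedSpace.exp (A, D)).2 = _
    rw [h2, h3]
  rw [← h4, h1]
  rfl

end

/-- `exp : 𝔨₀ → K` is surjective -/
theorem exp_surj (k : G) (hk : (k : Matˣ) ∈ K) :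
    ∃ X : g0, (⟨(X : Mat), X.2.1⟩ : 𝔤) ∈ kk ∧ IsExp X k := by
  obtain ⟨⟨h1, h2⟩, h3⟩ := hk
  set g : Mat := ((k : Matˣ) : Mat) with hg
  have h3' : g * gᴴ = 1 := mul_eq_one_comm.1 h3
  have h4 : Hm * g = g * Hm := by
    calc Hm * g = (g * gᴴ) * (Hm * g) := by rw [h3', Matrix.one_mul]
      _ = g * (gᴴ * Hm * g) := by simp only [Matrix.mul_assoc]
      _ = g * Hm := by rw [h2]
  have h5 : Hm * g * Hm = g := by
    rw [h4, Matrix.mul_assoc, Hm_mul_Hm, Matrix.mul_one]
  have h6 := (Hm_conj_eq_iff g).1 h5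
  have e12 : g.toBlocks₁₂ = 0 := by ext i j; exact (h6 i j).1
  have e21 : g.toBlocks₂₁ = 0 := by ext i j; exact (h6 i j).2
  have hgb : g = fromBlocks g.toBlocks₁₁ 0 0 g.toBlocks₂₂ := by
    conv_lhs => rw [← fromBlocks_toBlocks g, e12, e21]
  set A := g.toBlocks₁₁ with hA
  set D := g.toBlocks₂₂ with hD
  rw [hgb, fromBlocks_conjTranspose, fromBlocks_multiply, ← fromBlocks_one, fromBlocks_inj] at h3
  have hAA : Aᴴ * A = 1 := by simpa using h3.1
  rw [hgb, fromBlocks_transpose, Jm, Matrix.J, fromBlocks_multiply, fromBlocks_multiply,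
    fromBlocks_inj] at h1
  have hDA : Dᵀ * A = 1 := by simpa using h1.2.2.1
  obtain ⟨Y, hY, hYA⟩ := exists_log A hAA
  have hX : (mk Y 0 0 (by simp) (by simp) : Mat) ∈ g0 := by
    refine ⟨(mk Y 0 0 (by simp) (by simp)).2, ?_⟩
    show (fromBlocks Y 0 0 (-Yᵀ) : Mat)ᴴ * Hm + Hm * (fromBlocks Y 0 0 (-Yᵀ) : Mat) = 0
    have hYT : (Yᵀ)ᴴ = -Yᵀ := by
      rw [← transpose_neg, ← hY]; rfl
    rw [fromBlocks_conjTranspose, Hm, fromBlocks_multiply, fromBlocks_multiply, fromBlocks_add,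
      conjTranspose_neg, hYT, hY]
    simp
  refine ⟨⟨(mk Y 0 0 (by simp) (by simp) : Mat), hX⟩, ?_, ?_⟩
  · intro i j
    exact ⟨rfl, rfl⟩
  · show g = NormedSpace.exp (fromBlocks Y 0 0 (-Yᵀ) : Mat)
    rw [exp_fromBlocks, hYA, hgb]
    congr 1
    have h7 : NormedSpace.exp (-Yᵀ) * Aᵀ = 1 := by
      rw [← hYA, ← Matrix.exp_transpose,
        ← Matrix.exp_add_of_commute _ _ (Commute.neg_left (Commute.refl Yᵀ))]
      simp
    have h8 : Aᵀ * D = 1 := by
      rw [← transpose_transpose D, ← transpose_mul, hDA, transpose_one]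
    calc D = (NormedSpace.exp (-Yᵀ) * Aᵀ) * D := by rw [h7, Matrix.one_mul]
      _ = NormedSpace.exp (-Yᵀ) := by rw [Matrix.mul_assoc, h8, Matrix.mul_one]

end Pool.Agent.MP_e0f57b_al
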