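import Mathlib

namespace Pool.Agent.MP_e0f57b_al

/-- ordered monomials `x₀ ^ a₀ * x₁ ^ a₁ * ⋯` -/
def omon {A : Type*} [Monoid A] {n : ℕ} (x : Fin n → A) (a : Fin n → ℕ) : A :=
  (List.ofFn fun i => x i ^ a i).prod

end Pool.Agent.MP_e0f57b_al
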