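import Pool.Agent.Lib.MP_e0f57b_al.Mods

/-!
Finite-dimensional representations of `𝔨 ≅ 𝔤𝔩(2, ℂ)`, cocycles.
-/

open Matrix

attribute [local instance 100] LieRing.ofAssociativeRing

namespace Pool.Agent.MP_e0f57b_al

/-- the basis of `𝔱` inside `𝔨` -/
def hk (i : Fin 2) : kk := ⟨hh i, fun a b => ⟨by simp [hh, mk], by simp [hh, mk]⟩⟩

/-- the root vector of `e₁ - e₂` in `𝔨` -/
def ek : kk := ⟨xb 2, fun a b => ⟨by simp [xb, mk], by simp [xb, mk]⟩⟩

/-- the root vector of `e₂ - e₁` in `𝔨` -/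
def fk : kk := ⟨xb 6, fun a b => ⟨by simp [xb, mk], by simp [xb, mk]⟩⟩

/-- coordinates in `𝔨` -/
theorem kk_eq (X : kk) : X = ((X : 𝔤) : Mat) (.inl 0) (.inl 0) • hk 0 +
    ((X : 𝔤) : Mat) (.inl 1) (.inl 1) • hk 1 + ((X : 𝔤) : Mat) (.inl 0) (.inl 1) • ek +
    ((X : 𝔤) : Mat) (.inl 1) (.inl 0) • fk := by
  apply Subtype.ext
  have h := sum_co (X : 𝔤)
  simp only [Fin.sum_univ_succ, co, Fin.sum_univ_zero] at h
  have h1 : ∀ i j, ((X : 𝔤) : Mat) (.inl i) (.inr j) = 0 := fun i j => (X.2 i j).1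
  have h2 : ∀ i j, ((X : 𝔤) : Mat) (.inr i) (.inl j) = 0 := fun i j => (X.2 i j).2
  conv_lhs => rw [← h]
  simp [h1, h2, hk, ek, fk, xb]
  abel

section

variable {M : Type*} [AddCommGroup M] [Module ℂ M]

/-- a representation of `𝔨` from four operators -/
def repOfOps (H1 H2 E F : Module.End ℂ M) (h12 : H1 * H2 = H2 * H1) (h1e : H1 * E - E * H1 = E)
    (h2e : H2 * E - E * H2 = - E) (h1f : H1 * F - F * H1 = - F) (h2f : H2 * F - F * H2 = F)
    (hef : E * F - F * E = H1 - H2) : kk →ₗ⁅ℂ⁆ Module.End ℂ M where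
  toFun X := ((X : 𝔤) : Mat) (.inl 0) (.inl 0) • H1 + ((X : 𝔤) : Mat) (.inl 1) (.inl 1) • H2 +
    ((X : 𝔤) : Mat) (.inl 0) (.inl 1) • E + ((X : 𝔤) : Mat) (.inl 1) (.inl 0) • F
  map_add' X Y := by
    have h : ∀ i j, ((X + Y : kk) : 𝔤).1 i j = (X : 𝔤).1 i j + (Y : 𝔤).1 i j := fun _ _ => rfl
    simp only [h]
    module
  map_smul' c X := by
    have h : ∀ i j, ((c • X : kk) : 𝔤).1 i j = c * (X : 𝔤).1 i j := fun _ _ => rfl
    simp only [h, RingHom.id_apply]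
    module
  map_lie' {X Y} := by
    have e1 : E * H1 = H1 * E - E := by
      have : E * H1 = H1 * E - (H1 * E - E * H1) := by abel
      rw [this, h1e]
    have e2 : E * H2 = H2 * E + E := by
      have : E * H2 = H2 * E - (H2 * E - E * H2) := by abel
      rw [this, h2e, sub_neg_eq_add]
    have e3 : F * H1 = H1 * F + F := by
      have : F * H1 = H1 * F - (H1 * F - F * H1) := by abel
      rw [this, h1f, sub_neg_eq_add]
    have e4 : F * H2 = H2 * F - F := by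
      have : F * H2 = H2 * F - (H2 * F - F * H2) := by abel
      rw [this, h2f]
    have e5 : F * E = E * F - H1 + H2 := by
      have : F * E = E * F - (E * F - F * E) := by abel
      rw [this, hef]; abel
    have h1 : ∀ (Z : kk) i j, ((Z : 𝔤) : Mat) (.inl i) (.inr j) = 0 := fun Z i j => (Z.2 i j).1
    have h2 : ∀ (Z : kk) i j, ((Z : 𝔤) : Mat) (.inr i) (.inl j) = 0 := fun Z i j => (Z.2 i j).2
    have hb : ∀ i j, ((⁅X, Y⁆ : kk) : 𝔤).1 (.inl i) (.inl j) =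
        ∑ l, (((X : 𝔤) : Mat) (.inl i) (.inl l) * ((Y : 𝔤) : Mat) (.inl l) (.inl j)
          - ((Y : 𝔤) : Mat) (.inl i) (.inl l) * ((X : 𝔤) : Mat) (.inl l) (.inl j)) := by
      intro i j
      rw [LieSubalgebra.coe_bracket, LieSubalgebra.coe_bracket, Ring.lie_def, Matrix.sub_apply,
        Matrix.mul_apply, Matrix.mul_apply, Fintype.sum_sum_type, Fintype.sum_sum_type,
        Finset.sum_sub_distrib]
      simp [h1, h2]
    rw [hb, hb, hb, hb]
    simp only [Fin.sum_univ_two, Ring.lie_def, mul_add, add_mul, smul_mul_assoc, mul_smul_comm, e1,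
      e2, e3, e4, e5, h12]
    module

/-- weight spaces of a representation of `𝔨` -/
def wtR (ρ : kk →ₗ⁅ℂ⁆ Module.End ℂ M) (μ : Fin 2 → ℤ) : Submodule ℂ M where
  carrier := {m | ∀ i, ρ (hk i) m = ((μ i : ℤ) : ℂ) • m}
  add_mem' {a b} ha hb i := by rw [map_add, ha i, hb i, smul_add]
  zero_mem' i := by simp
  smul_mem' c a ha i := by rw [map_smul, ha i, smul_comm]

/-- irreducible representations of `𝔨` -/
def IrrR (ρ : kk →ₗ⁅ℂ⁆ Module.End ℂ M) : Prop :=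
  (⊥ : Submodule ℂ M) ≠ ⊤ ∧
    ∀ E : Submodule ℂ M, (∀ x, ∀ s ∈ E, ρ x s ∈ E) → E = ⊥ ∨ E = ⊤

/-- `ρ` is the representation of `𝔨` on a `K`-type: finite-dimensional, irreducible, with integral
weights -/
def IsKType (ρ : kk →ₗ⁅ℂ⁆ Module.End ℂ M) : Prop :=
  FiniteDimensional ℂ M ∧ IrrR ρ ∧ ⨆ μ, wtR ρ μ = ⊤

/-- the multiplicity of `ρ` in the `𝔤`-module `A` is at least `N` -/
def MultGe (ρ : kk →ₗ⁅ℂ⁆ Module.End ℂ M) (A : Type*) [AddCommGroup A] [Module ℂ A]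
    [LieRingModule 𝔤 A] [LieModule ℂ 𝔤 A] (N : ℕ) : Prop :=
  ∃ f : Fin N → (M →ₗ[ℂ] A), LinearIndependent ℂ f ∧
    ∀ n (x : kk) (s : M), f n (ρ x s) = ⁅(x : 𝔤), f n s⁆

/-- `1`-cocycles of `(𝔨, T)` with values in `Hom(M, W)` -/
structure IsCocycle {W : Type*} [AddCommGroup W] [Module ℂ W] [LieRingModule 𝔤 W]
    [LieModule ℂ 𝔤 W] (ρ : kk →ₗ⁅ℂ⁆ Module.End ℂ M) (c : kk →ₗ[ℂ] M →ₗ[ℂ] W) : Prop where
  zero : ∀ i s, c (hk i) s = 0
  coc : ∀ (x y : kk) s, c ⁅x, y⁆ s =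
    ⁅(x : 𝔤), c y s⁆ + c x (ρ y s) - ⁅(y : 𝔤), c x s⁆ - c y (ρ x s)

end

/-- action of `hk 0` on the `K`-type with weights `(q + m - j, q + j)` -/
def opH1 (m : ℕ) (q : ℤ) : Module.End ℂ (Fin (m + 1) → ℂ) where
  toFun s j := ((q : ℂ) + m - (j : ℕ)) * s j
  map_add' s s' := by ext j; simp; ring
  map_smul' c s := by ext j; simp; ring

/-- action of `hk 1` -/
def opH2 (m : ℕ) (q : ℤ) : Module.End ℂ (Fin (m + 1) → ℂ) where
  toFun s j := ((q : ℂ) + (j : ℕ)) * s j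
  map_add' s s' := by ext j; simp; ring
  map_smul' c s := by ext j; simp; ring

/-- action of `ek` -/
def opE (m : ℕ) : Module.End ℂ (Fin (m + 1) → ℂ) where
  toFun s j := if h : (j : ℕ) + 1 < m + 1 then (((j : ℕ) : ℂ) + 1) * ((m : ℂ) - (j : ℕ)) * s ⟨j + 1, h⟩
    else 0
  map_add' s s' := by ext j; by_cases h : (j : ℕ) < m <;> simp [h]; ring
  map_smul' c s := by ext j; by_cases h : (j : ℕ) < m <;> simp [h]; ring

/-- action of `fk` -/
def opF (m : ℕ) : Module.End ℂ (Fin (m + 1) → ℂ) where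
  toFun s j := if h : 0 < (j : ℕ) then s ⟨j - 1, by omega⟩ else 0
  map_add' s s' := by
    ext j
    by_cases h : 0 < (j : ℕ)
    · simp only [dif_pos h, Pi.add_apply]
    · simp only [dif_neg h, Pi.add_apply, add_zero]
  map_smul' c s := by
    ext j
    by_cases h : 0 < (j : ℕ)
    · simp only [dif_pos h, Pi.smul_apply, RingHom.id_apply]
    · simp only [dif_neg h, Pi.smul_apply, smul_zero, RingHom.id_apply]

end Pool.Agent.MP_e0f57b_al
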