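import Pool.Agent.Lib.MP_e0f57b_al.GDefs
import Pool.Agent.Lib.MP_e0f57b_al.Reps
import Pool.Agent.Lib.MP_e0f57b_al.Omon

open Matrix

attribute [local instance 100] LieRing.ofAssociativeRing

namespace Pool.Agent.MP_e0f57b_al

/-- `U(𝔨) → U(𝔤)` -/
def phiK : UniversalEnvelopingAlgebra ℂ kk →ₐ[ℂ] U :=
  UniversalEnvelopingAlgebra.lift ℂ (iU.comp kk.incl)

/-- root vectors of `𝔭` -/
def pv : Fin 6 → 𝔤 := ![xb 3, xb 4, xb 5, xb 7, xb 8, xb 9]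

/-- roots of `𝔭` -/
def prt : Fin 6 → Fin 2 → ℤ := ![rt 3, rt 4, rt 5, rt 7, rt 8, rt 9]

/-- ordered monomials in `𝔭` -/
def yb (a : Fin 6 → ℕ) : U := omon (fun i => iU (pv i)) a

/-- `U(𝔟) → U(𝔤)` -/
def phiB : UniversalEnvelopingAlgebra ℂ bor →ₐ[ℂ] U :=
  UniversalEnvelopingAlgebra.lift ℂ (iU.comp bor.incl)

/-- ordered monomials in the opposite nilradical -/
def nb (c : Fin 4 → ℕ) : U := omon (fun i => iU ((![xb 6, xb 7, xb 8, xb 9] : Fin 4 → 𝔤) i)) c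

/-- exponents `(c₀, c₁, c₂, c₃)` with `c₀(e₁-e₂) + c₁ 2e₁ + c₂(e₁+e₂) - c₃ 2e₂ = γ` -/
def pset (γ : Fin 2 → ℤ) : Set (Fin 4 → ℕ) :=
  {c | (c 0 : ℤ) + 2 * c 1 + c 2 = γ 0 ∧ -(c 0 : ℤ) + c 2 - 2 * c 3 = γ 1}

/-- the parabolic subalgebra `𝔨 + 𝔭₊` -/
abbrev qt : LieSubalgebra ℂ 𝔤 := par (Sum.elim ![1, 1] ![-1, -1])

end Pool.Agent.MP_e0f57b_al
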