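import Pool.Agent.Lib.MP_e0f57b_al.FDefs

/-!
Group level facts on `K` and `G`: compactness of `K`, the symmetric pair `(𝔤₀, 𝔨₀)`, conjugacy of
`G` with the real symplectic group.
-/

open Matrix

attribute [local instance 100] LieRing.ofAssociativeRing

namespace Pool.Agent.MP_e0f57b_al

/-- the matrices of `K` -/
def Kset : Set Mat := {A | Aᵀ * Jm * A = Jm ∧ Aᴴ * Hm * A = Hm ∧ Aᴴ * A = 1}

theorem isCompact_Kset : IsCompact Kset := by
  have hc : IsCompact (Set.pi Set.univ fun _ : Ix => Set.pi Set.univ fun _ : Ix =>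
      Metric.closedBall (0 : ℂ) 1) :=
    isCompact_univ_pi fun _ => isCompact_univ_pi fun _ => isCompact_closedBall _ _
  refine hc.of_isClosed_subset ?_ ?_
  · refine IsClosed.inter ?_ (IsClosed.inter ?_ ?_)
    · exact isClosed_eq (by fun_prop) (by fun_prop)
    · exact isClosed_eq (by fun_prop) (by fun_prop)
    · exact isClosed_eq (by fun_prop) (by fun_prop)
  · intro A hA i _ j _
    rw [mem_closedBall_zero_iff]
    exact entry_norm_bound_of_unitary (by rw [Matrix.mem_unitaryGroup_iff']; exact hA.2.2) i j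

theorem compact_K : CompactSpace K := by
  have : CompactSpace Kset := isCompact_iff_compactSpace.1 isCompact_Kset
  let f : Kset → Matˣ := fun A => ⟨A.1, A.1ᴴ, mul_eq_one_comm.1 A.2.2.2, A.2.2.2⟩
  have hf : Continuous f := by
    rw [Units.continuous_iff]
    refine ⟨?_, ?_⟩
    · exact continuous_subtype_val
    · show Continuous fun A : Kset => (A.1)ᴴ
      fun_prop
  have hr : (K : Set Matˣ) = Set.range f := by
    ext g
    constructor
    · rintro ⟨h1, h2⟩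
      exact ⟨⟨(g : Mat), h1.1, h1.2, h2⟩, Units.ext rfl⟩
    · rintro ⟨A, rfl⟩
      exact ⟨⟨A.2.1, A.2.2.1⟩, A.2.2.2⟩
  have h := isCompact_range hf
  rw [← hr] at h
  exact isCompact_iff_compactSpace.1 h

/-- conjugation by `Hm` on `𝔤₀` -/
theorem Hm_mul_Hm : Hm * Hm = 1 := by
  simp [Hm, fromBlocks_multiply, fromBlocks_one]

theorem Hm_conjTranspose : Hmᴴ = Hm := by
  simp [Hm, fromBlocks_conjTranspose]

theorem Hm_transpose : Hmᵀ = Hm := by
  simp [Hm, fromBlocks_transpose]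

theorem Hm_mul_Jm : Hm * Jm = - (Jm * Hm) := by
  simp [Hm, Jm, Matrix.J, fromBlocks_multiply, fromBlocks_neg]

theorem tau_mem {X : Mat} (hX : X ∈ g0) : Hm * X * Hm ∈ g0 := by
  obtain ⟨h1, h2⟩ := hX
  refine ⟨?_, ?_⟩
  · rw [mem_g_iff] at h1 ⊢
    rw [transpose_mul, transpose_mul, Hm_transpose]
    calc Hm * (Xᵀ * Hm) * Jm = Hm * (Xᵀ * (Hm * Jm)) := by simp only [Matrix.mul_assoc]
      _ = - (Hm * ((Xᵀ * Jm) * Hm)) := by rw [Hm_mul_Jm]; simp [Matrix.mul_assoc]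
      _ = (Hm * Jm) * (X * Hm) := by rw [h1]; simp [Matrix.mul_assoc]
      _ = Jm * (-(Hm * X * Hm)) := by rw [Hm_mul_Jm]; simp [Matrix.mul_assoc]
  · rw [conjTranspose_mul, conjTranspose_mul, Hm_conjTranspose]
    have h3 : Xᴴ * Hm = - (Hm * X) := eq_neg_of_add_eq_zero_left h2
    calc Hm * (Xᴴ * Hm) * Hm + Hm * (Hm * X * Hm)
        = Hm * ((Xᴴ * Hm + Hm * X) * Hm) := by
          rw [Matrix.add_mul, Matrix.mul_add]; simp only [Matrix.mul_assoc]
      _ = 0 := by rw [h2]; simp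

/-- the Cartan involution of `𝔤₀` -/
def tauHm : g0 ≃ₗ⁅ℝ⁆ g0 where
  toFun X := ⟨Hm * X * Hm, tau_mem X.2⟩
  invFun X := ⟨Hm * X * Hm, tau_mem X.2⟩
  map_add' X Y := by
    apply Subtype.ext
    show Hm * ((X : Mat) + Y) * Hm = Hm * X * Hm + Hm * Y * Hm
    rw [Matrix.mul_add, Matrix.add_mul]
  map_smul' c X := by
    apply Subtype.ext
    show Hm * (c • (X : Mat)) * Hm = c • (Hm * X * Hm)
    rw [Matrix.mul_smul, Matrix.smul_mul]
  map_lie' {X Y} := by
    apply Subtype.ext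
    show Hm * (⁅(X : Mat), (Y : Mat)⁆) * Hm = ⁅Hm * (X : Mat) * Hm, Hm * (Y : Mat) * Hm⁆
    rw [Ring.lie_def, Ring.lie_def]
    have e : ∀ A B : Mat, Hm * A * Hm * (Hm * B * Hm) = Hm * (A * B) * Hm := by
      intro A B
      calc Hm * A * Hm * (Hm * B * Hm) = Hm * A * (Hm * Hm) * B * Hm := by
            simp only [Matrix.mul_assoc]
        _ = Hm * (A * B) * Hm := by rw [Hm_mul_Hm]; simp [Matrix.mul_assoc]
    rw [e, e, Matrix.mul_sub, Matrix.sub_mul]
  left_inv X := by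
    apply Subtype.ext
    show Hm * (Hm * (X : Mat) * Hm) * Hm = X
    calc Hm * (Hm * (X : Mat) * Hm) * Hm = (Hm * Hm) * X * (Hm * Hm) := by
          simp only [Matrix.mul_assoc]
      _ = X := by rw [Hm_mul_Hm]; simp
  right_inv X := by
    apply Subtype.ext
    show Hm * (Hm * (X : Mat) * Hm) * Hm = X
    calc Hm * (Hm * (X : Mat) * Hm) * Hm = (Hm * Hm) * X * (Hm * Hm) := by
          simp only [Matrix.mul_assoc]
      _ = X := by rw [Hm_mul_Hm]; simp

theorem tauHm_tauHm (X : g0) : tauHm (tauHm X) = X := tauHm.left_inv X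

/-- a matrix commutes with `Hm` iff it is block diagonal -/
theorem Hm_conj_eq_iff (X : Mat) : Hm * X * Hm = X ↔
    ∀ i j, X (.inl i) (.inr j) = 0 ∧ X (.inr i) (.inl j) = 0 := by
  constructor
  · intro h i j
    have h1 := congrFun (congrFun h (.inl i)) (.inr j)
    have h2 := congrFun (congrFun h (.inr i)) (.inl j)
    rw [← fromBlocks_toBlocks X] at h1 h2
    simp [Hm, fromBlocks_multiply] at h1 h2
    refine ⟨?_, ?_⟩
    · simp only [toBlocks₁₂, of_apply] at h1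
      linear_combination (-1/2 : ℂ) * h1
    · simp only [toBlocks₂₁, of_apply] at h2
      linear_combination (-1/2 : ℂ) * h2
  · intro h
    have h1 : X.toBlocks₁₂ = 0 := by ext i j; exact (h i j).1
    have h2 : X.toBlocks₂₁ = 0 := by ext i j; exact (h i j).2
    rw [← fromBlocks_toBlocks X, h1, h2]
    simp [Hm, fromBlocks_multiply]

theorem tauHm_eq_iff (X : g0) : tauHm X = X ↔
    ∀ i j, (X : Mat) (.inl i) (.inr j) = 0 ∧ (X : Mat) (.inr i) (.inl j) = 0 := by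
  rw [← Hm_conj_eq_iff]
  exact Subtype.ext_iff

/-- for `X ∈ 𝔤₀`, the two off-diagonal blocks are adjoint of each other -/
theorem g0_offdiag (X : g0) (i j : Fin 2) :
    (X : Mat) (.inl i) (.inr j) = star ((X : Mat) (.inr j) (.inl i)) := by
  have h := X.2.2
  have h1 := congrFun (congrFun h (.inl i)) (.inr j)
  rw [Matrix.add_apply, Matrix.mul_apply, Matrix.mul_apply, Fintype.sum_sum_type,
    Fintype.sum_sum_type] at h1
  simp [Hm, Matrix.one_apply] at h1
  rw [Complex.star_def]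
  linear_combination h1

theorem qt_iff (X : g0) : (⟨(X : Mat), X.2.1⟩ : 𝔤) ∈ qt ↔
    ∀ i j, (X : Mat) (.inl i) (.inr j) = 0 ∧ (X : Mat) (.inr i) (.inl j) = 0 := by
  constructor
  · intro h i j
    have h1 : ∀ i j, (X : Mat) (.inr i) (.inl j) = 0 := fun i j => h (.inr i) (.inl j) (by
      fin_cases i <;> fin_cases j <;> simp)
    exact ⟨by rw [g0_offdiag, h1, star_zero], h1 i j⟩
  · intro h i j hij
    rcases i with i | i <;> rcases j with j | j
    · exfalso; fin_cases i <;> fin_cases j <;> simp at hij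
    · exact (h i j).1
    · exact (h i j).2
    · exfalso; fin_cases i <;> fin_cases j <;> simp at hij

theorem qt_symmetric : SymmetricType qt :=
  ⟨tauHm, tauHm_tauHm, fun X => by rw [tauHm_eq_iff, qt_iff]⟩

/-- `exp (t • X)` for real `t` is `exp` of the complex multiple -/
theorem real_smul_eq (t : ℝ) (X : Mat) : t • X = (t : ℂ) • X := by ext i j; simp

theorem exp_semiconj (P : Matˣ) {A B : Mat} (h : A * P = P * B) :
    NormedSpace.exp A * (P : Mat) = P * NormedSpace.exp B := by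
  have h1 : A = P * B * ((P⁻¹ : Matˣ) : Mat) := by
    rw [← h, Matrix.mul_assoc]; simp
  rw [h1, Matrix.exp_units_conj]
  simp [Matrix.mul_assoc]

/-- `Hm` as a unit -/
def HmU : Matˣ := ⟨Hm, Hm, Hm_mul_Hm, Hm_mul_Hm⟩

/-- `Jm` as a unit -/
def JmU : Matˣ := ⟨Jm, -Jm, by simp [Jm, Matrix.J_squared], by simp [Jm, Matrix.J_squared]⟩

/-- `exp X` as a unit -/
noncomputable def expU (X : Mat) : Matˣ := ⟨NormedSpace.exp X, NormedSpace.exp (-X),
  by rw [← Matrix.exp_add_of_commute _ _ (Commute.neg_right (Commute.refl X))]; simp,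
  by rw [← Matrix.exp_add_of_commute _ _ (Commute.neg_left (Commute.refl X))]; simp⟩

theorem expU_mem {X : Mat} (hX : X ∈ g0) : expU X ∈ G := by
  obtain ⟨h1, h2⟩ := hX
  rw [mem_g_iff] at h1
  have h3 : Xᴴ * Hm = Hm * (-X) := by
    rw [Matrix.mul_neg]; exact eq_neg_of_add_eq_zero_left h2
  have e1 := exp_semiconj JmU (A := Xᵀ) (B := -X) h1
  have e2 := exp_semiconj HmU (A := Xᴴ) (B := -X) h3
  have hu : NormedSpace.exp (-X) * NormedSpace.exp X = 1 := (expU X).inv_mul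
  refine ⟨?_, ?_⟩
  · show (NormedSpace.exp X)ᵀ * Jm * NormedSpace.exp X = Jm
    rw [← Matrix.exp_transpose]
    have e1' : NormedSpace.exp Xᵀ * Jm = Jm * NormedSpace.exp (-X) := e1
    rw [e1', Matrix.mul_assoc, hu, Matrix.mul_one]
  · show (NormedSpace.exp X)ᴴ * Hm * NormedSpace.exp X = Hm
    rw [← Matrix.exp_conjTranspose]
    have e2' : NormedSpace.exp Xᴴ * Hm = Hm * NormedSpace.exp (-X) := e2
    rw [e2', Matrix.mul_assoc, hu, Matrix.mul_one]

open scoped Matrix.Norms.Operator in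
theorem eq_of_exp_eq {A B : Mat} (h : ∀ t : ℝ, NormedSpace.exp (t • A) = NormedSpace.exp (t • B)) :
    A = B := by
  have h1 := hasDerivAt_exp_smul_const (𝕂 := ℝ) A (0 : ℝ)
  have h2 := hasDerivAt_exp_smul_const (𝕂 := ℝ) B (0 : ℝ)
  rw [zero_smul, NormedSpace.exp_zero, one_mul] at h1 h2
  have h3 : (fun t : ℝ => NormedSpace.exp (t • A)) = fun t : ℝ => NormedSpace.exp (t • B) :=
    funext h
  refine (HasDerivAt.unique (f := fun t : ℝ => NormedSpace.exp (t • A)) h1 ?_)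
  rw [h3]
  exact h2

/-- `X ∈ 𝔤₀` commutes with `Hm` iff it is skew-Hermitian -/
theorem tauHm_eq_iff_skew (X : g0) : tauHm X = X ↔ (X : Mat)ᴴ = -(X : Mat) := by
  have h2 := X.2.2
  have h3 : (X : Mat)ᴴ * Hm = - (Hm * X) := eq_neg_of_add_eq_zero_left h2
  have h4 : (X : Mat)ᴴ = - (Hm * X * Hm) := by
    calc (X : Mat)ᴴ = ((X : Mat)ᴴ * Hm) * Hm := by rw [Matrix.mul_assoc, Hm_mul_Hm, Matrix.mul_one]
      _ = _ := by rw [h3, Matrix.neg_mul]
  rw [Subtype.ext_iff]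
  show Hm * (X : Mat) * Hm = X ↔ _
  rw [h4]
  constructor
  · intro h; rw [h]
  · intro h; exact neg_injective h

/-- `(𝔤₀, Lie K)` is a symmetric pair -/
theorem symmetric_pair_K : ∃ τ : g0 ≃ₗ⁅ℝ⁆ g0, (∀ X, τ (τ X) = X) ∧
    ∀ X : g0, τ X = X ↔ ∀ t : ℝ, ∃ k ∈ K, (k : Mat) = NormedSpace.exp (t • (X : Mat)) := by
  refine ⟨tauHm, tauHm_tauHm, fun X => ?_⟩
  rw [tauHm_eq_iff_skew]
  constructor
  · intro h t
    refine ⟨expU (t • (X : Mat)), ⟨expU_mem (g0.smul_mem t X.2), ?_⟩, rfl⟩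
    show (NormedSpace.exp (t • (X : Mat)))ᴴ * NormedSpace.exp (t • (X : Mat)) = 1
    rw [← Matrix.exp_conjTranspose]
    have h5 : (t • (X : Mat))ᴴ = - (t • (X : Mat)) := by
      rw [real_smul_eq, conjTranspose_smul, h]; simp
    rw [h5]
    exact (expU (t • (X : Mat))).inv_mul
  · intro h
    apply eq_of_exp_eq
    intro t
    obtain ⟨k, hk, hk'⟩ := h t
    have h5 : (k : Mat)ᴴ * k = 1 := hk.2
    have h6 : (t • (X : Mat)ᴴ) = (t • (X : Mat))ᴴ := by
      rw [real_smul_eq, real_smul_eq, conjTranspose_smul]; simp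
    have h7 : (k : Mat) * NormedSpace.exp (-(t • (X : Mat))) = 1 := by
      rw [hk']; exact (expU (t • (X : Mat))).mul_inv
    rw [h6, Matrix.exp_conjTranspose, ← hk', smul_neg]
    calc (k : Mat)ᴴ = (k : Mat)ᴴ * ((k : Mat) * NormedSpace.exp (-(t • (X : Mat)))) := by
          rw [h7, Matrix.mul_one]
      _ = _ := by rw [← Matrix.mul_assoc, h5, Matrix.one_mul]

/-- the Cayley matrix -/
noncomputable def Cm : Mat :=
  fromBlocks ((((√2)⁻¹ : ℝ) : ℂ) • 1) ((((√2)⁻¹ : ℝ) * Complex.I : ℂ) • 1)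
    ((((√2)⁻¹ : ℝ) * Complex.I : ℂ) • 1) ((((√2)⁻¹ : ℝ) : ℂ) • 1)

theorem inv_sqrt_two_sq : (((√2)⁻¹ : ℝ) : ℂ) * (((√2)⁻¹ : ℝ) : ℂ) = 1 / 2 := by
  rw [← Complex.ofReal_mul, ← mul_inv, Real.mul_self_sqrt (by norm_num)]
  norm_num

theorem Cm_star_mul : Cmᴴ * Cm = 1 := by
  have h := inv_sqrt_two_sq
  have hI := Complex.I_mul_I
  have hs : star ((((√2)⁻¹ : ℝ) : ℂ)) = (((√2)⁻¹ : ℝ) : ℂ) := by
    rw [Complex.star_def, Complex.conj_ofReal]
  have hs2 : star ((((√2)⁻¹ : ℝ) : ℂ) * Complex.I) = -((((√2)⁻¹ : ℝ) : ℂ) * Complex.I) := by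
    rw [Complex.star_def, map_mul, Complex.conj_ofReal, Complex.conj_I]; ring
  rw [Cm, fromBlocks_conjTranspose, fromBlocks_multiply, ← fromBlocks_one, fromBlocks_inj]
  simp only [conjTranspose_smul, conjTranspose_one, hs, hs2]
  generalize (((√2)⁻¹ : ℝ) : ℂ) = s at *
  simp only [Matrix.smul_mul, Matrix.mul_smul, Matrix.one_mul, smul_smul, ← add_smul]
  refine ⟨?_, ?_, ?_, ?_⟩
  · convert one_smul ℂ (1 : Matrix (Fin 2) (Fin 2) ℂ) using 2
    linear_combination 2 * h - s * s * hI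
  · convert zero_smul ℂ (1 : Matrix (Fin 2) (Fin 2) ℂ) using 2
    ring
  · convert zero_smul ℂ (1 : Matrix (Fin 2) (Fin 2) ℂ) using 2
    ring
  · convert one_smul ℂ (1 : Matrix (Fin 2) (Fin 2) ℂ) using 2
    linear_combination 2 * h - s * s * hI

/-- the Cayley matrix as a unit -/
noncomputable def CmU : Matˣ := ⟨Cm, Cmᴴ, mul_eq_one_comm.1 Cm_star_mul, Cm_star_mul⟩

theorem Cm_Jm : Cmᵀ * Jm * Cm = Jm := by
  have h := inv_sqrt_two_sq
  have hI := Complex.I_mul_I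
  rw [Cm, fromBlocks_transpose, Jm, Matrix.J, fromBlocks_multiply, fromBlocks_multiply,
    fromBlocks_inj]
  simp only [transpose_smul, transpose_one]
  generalize (((√2)⁻¹ : ℝ) : ℂ) = s at *
  simp only [Matrix.mul_smul, Matrix.mul_one, Matrix.mul_zero,
    Matrix.mul_neg, zero_add, add_zero, ← neg_smul, smul_smul, ← add_smul]
  refine ⟨?_, ?_, ?_, ?_⟩
  · convert zero_smul ℂ (1 : Matrix (Fin 2) (Fin 2) ℂ) using 2
    ring
  · rw [← neg_one_smul ℂ (1 : Matrix (Fin 2) (Fin 2) ℂ)]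
    congr 1
    linear_combination -2 * h + s * s * hI
  · convert one_smul ℂ (1 : Matrix (Fin 2) (Fin 2) ℂ) using 2
    linear_combination 2 * h - s * s * hI
  · convert zero_smul ℂ (1 : Matrix (Fin 2) (Fin 2) ℂ) using 2
    ring

theorem Cm_Hm : Cmᴴ * Hm * Cm = (-Complex.I) • Jm := by
  have h := inv_sqrt_two_sq
  have hI := Complex.I_mul_I
  have hs : star ((((√2)⁻¹ : ℝ) : ℂ)) = (((√2)⁻¹ : ℝ) : ℂ) := by
    rw [Complex.star_def, Complex.conj_ofReal]
  have hs2 : star ((((√2)⁻¹ : ℝ) : ℂ) * Complex.I) = -((((√2)⁻¹ : ℝ) : ℂ) * Complex.I) := by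
    rw [Complex.star_def, map_mul, Complex.conj_ofReal, Complex.conj_I]; ring
  rw [Cm, fromBlocks_conjTranspose, Hm, Jm, Matrix.J, fromBlocks_multiply, fromBlocks_multiply,
    fromBlocks_smul, fromBlocks_inj]
  simp only [conjTranspose_smul, conjTranspose_one, hs, hs2]
  generalize (((√2)⁻¹ : ℝ) : ℂ) = s at *
  simp only [Matrix.mul_smul, Matrix.mul_one, Matrix.mul_zero,
    Matrix.mul_neg, smul_zero, zero_add, add_zero, smul_neg, ← neg_smul, smul_smul, ← add_smul]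
  refine ⟨?_, ?_, ?_, ?_⟩
  · convert zero_smul ℂ (1 : Matrix (Fin 2) (Fin 2) ℂ) using 2
    linear_combination s * s * hI
  · congr 1
    linear_combination 2 * Complex.I * h
  · congr 1
    linear_combination -2 * Complex.I * h
  · convert zero_smul ℂ (1 : Matrix (Fin 2) (Fin 2) ℂ) using 2
    linear_combination -s * s * hI

theorem cancel_aux {P P' Q Q' M N : Mat} (hP : P' * P = 1) (hQ : Q * Q' = 1)
    (h : P * M * Q = P * N * Q) : M = N := by
  have e : ∀ R : Mat, P' * (P * R * Q) * Q' = R := by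
    intro R
    calc P' * (P * R * Q) * Q' = (P' * P) * R * (Q * Q') := by simp only [Matrix.mul_assoc]
      _ = R := by rw [hP, hQ]; simp
  rw [← e M, h, e N]

/-- `G` is conjugate to the real symplectic group -/
theorem G_conj : ∃ C : Matˣ, ∀ g : Matˣ, g ∈ G ↔
    ∃ A ∈ Matrix.symplecticGroup (Fin 2) ℝ,
      ((C⁻¹ * g * C : Matˣ) : Mat) = A.map (fun r : ℝ => (r : ℂ)) := by
  refine ⟨CmU, fun g => ?_⟩
  set a : Matˣ := CmU⁻¹ * g * CmU with ha
  have hgC : (g : Mat) * Cm = Cm * a := by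
    have : g * CmU = CmU * a := by rw [ha]; group
    exact congrArg Units.val this
  have hCinv : Cm * ((CmU⁻¹ : Matˣ) : Mat) = 1 := CmU.mul_inv
  have hCt : ((CmU⁻¹ : Matˣ) : Mat)ᵀ * Cmᵀ = 1 := by rw [← transpose_mul, hCinv, transpose_one]
  have hCh : ((CmU⁻¹ : Matˣ) : Mat)ᴴ * Cmᴴ = 1 := by
    rw [← conjTranspose_mul, hCinv, conjTranspose_one]
  have haa : (a : Mat) * ((a⁻¹ : Matˣ) : Mat) = 1 := a.mul_inv
  -- the symplectic form
  have k1 : (g : Mat)ᵀ * Jm * g = Jm ↔ (a : Mat)ᵀ * Jm * a = Jm := by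
    have e : Cmᵀ * ((g : Mat)ᵀ * Jm * g) * Cm = (a : Mat)ᵀ * Jm * a := by
      calc Cmᵀ * ((g : Mat)ᵀ * Jm * g) * Cm = ((g : Mat) * Cm)ᵀ * Jm * ((g : Mat) * Cm) := by
            rw [transpose_mul]; simp only [Matrix.mul_assoc]
        _ = (a : Mat)ᵀ * (Cmᵀ * Jm * Cm) * a := by
            rw [hgC, transpose_mul]; simp only [Matrix.mul_assoc]
        _ = _ := by rw [Cm_Jm]
    constructor
    · intro h
      rw [← e, h, Cm_Jm]
    · intro h
      exact cancel_aux hCt hCinv (by rw [e, h, Cm_Jm])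
  -- the Hermitian form
  have k2 : (g : Mat)ᴴ * Hm * g = Hm ↔ (a : Mat)ᴴ * Jm * a = Jm := by
    have e : Cmᴴ * ((g : Mat)ᴴ * Hm * g) * Cm = (-Complex.I) • ((a : Mat)ᴴ * Jm * a) := by
      calc Cmᴴ * ((g : Mat)ᴴ * Hm * g) * Cm = ((g : Mat) * Cm)ᴴ * Hm * ((g : Mat) * Cm) := by
            rw [conjTranspose_mul]; simp only [Matrix.mul_assoc]
        _ = (a : Mat)ᴴ * (Cmᴴ * Hm * Cm) * a := by
            rw [hgC, conjTranspose_mul]; simp only [Matrix.mul_assoc]
        _ = _ := by rw [Cm_Hm, Matrix.mul_smul, Matrix.smul_mul]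
    have hI : (-Complex.I) ≠ 0 := neg_ne_zero.2 Complex.I_ne_zero
    constructor
    · intro h
      rw [h, Cm_Hm] at e
      exact ((smul_right_injective Mat hI) e).symm
    · intro h
      exact cancel_aux hCh hCinv (by rw [e, h, Cm_Hm])
  have k3 : g ∈ G ↔ (a : Mat)ᵀ * Jm * a = Jm ∧ (a : Mat)ᴴ * Jm * a = Jm := by
    rw [← k1, ← k2]; exact Iff.rfl
  rw [k3]
  have hJmap : (Matrix.J (Fin 2) ℝ).map (fun r : ℝ => (r : ℂ)) = Jm := by
    ext i j
    rcases i with i | i <;> rcases j with j | j <;>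
      simp [Jm, Matrix.J, Matrix.one_apply, apply_ite]
  have hmap : ∀ M N : Matrix Ix Ix ℝ, (M * N).map (fun r : ℝ => (r : ℂ)) =
      M.map (fun r : ℝ => (r : ℂ)) * N.map (fun r : ℝ => (r : ℂ)) := by
    intro M N
    exact Matrix.map_mul (f := Complex.ofRealHom)
  have hinj : ∀ M N : Matrix Ix Ix ℝ, M.map (fun r : ℝ => (r : ℂ)) =
      N.map (fun r : ℝ => (r : ℂ)) → M = N := by
    intro M N h
    ext i j
    exact Complex.ofReal_injective (congrFun (congrFun h i) j)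
  constructor
  · rintro ⟨h1, h2⟩
    have h3 : (a : Mat)ᵀ = (a : Mat)ᴴ := by
      have h4 : (1 : Mat) * (a : Mat)ᵀ * (Jm * a) = 1 * (a : Mat)ᴴ * (Jm * a) := by
        rw [Matrix.one_mul, Matrix.one_mul, ← Matrix.mul_assoc, ← Matrix.mul_assoc, h1, h2]
      refine cancel_aux (P' := 1) (Q' := ((a⁻¹ : Matˣ) : Mat) * (-Jm)) (by simp) ?_ h4
      calc Jm * (a : Mat) * (((a⁻¹ : Matˣ) : Mat) * (-Jm))
          = Jm * ((a : Mat) * ((a⁻¹ : Matˣ) : Mat)) * (-Jm) := by simp only [Matrix.mul_assoc]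
        _ = 1 := by rw [haa, Matrix.mul_one]; exact JmU.mul_inv
    have h5 : ∀ i j, (((a : Mat) i j).re : ℂ) = (a : Mat) i j := by
      intro i j
      have := congrFun (congrFun h3 j) i
      rw [transpose_apply, conjTranspose_apply, Complex.star_def] at this
      exact Complex.conj_eq_iff_re.1 this.symm
    have h6 : ((a : Mat).map Complex.re).map (fun r : ℝ => (r : ℂ)) = a := by
      ext i j
      exact h5 i j
    refine ⟨(a : Mat).map Complex.re, ?_, h6.symm⟩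
    rw [SymplecticGroup.mem_iff']
    apply hinj
    have h9 : (((a : Mat).map Complex.re)ᵀ).map (fun r : ℝ => (r : ℂ)) = (a : Mat)ᵀ := by
      ext i j
      exact h5 j i
    rw [hmap, hmap, hJmap, h9, h6, h1]
  · rintro ⟨A, hA, hA'⟩
    rw [SymplecticGroup.mem_iff'] at hA
    have h7 : (a : Mat)ᴴ = (a : Mat)ᵀ := by
      rw [hA']
      ext i j
      rw [conjTranspose_apply, transpose_apply, Matrix.map_apply, Complex.star_def,
        Complex.conj_ofReal]
    rw [h7]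
    have h8 : (a : Mat)ᵀ * Jm * a = Jm := by
      rw [hA', ← Matrix.transpose_map, ← hJmap, ← hmap, ← hmap, hA]
    exact ⟨h8, h8⟩

end Pool.Agent.MP_e0f57b_al
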