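import Pool.Agent.Lib.MP_e0f57b_al.FDefs

open Matrix

attribute [local instance 100] LieRing.ofAssociativeRing

namespace Pool.Agent.MP_e0f57b_al

private theorem coe_AdG (g : Matˣ) (hg : g ∈ G) (X : 𝔤) :
    (AdG g hg X : Mat) = (g : Mat) * X * ((g⁻¹ : Matˣ) : Mat) := rfl

private theorem mem_Nrm_of {S : Subgroup Matˣ} (hS : S ≤ G) {q : LieSubalgebra ℂ 𝔤}
    (h : ∀ (g : Matˣ) (hg : g ∈ S), ∀ X ∈ q, AdG g (hS hg) X ∈ q) : S ≤ Nrm q := by
  intro g hg
  refine ⟨hS hg, fun X => ⟨fun hX => ?_, h g hg X⟩⟩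
  have h1 := h g⁻¹ (S.inv_mem hg) _ hX
  rw [← AdG_mul (hS (S.inv_mem hg)) (hS hg)] at h1
  have : AdG (g⁻¹ * g) (G.mul_mem (hS (S.inv_mem hg)) (hS hg)) X = X := by
    apply Subtype.ext
    show ((g⁻¹ * g : Matˣ) : Mat) * X * (((g⁻¹ * g : Matˣ)⁻¹ : Matˣ) : Mat) = X
    simp
  rwa [this] at h1

/-- the inverse in terms of the symplectic form -/
private theorem inv_J {g : Matˣ} (hg : g ∈ G) :
    (g : Mat)ᵀ * Jm = Jm * ((g⁻¹ : Matˣ) : Mat) := by
  have h1 : (g : Mat)ᵀ * Jm * g = Jm := hg.1
  have h2 : (g : Mat) * ((g⁻¹ : Matˣ) : Mat) = 1 := by simp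
  calc (g : Mat)ᵀ * Jm = (g : Mat)ᵀ * Jm * ((g : Mat) * ((g⁻¹ : Matˣ) : Mat)) := by
        rw [h2, Matrix.mul_one]
    _ = ((g : Mat)ᵀ * Jm * g) * ((g⁻¹ : Matˣ) : Mat) := by simp only [Matrix.mul_assoc]
    _ = _ := by rw [h1]

/-- the inverse in terms of the Hermitian form -/
private theorem inv_H {g : Matˣ} (hg : g ∈ G) :
    (g : Mat)ᴴ * Hm = Hm * ((g⁻¹ : Matˣ) : Mat) := by
  have h1 : (g : Mat)ᴴ * Hm * g = Hm := hg.2
  have h2 : (g : Mat) * ((g⁻¹ : Matˣ) : Mat) = 1 := by simp
  calc (g : Mat)ᴴ * Hm = (g : Mat)ᴴ * Hm * ((g : Mat) * ((g⁻¹ : Matˣ) : Mat)) := by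
        rw [h2, Matrix.mul_one]
    _ = ((g : Mat)ᴴ * Hm * g) * ((g⁻¹ : Matˣ) : Mat) := by simp only [Matrix.mul_assoc]
    _ = _ := by rw [h1]

private theorem entJ {g : Matˣ} (hg : g ∈ G) :
    (∀ i j, ((g⁻¹ : Matˣ) : Mat) (.inl i) (.inl j) = (g : Mat) (.inr j) (.inr i)) ∧
    (∀ i j, ((g⁻¹ : Matˣ) : Mat) (.inl i) (.inr j) = -(g : Mat) (.inl j) (.inr i)) ∧
    (∀ i j, ((g⁻¹ : Matˣ) : Mat) (.inr i) (.inl j) = -(g : Mat) (.inr j) (.inl i)) ∧
    (∀ i j, ((g⁻¹ : Matˣ) : Mat) (.inr i) (.inr j) = (g : Mat) (.inl j) (.inl i)) := by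
  have h := inv_J hg
  refine ⟨fun i j => ?_, fun i j => ?_, fun i j => ?_, fun i j => ?_⟩
  · have := congrFun (congrFun h (.inr i)) (.inl j)
    simp [-Matrix.coe_units_inv, Jm, Matrix.J, Matrix.mul_apply, Fintype.sum_sum_type, Matrix.one_apply] at this
    exact this.symm
  · have := congrFun (congrFun h (.inr i)) (.inr j)
    simp [-Matrix.coe_units_inv, Jm, Matrix.J, Matrix.mul_apply, Fintype.sum_sum_type, Matrix.one_apply] at this
    exact this.symm
  · have := congrFun (congrFun h (.inl i)) (.inl j)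
    simp [-Matrix.coe_units_inv, Jm, Matrix.J, Matrix.mul_apply, Fintype.sum_sum_type, Matrix.one_apply] at this
    rw [this, neg_neg]
  · have := congrFun (congrFun h (.inl i)) (.inr j)
    simp [-Matrix.coe_units_inv, Jm, Matrix.J, Matrix.mul_apply, Fintype.sum_sum_type, Matrix.one_apply] at this
    exact this.symm

private theorem entH {g : Matˣ} (hg : g ∈ G) :
    (∀ i j, ((g⁻¹ : Matˣ) : Mat) (.inl i) (.inl j) = star ((g : Mat) (.inl j) (.inl i))) ∧
    (∀ i j, ((g⁻¹ : Matˣ) : Mat) (.inl i) (.inr j) = -star ((g : Mat) (.inr j) (.inl i))) := by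
  have h := inv_H hg
  refine ⟨fun i j => ?_, fun i j => ?_⟩
  · have := congrFun (congrFun h (.inl i)) (.inl j)
    simp [-Matrix.coe_units_inv, Hm, Matrix.mul_apply, Fintype.sum_sum_type,
      Matrix.one_apply] at this
    exact this.symm
  · have := congrFun (congrFun h (.inl i)) (.inr j)
    simp [-Matrix.coe_units_inv, Hm, Matrix.mul_apply, Fintype.sum_sum_type,
      Matrix.one_apply] at this
    exact this.symm

/-- the lower blocks are the conjugates of the upper ones -/
private theorem conjD {g : Matˣ} (hg : g ∈ G) (i j : Fin 2) :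
    (g : Mat) (.inr i) (.inr j) = star ((g : Mat) (.inl i) (.inl j)) := by
  rw [← (entJ hg).1 j i, (entH hg).1 j i]

private theorem conjB {g : Matˣ} (hg : g ∈ G) (i j : Fin 2) :
    (g : Mat) (.inl i) (.inr j) = star ((g : Mat) (.inr i) (.inl j)) := by
  have h1 := (entJ hg).2.1 j i
  rw [(entH hg).2 j i] at h1
  exact (neg_injective h1).symm

/-- `g⁻¹ g = 1` in terms of the upper blocks -/
private theorem relA {g : Matˣ} (hg : g ∈ G) (i j : Fin 2) :
    (∑ k, star ((g : Mat) (.inl k) (.inl i)) * (g : Mat) (.inl k) (.inl j)) -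
      ∑ k, (g : Mat) (.inl k) (.inr i) * star ((g : Mat) (.inl k) (.inr j)) =
      if i = j then 1 else 0 := by
  have h1 : ((g⁻¹ : Matˣ) : Mat) * (g : Mat) = 1 := by simp
  have h2 := congrFun (congrFun h1 (.inl i)) (.inl j)
  rw [Matrix.mul_apply, Fintype.sum_sum_type, Matrix.one_apply] at h2
  simp only [(entH hg).1, (entJ hg).2.1, Sum.inl.injEq] at h2
  rw [← h2, sub_eq_add_neg, ← Finset.sum_neg_distrib]
  congr 1
  refine Finset.sum_congr rfl fun k _ => ?_
  rw [conjB hg k j, star_star, neg_mul]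

private theorem relB {g : Matˣ} (hg : g ∈ G) (i j : Fin 2) :
    (∑ k, star ((g : Mat) (.inl k) (.inl i)) * (g : Mat) (.inl k) (.inr j)) -
      ∑ k, (g : Mat) (.inl k) (.inr i) * star ((g : Mat) (.inl k) (.inl j)) = 0 := by
  have h1 : ((g⁻¹ : Matˣ) : Mat) * (g : Mat) = 1 := by simp
  have h2 := congrFun (congrFun h1 (.inl i)) (.inr j)
  rw [Matrix.mul_apply, Fintype.sum_sum_type, Matrix.one_apply, if_neg (by simp)] at h2
  simp only [(entH hg).1, (entJ hg).2.1] at h2
  rw [← h2, sub_eq_add_neg, ← Finset.sum_neg_distrib]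
  congr 1
  refine Finset.sum_congr rfl fun k _ => ?_
  rw [conjD hg k j, neg_mul]

/-- a block diagonal element of `G` is in `K` -/
private theorem mem_K_of {g : Matˣ} (hg : g ∈ G)
    (h : ∀ i j, (g : Mat) (.inl i) (.inr j) = 0) : g ∈ K := by
  have h' : ∀ i j, (g : Mat) (.inr i) (.inl j) = 0 := by
    intro i j
    have := conjB hg i j
    rw [h i j] at this
    exact star_eq_zero.1 this.symm
  have hcomm : Hm * (g : Mat) = (g : Mat) * Hm := by
    ext a b
    rcases a with a | a <;> rcases b with b | b <;>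
      simp [Hm, Matrix.mul_apply, Fintype.sum_sum_type, Matrix.one_apply, h, h']
  have hH2 : Hm * Hm = 1 := by
    simp [Hm, fromBlocks_multiply]
  refine ⟨hg, ?_⟩
  have h1 : (g : Mat)ᴴ * Hm * g = Hm := hg.2
  calc (g : Mat)ᴴ * g = (g : Mat)ᴴ * (g * (Hm * Hm)) := by rw [hH2, Matrix.mul_one]
    _ = (g : Mat)ᴴ * Hm * g * Hm := by
      rw [← Matrix.mul_assoc (g : Mat), ← hcomm]; simp only [Matrix.mul_assoc]
    _ = 1 := by rw [h1, hH2]

theorem T_le_K : T ≤ K := by
  rintro g ⟨hg, hd⟩
  exact mem_K_of hg fun i j => hd _ _ (by simp)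

private theorem mem_par_iff {d : Ix → ℤ} {X : 𝔤} :
    X ∈ par d ↔ ∀ i j, d i < d j → (X : Mat) i j = 0 := Iff.rfl

theorem Nrm_bor : Nrm bor = T := by
  apply le_antisymm
  · rintro g ⟨hg, hX⟩
    have hA := conjD hg
    have hB := conjB hg
    obtain ⟨j1, j2, j3, j4⟩ := entJ hg
    have h3 : AdG g hg (xb 3) ∈ bor := by
      rw [hX, mem_par_iff]
      intro i j hij
      rcases i with i | i <;> rcases j with j | j <;> fin_cases i <;> fin_cases j <;>
        simp [hgt, xb, mk] at hij ⊢
    have h5 : AdG g hg (xb 5) ∈ bor := by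
      rw [hX, mem_par_iff]
      intro i j hij
      rcases i with i | i <;> rcases j with j | j <;> fin_cases i <;> fin_cases j <;>
        simp [hgt, xb, mk] at hij ⊢
    have h4 : AdG g hg (xb 4) ∈ bor := by
      rw [hX, mem_par_iff]
      intro i j hij
      rcases i with i | i <;> rcases j with j | j <;> fin_cases i <;> fin_cases j <;>
        simp [hgt, xb, mk] at hij ⊢
    have a10 : (g : Mat) (.inl 1) (.inl 0) = 0 := by
      have := h3 (.inl 1) (.inr 1) (by simp [hgt])
      rw [coe_AdG] at this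
      simpa [-Matrix.coe_units_inv, xb, mk, Matrix.mul_apply, Fintype.sum_sum_type, Fin.sum_univ_two, single, j4] using this
    have b00 : (g : Mat) (.inr 0) (.inl 0) = 0 := by
      have := h3 (.inr 0) (.inl 0) (by simp [hgt])
      rw [coe_AdG] at this
      simpa [-Matrix.coe_units_inv, xb, mk, Matrix.mul_apply, Fintype.sum_sum_type, Fin.sum_univ_two, single, j3] using this
    have b11 : (g : Mat) (.inl 1) (.inr 1) = 0 := by
      have := h5 (.inl 1) (.inr 1) (by simp [hgt])
      rw [coe_AdG] at this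
      simpa [-Matrix.coe_units_inv, xb, mk, Matrix.mul_apply, Fintype.sum_sum_type, Fin.sum_univ_two, single, j2] using this
    have a01 : (g : Mat) (.inr 0) (.inr 1) = 0 := by
      have := h5 (.inr 0) (.inl 0) (by simp [hgt])
      rw [coe_AdG] at this
      simpa [-Matrix.coe_units_inv, xb, mk, Matrix.mul_apply, Fintype.sum_sum_type, Fin.sum_univ_two, single, j1] using this
    have a01' : (g : Mat) (.inl 0) (.inl 1) = 0 := by
      have := hA 0 1
      rw [a01] at this
      exact star_eq_zero.1 this.symm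
    have a10' : (g : Mat) (.inr 1) (.inr 0) = 0 := by
      rw [hA, a10, star_zero]
    have b00' : (g : Mat) (.inl 0) (.inr 0) = 0 := by
      rw [hB, b00, star_zero]
    have b11' : (g : Mat) (.inr 1) (.inl 1) = 0 := by
      have := hB 1 1
      rw [b11] at this
      exact star_eq_zero.1 this.symm
    have hbc : (g : Mat) (.inr 1) (.inl 0) * (g : Mat) (.inr 0) (.inl 1) = 0 := by
      have := h4 (.inr 1) (.inl 0) (by simp [hgt])
      rw [coe_AdG] at this
      simpa [-Matrix.coe_units_inv, xb, mk, Matrix.mul_apply, Fintype.sum_sum_type, Fin.sum_univ_two, single, j3, b00,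
        b11'] using this
    have r00 := relA hg 0 0
    have r11 := relA hg 1 1
    have r01 := relB hg 0 1
    simp only [Fin.sum_univ_two, a10, a01', b00', b11, star_zero, mul_zero, zero_mul, add_zero,
      zero_add, if_true] at r00 r11 r01
    have hbc' : (g : Mat) (.inl 1) (.inr 0) = 0 ∧ (g : Mat) (.inl 0) (.inr 1) = 0 := by
      rcases mul_eq_zero.1 hbc with h | h
      · have h1 : (g : Mat) (.inl 1) (.inr 0) = 0 := by rw [hB, h, star_zero]
        refine ⟨h1, ?_⟩
        rw [h1] at r01 r00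
        simp only [zero_mul, sub_zero, star_zero, mul_zero] at r01 r00
        rcases mul_eq_zero.1 r01 with h2 | h2
        · rw [h2, zero_mul] at r00
          exact absurd r00 zero_ne_one
        · exact h2
      · have h1 : (g : Mat) (.inl 0) (.inr 1) = 0 := by rw [hB, h, star_zero]
        refine ⟨?_, h1⟩
        rw [h1] at r01 r11
        simp only [zero_mul, mul_zero, zero_sub, neg_eq_zero, star_zero, sub_zero] at r01 r11
        rcases mul_eq_zero.1 r01 with h2 | h2
        · exact h2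
        · rw [h2, zero_mul] at r11
          exact absurd r11 zero_ne_one
    have c1 : (g : Mat) (.inr 1) (.inl 0) = 0 := by
      have := hB 1 0
      rw [hbc'.1] at this
      exact star_eq_zero.1 this.symm
    have c2 : (g : Mat) (.inr 0) (.inl 1) = 0 := by
      have := hB 0 1
      rw [hbc'.2] at this
      exact star_eq_zero.1 this.symm
    refine ⟨hg, ?_⟩
    intro i j hij
    rcases i with i | i <;> rcases j with j | j <;> fin_cases i <;> fin_cases j <;>
      first
      | exact absurd rfl hij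
      | assumption
      | exact hbc'.1
      | exact hbc'.2
  · apply mem_Nrm_of (S := T) (fun g hg => hg.1)
    intro g hg X hX
    rw [mem_par_iff] at hX ⊢
    intro i j hij
    rw [coe_AdG, Matrix.mul_apply]
    refine Finset.sum_eq_zero fun k _ => ?_
    by_cases hkj : k = j
    · subst hkj
      rw [Matrix.mul_apply, Finset.sum_eq_single i]
      · rw [hX i k hij, mul_zero, zero_mul]
      · intro l _ hl
        rw [hg.2 i l (Ne.symm hl), zero_mul]
      · intro h
        exact absurd (Finset.mem_univ i) h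
    · rw [(T.inv_mem hg).2 k j hkj, mul_zero]

private theorem K_block {g : Matˣ} (hg : g ∈ K) (i j : Fin 2) :
    (g : Mat) (.inl i) (.inr j) = 0 ∧ (g : Mat) (.inr i) (.inl j) = 0 := by
  have h1 : (g : Mat)ᴴ * g = 1 := hg.2
  have h2 : (g : Mat) * ((g⁻¹ : Matˣ) : Mat) = 1 := by simp
  have h3 : (g : Mat)ᴴ = ((g⁻¹ : Matˣ) : Mat) := by
    calc (g : Mat)ᴴ = (g : Mat)ᴴ * ((g : Mat) * ((g⁻¹ : Matˣ) : Mat)) := by
          rw [h2, Matrix.mul_one]
      _ = ((g : Mat)ᴴ * g) * ((g⁻¹ : Matˣ) : Mat) := by rw [Matrix.mul_assoc]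
      _ = _ := by rw [h1, Matrix.one_mul]
  have h4 : ((g⁻¹ : Matˣ) : Mat) (.inl j) (.inr i) = star ((g : Mat) (.inr i) (.inl j)) := by
    rw [← h3, conjTranspose_apply]
  have h5 := (entH hg.1).2 j i
  rw [h4] at h5
  have h6 : (g : Mat) (.inr i) (.inl j) = 0 := by
    have h7 : star ((g : Mat) (.inr i) (.inl j)) = 0 := by
      have h8 : (2 : ℂ) * star ((g : Mat) (.inr i) (.inl j)) = 0 := by linear_combination h5
      rcases mul_eq_zero.1 h8 with h9 | h9
      · exact absurd h9 two_ne_zero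
      · exact h9
    exact star_eq_zero.1 h7
  refine ⟨?_, h6⟩
  rw [conjB hg.1, h6, star_zero]

theorem Nrm_qt : Nrm qt = K := by
  apply le_antisymm
  · rintro g ⟨hg, hX⟩
    obtain ⟨j1, j2, j3, j4⟩ := entJ hg
    have h3 : AdG g hg (xb 3) ∈ qt := by
      rw [hX, mem_par_iff]
      intro i j hij
      rcases i with i | i <;> rcases j with j | j <;> fin_cases i <;> fin_cases j <;>
        simp [xb, mk] at hij ⊢
    have h9 : AdG g hg (xb 9) ∈ qt := by
      rw [hX, mem_par_iff]
      intro i j hij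
      rcases i with i | i <;> rcases j with j | j <;> fin_cases i <;> fin_cases j <;>
        simp [xb, mk] at hij ⊢
    have h0 : ∀ i, (g : Mat) (.inr i) (.inl 0) = 0 := by
      intro i
      have := h3 (.inr i) (.inl i) (by fin_cases i <;> simp)
      rw [coe_AdG] at this
      simpa [-Matrix.coe_units_inv, xb, mk, Matrix.mul_apply, Fintype.sum_sum_type, Fin.sum_univ_two, single, j3] using this
    have h1 : ∀ i, (g : Mat) (.inr i) (.inl 1) = 0 := by
      intro i
      have := h9 (.inr i) (.inl i) (by fin_cases i <;> simp)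
      rw [coe_AdG] at this
      simpa [-Matrix.coe_units_inv, xb, mk, Matrix.mul_apply, Fintype.sum_sum_type, Fin.sum_univ_two, single, j3] using this
    apply mem_K_of hg
    intro i j
    rw [conjB hg]
    fin_cases j
    · exact (congrArg star (h0 i)).trans (star_zero _)
    · exact (congrArg star (h1 i)).trans (star_zero _)
  · apply mem_Nrm_of (S := K) (fun g hg => hg.1)
    intro g hg X hX
    rw [mem_par_iff] at hX ⊢
    intro i j hij
    rcases i with i | i <;> rcases j with j | j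
    · exfalso; fin_cases i <;> fin_cases j <;> simp at hij
    · exfalso; fin_cases i <;> fin_cases j <;> simp at hij
    · rw [coe_AdG, Matrix.mul_apply]
      refine Finset.sum_eq_zero fun k _ => ?_
      rcases k with k | k
      · rw [Matrix.mul_apply, Finset.sum_eq_zero, zero_mul]
        intro l _
        rcases l with l | l
        · rw [(K_block hg i l).2, zero_mul]
        · rw [hX (.inr l) (.inl k) (by fin_cases l <;> fin_cases k <;> simp), mul_zero]
      · rw [(K_block (K.inv_mem hg) k j).2, mul_zero]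
    · exfalso; fin_cases i <;> fin_cases j <;> simp at hij

end Pool.Agent.MP_e0f57b_al
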