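import Pool.Agent.Lib.MP_e0f57b_al.FDefs

/-! B1: `bor` and `qt` are `θ`-stable parabolic subalgebras. -/

open Matrix

attribute [local instance 100] LieRing.ofAssociativeRing

namespace Pool.Agent.MP_e0f57b_al

theorem b1_co_ad {x : 𝔤} {w : Fin 10 → ℝ} (hx : ∀ k, ⁅x, xb k⁆ = ((w k : ℝ) : ℂ) • xb k)
    (k : Fin 10) (X : 𝔤) : co k ⁅x, X⁆ = ((w k : ℝ) : ℂ) * co k X := by
  have h1 : ⁅x, X⁆ = ∑ l, (co l X * ((w l : ℝ) : ℂ)) • xb l := by
    conv_lhs => rw [← sum_co X]
    rw [lie_sum]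
    refine Finset.sum_congr rfl fun l _ => ?_
    rw [lie_smul, hx, smul_smul]
  rw [h1, map_sum, Finset.sum_eq_single k]
  · rw [map_smul, co_xb, if_pos rfl, smul_eq_mul, mul_one, mul_comm]
  · intro l _ hl
    rw [map_smul, co_xb, if_neg (Ne.symm hl), smul_zero]
  · intro h; exact absurd (Finset.mem_univ k) h

theorem b1_key {q : LieSubalgebra ℂ 𝔤} {x : 𝔤} (hxk : x ∈ kk) (hxh : (x : Mat)ᴴ = x)
    {w : Fin 10 → ℝ} (hx : ∀ k, ⁅x, xb k⁆ = ((w k : ℝ) : ℂ) • xb k)
    (hq : ∀ X : 𝔤, X ∈ q ↔ ∀ k, w k < 0 → co k X = 0) : IsThetaStableParabolic q := by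
  refine ⟨x, hxk, hxh, fun X => ?_⟩
  rw [hq]
  constructor
  · intro h
    rw [← sum_co X]
    refine Submodule.sum_mem _ fun k _ => ?_
    rcases lt_or_ge (w k) 0 with hk | hk
    · rw [h k hk, zero_smul]; exact zero_mem _
    · refine Submodule.smul_mem _ _ ?_
      refine Submodule.mem_iSup_of_mem (w k) (Submodule.mem_iSup_of_mem hk ?_)
      rw [Module.End.mem_eigenspace_iff]
      exact hx k
  · intro h k hk
    have hle : (⨆ (a : ℝ) (_ : 0 ≤ a), Module.End.eigenspace
        (LieAlgebra.ad ℂ 𝔤 x : Module.End ℂ 𝔤) (a : ℂ)) ≤ LinearMap.ker (co k) := by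
      refine iSup_le fun a => iSup_le fun ha => ?_
      intro Y hY
      rw [Module.End.mem_eigenspace_iff] at hY
      rw [LinearMap.mem_ker]
      have h1 : ⁅x, Y⁆ = (a : ℂ) • Y := hY
      have h2 := b1_co_ad hx k Y
      rw [h1, map_smul, smul_eq_mul] at h2
      have h3 : ((a : ℂ) - ((w k : ℝ) : ℂ)) * co k Y = 0 := by
        rw [sub_mul, h2, sub_self]
      rcases mul_eq_zero.1 h3 with h4 | h4
      · exfalso
        have h5 : a - w k = 0 := by exact_mod_cast h4
        linarith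
      · exact h4
    exact hle h

theorem b1_hh_mem (i : Fin 2) : hh i ∈ kk := fun a b => ⟨by simp [hh, mk], by simp [hh, mk]⟩

theorem b1_hh_herm (i : Fin 2) : ((hh i : 𝔤) : Mat)ᴴ = hh i := by
  ext a b
  rcases a with a | a <;> rcases b with b | b <;> fin_cases i <;> fin_cases a <;> fin_cases b <;>
    simp [hh, mk, single]

theorem bor_thetaStable : IsThetaStableParabolic bor := by
  refine b1_key (x := (2 : ℂ) • hh 0 - hh 1) (w := fun k => 2 * (rt k 0 : ℝ) - (rt k 1 : ℝ))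
    (sub_mem (kk.smul_mem _ (b1_hh_mem 0)) (b1_hh_mem 1)) ?_ ?_ ?_
  · show ((2 : ℂ) • ((hh 0 : 𝔤) : Mat) - ((hh 1 : 𝔤) : Mat))ᴴ =
      (2 : ℂ) • ((hh 0 : 𝔤) : Mat) - ((hh 1 : 𝔤) : Mat)
    rw [conjTranspose_sub, conjTranspose_smul, b1_hh_herm, b1_hh_herm]
    simp
  · intro k
    rw [sub_lie, smul_lie, lie_hh_xb, lie_hh_xb, smul_smul, ← sub_smul]
    congr 1
    push_cast
    ring
  · intro X
    obtain ⟨h1, h2, h3⟩ := entries X
    constructor
    · intro hX k hk
      fin_cases k <;> norm_num [rt] at hk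
      · exact hX (.inl 1) (.inl 0) (by decide)
      · exact hX (.inr 0) (.inl 0) (by decide)
      · exact hX (.inr 0) (.inl 1) (by decide)
      · exact hX (.inl 1) (.inr 1) (by decide)
    · intro h a b hab
      have c6 : (X : Mat) (.inl 1) (.inl 0) = 0 := h 6 (by
        have r0 : rt 6 0 = -1 := rfl
        have r1 : rt 6 1 = 1 := rfl
        rw [r0, r1]; norm_num)
      have c7 : (X : Mat) (.inr 0) (.inl 0) = 0 := h 7 (by
        have r0 : rt 7 0 = -2 := rfl
        have r1 : rt 7 1 = 0 := rfl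
        rw [r0, r1]; norm_num)
      have c8 : (X : Mat) (.inr 0) (.inl 1) = 0 := h 8 (by
        have r0 : rt 8 0 = -1 := rfl
        have r1 : rt 8 1 = -1 := rfl
        rw [r0, r1]; norm_num)
      have c9 : (X : Mat) (.inl 1) (.inr 1) = 0 := h 9 (by
        have r0 : rt 9 0 = 0 := rfl
        have r1 : rt 9 1 = 2 := rfl
        rw [r0, r1]; norm_num)
      rcases a with a | a <;> rcases b with b | b <;> fin_cases a <;> fin_cases b <;>
        simp [hgt] at hab ⊢ <;> first | assumption | (rw [h1]; simp [c6]) | (rw [h3]; assumption)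

theorem qt_thetaStable : IsThetaStableParabolic qt := by
  refine b1_key (x := hh 0 + hh 1) (w := fun k => (rt k 0 : ℝ) + (rt k 1 : ℝ))
    (add_mem (b1_hh_mem 0) (b1_hh_mem 1)) ?_ ?_ ?_
  · show (((hh 0 : 𝔤) : Mat) + ((hh 1 : 𝔤) : Mat))ᴴ =
      ((hh 0 : 𝔤) : Mat) + ((hh 1 : 𝔤) : Mat)
    rw [conjTranspose_add, b1_hh_herm, b1_hh_herm]
  · intro k
    rw [add_lie, lie_hh_xb, lie_hh_xb, ← add_smul]
    congr 1
    push_cast
    ring
  · intro X
    obtain ⟨h1, h2, h3⟩ := entries X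
    constructor
    · intro hX k hk
      fin_cases k <;> norm_num [rt] at hk
      · exact hX (.inr 1) (.inl 1) (by decide)
      · exact hX (.inr 0) (.inl 0) (by decide)
      · exact hX (.inr 0) (.inl 1) (by decide)
    · intro h a b hab
      have c5 : (X : Mat) (.inr 1) (.inl 1) = 0 := h 5 (by
        have r0 : rt 5 0 = 0 := rfl
        have r1 : rt 5 1 = -2 := rfl
        rw [r0, r1]; norm_num)
      have c7 : (X : Mat) (.inr 0) (.inl 0) = 0 := h 7 (by
        have r0 : rt 7 0 = -2 := rfl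
        have r1 : rt 7 1 = 0 := rfl
        rw [r0, r1]; norm_num)
      have c8 : (X : Mat) (.inr 0) (.inl 1) = 0 := h 8 (by
        have r0 : rt 8 0 = -1 := rfl
        have r1 : rt 8 1 = -1 := rfl
        rw [r0, r1]; norm_num)
      rcases a with a | a <;> rcases b with b | b <;> fin_cases a <;> fin_cases b <;>
        simp at hab ⊢ <;> first | assumption | (rw [h3]; assumption)

end Pool.Agent.MP_e0f57b_al
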