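import Mathlib

open Matrix

attribute [local instance 100] LieRing.ofAssociativeRing

namespace Pool.Agent.MP_e0f57b_al

theorem uea_mem {L : Type*} [LieRing L] [LieAlgebra ℂ L]
    (B : Subalgebra ℂ (UniversalEnvelopingAlgebra ℂ L))
    (h : ∀ x, UniversalEnvelopingAlgebra.ι ℂ x ∈ B) (u : UniversalEnvelopingAlgebra ℂ L) :
    u ∈ B := by
  let f : L →ₗ⁅ℂ⁆ B :=
    { toFun := fun x => ⟨UniversalEnvelopingAlgebra.ι ℂ x, h x⟩
      map_add' := fun x y => by apply Subtype.ext; simp
      map_smul' := fun c x => by apply Subtype.ext; simp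
      map_lie' := fun {x y} => by
        apply Subtype.ext
        show UniversalEnvelopingAlgebra.ι ℂ ⁅x, y⁆ = _
        rw [LieHom.map_lie]; rfl }
  have key : (B.val.comp (UniversalEnvelopingAlgebra.lift ℂ f)) = AlgHom.id ℂ _ := by
    apply UniversalEnvelopingAlgebra.hom_ext
    ext x
    simp [f]
  have := congrArg (fun g => g u) key
  simp only [AlgHom.comp_apply, AlgHom.id_apply] at this
  rw [← this]
  exact (UniversalEnvelopingAlgebra.lift ℂ f u).2

end Pool.Agent.MP_e0f57b_al
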