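import Pool.Agent.Lib.MP_e0f57b_al.FDefs
import Pool.Agent.Lib.MP_e0f57b_al.UEA

/-! The `(𝔤, T)`-modules `I W` are injective objects. -/

open Matrix

attribute [local instance 100] LieRing.ofAssociativeRing

namespace Pool.Agent.MP_e0f57b_al

section Indep

variable (N : Type*) [AddCommGroup N] [Module ℂ N] [LieRingModule 𝔤 N] [LieModule ℂ 𝔤 N]

/-- the weight spaces are independent -/
theorem iSupIndep_wt : iSupIndep (wt N) := by
  let A : Module.End ℂ N := LieModule.toEnd ℂ 𝔤 N (hh 0 + Complex.I • hh 1)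
  have hinj : Function.Injective
      (fun μ : Fin 2 → ℤ => ((μ 0 : ℤ) : ℂ) + Complex.I * ((μ 1 : ℤ) : ℂ)) := by
    intro μ ν h
    have h' : ((μ 0 : ℤ) : ℂ) + Complex.I * ((μ 1 : ℤ) : ℂ) =
      ((ν 0 : ℤ) : ℂ) + Complex.I * ((ν 1 : ℤ) : ℂ) := h
    have hre := congrArg Complex.re h'
    have him := congrArg Complex.im h'
    simp at hre him
    funext i
    fin_cases i
    · exact hre
    · exact him
  refine ((Module.End.eigenspaces_iSupIndep A).comp hinj).mono ?_
  intro μ n hn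
  show n ∈ Module.End.eigenspace A _
  rw [Module.End.mem_eigenspace_iff]
  show ⁅hh 0 + Complex.I • hh 1, n⁆ = _
  rw [add_lie, smul_lie, hn 0, hn 1, add_smul, mul_smul]

end Indep

section Retraction

variable {M N : Type*} [AddCommGroup M] [Module ℂ M] [LieRingModule 𝔤 M] [LieModule ℂ 𝔤 M]
  [AddCommGroup N] [Module ℂ N] [LieRingModule 𝔤 N] [LieModule ℂ 𝔤 N]

/-- a `T`-equivariant linear retraction of an injection of `(𝔤, T)`-modules -/
theorem exists_retraction (hM : IsTMod M) (hN : IsTMod N) (i : M →ₗ⁅ℂ, 𝔤⁆ N)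
    (hi : Function.Injective i) :
    ∃ r : N →ₗ[ℂ] M, (∀ m, r (i m) = m) ∧ ∀ μ, ∀ n ∈ wt N μ, r n ∈ wt M μ := by
  classical
  have hint : DirectSum.IsInternal (wt N) :=
    DirectSum.isInternal_submodule_of_iSupIndep_of_iSup_eq_top (iSupIndep_wt N) hN
  let e : (DirectSum (Fin 2 → ℤ) fun μ => wt N μ) ≃ₗ[ℂ] N :=
    LinearEquiv.ofBijective (DirectSum.coeLinearMap (wt N)) hint
  let iμ : ∀ μ, wt M μ →ₗ[ℂ] wt N μ := fun μ =>
    ((i : M →ₗ[ℂ] N).restrict fun m hm => map_mem_wt i hm)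
  have hiμ : ∀ μ, LinearMap.ker (iμ μ) = ⊥ := by
    intro μ
    rw [LinearMap.ker_eq_bot]
    intro a b hab
    apply Subtype.ext
    apply hi
    have := congrArg Subtype.val hab
    exact this
  choose s hs using fun μ => (iμ μ).exists_leftInverse_of_injective (hiμ μ)
  let r : N →ₗ[ℂ] M := (DirectSum.toModule ℂ (Fin 2 → ℤ) M
    (fun μ => (wt M μ).subtype ∘ₗ s μ)) ∘ₗ (e.symm : N →ₗ[ℂ] _)
  have hr : ∀ μ (n : wt N μ), r n = s μ n := by
    intro μ n
    have h1 : e.symm (n : N) = DirectSum.lof ℂ (Fin 2 → ℤ) (fun μ => wt N μ) μ n := by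
      rw [LinearEquiv.symm_apply_eq]
      show (n : N) = DirectSum.coeLinearMap (wt N) (DirectSum.lof ℂ (Fin 2 → ℤ) (fun μ => wt N μ) μ n)
      rw [DirectSum.coeLinearMap_lof]
    show DirectSum.toModule ℂ (Fin 2 → ℤ) M (fun μ => (wt M μ).subtype ∘ₗ s μ) (e.symm (n : N)) = _
    rw [h1, DirectSum.toModule_lof]
    rfl
  refine ⟨r, ?_, ?_⟩
  · intro m
    have hm : m ∈ ⨆ μ, wt M μ := by
      rw [show (⨆ μ, wt M μ) = ⊤ from hM]; trivial
    induction hm using Submodule.iSup_induction' with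
    | mem μ y hy =>
      have h2 := hr μ (iμ μ ⟨y, hy⟩)
      have h3 : s μ (iμ μ ⟨y, hy⟩) = ⟨y, hy⟩ := LinearMap.congr_fun (hs μ) ⟨y, hy⟩
      rw [h3] at h2
      exact h2
    | zero => rw [map_zero, map_zero]
    | add y z _ _ h1 h2 => rw [map_add, map_add, h1, h2]
  · intro μ n hn
    rw [hr μ ⟨n, hn⟩]
    exact (s μ ⟨n, hn⟩).2

end Retraction

theorem act_hom {M N : Type} [AddCommGroup M] [Module ℂ M]
    [LieRingModule 𝔤 M] [LieModule ℂ 𝔤 M] [AddCommGroup N] [Module ℂ N] [LieRingModule 𝔤 N]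
    [LieModule ℂ 𝔤 N] (f : M →ₗ⁅ℂ, 𝔤⁆ N) (u : U) (m : M) : f (act M u m) = act N u (f m) := by
  let B : Subalgebra ℂ U :=
    { carrier := {u | ∀ m, f (act M u m) = act N u (f m)}
      mul_mem' := by
        intro a b ha hb m
        rw [map_mul, map_mul, Module.End.mul_apply, Module.End.mul_apply, ha, hb]
      add_mem' := by
        intro a b ha hb m
        rw [map_add, map_add, LinearMap.add_apply, LinearMap.add_apply, map_add, ha, hb]
      algebraMap_mem' := by
        intro c m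
        rw [AlgHom.commutes, AlgHom.commutes, Module.algebraMap_end_apply,
          Module.algebraMap_end_apply, map_smul] }
  exact uea_mem B (fun x m => by
    rw [act_iU, act_iU, LieModuleHom.map_lie]) u m

theorem act_I_apply {W : Type} [AddCommGroup W] [Module ℂ W] [LieRingModule 𝔤 W]
    [LieModule ℂ 𝔤 W] (u v : U) (F : I W) :
    ((act (I W) u F : I W) : Ifull W).1 v = (F : Ifull W).1 (v * u) := by
  let B : Subalgebra ℂ U :=
    { carrier := {u | ∀ (v : U) (F : I W),
        ((act (I W) u F : I W) : Ifull W).1 v = (F : Ifull W).1 (v * u)}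
      mul_mem' := by
        intro a b ha hb v F
        rw [map_mul, Module.End.mul_apply, ha, hb, mul_assoc]
      add_mem' := by
        intro a b ha hb v F
        rw [map_add, LinearMap.add_apply, mul_add, map_add, ← ha, ← hb]
        rfl
      algebraMap_mem' := by
        intro c v F
        rw [AlgHom.commutes, Module.algebraMap_end_apply, ← Algebra.commutes, ← Algebra.smul_def,
          map_smul]
        rfl }
  exact uea_mem B (fun x v F => by
    rw [act_iU]
    rfl) u v F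

theorem I_injective {W : Type} [AddCommGroup W] [Module ℂ W] [LieRingModule 𝔤 W]
    [LieModule ℂ 𝔤 W] (hW : IsTMod W) {M N : Type} [AddCommGroup M] [Module ℂ M]
    [LieRingModule 𝔤 M] [LieModule ℂ 𝔤 M] [AddCommGroup N] [Module ℂ N] [LieRingModule 𝔤 N]
    [LieModule ℂ 𝔤 N] (hM : IsTMod M) (hN : IsTMod N) (i : M →ₗ⁅ℂ, 𝔤⁆ N)
    (hi : Function.Injective i) (φ : M →ₗ⁅ℂ, 𝔤⁆ I W) :
    ∃ ψ : N →ₗ⁅ℂ, 𝔤⁆ I W, ∀ m, ψ (i m) = φ m := by
  obtain ⟨r, hr1, hr2⟩ := exists_retraction hM hN i hi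
  -- the `T`-equivariant functional
  let φ' : N →ₗ[ℂ] W :=
    { toFun := fun n => ((φ (r n) : I W) : Ifull W).1 1
      map_add' := fun a b => by rw [map_add, map_add]; rfl
      map_smul' := fun c a => by rw [map_smul, map_smul]; rfl }
  have hφ'r : ∀ n, φ' n = ((φ (r n) : I W) : Ifull W).1 1 := fun n => rfl
  have hφ' : ∀ (k : Fin 2) (n : N), φ' ⁅hh k, n⁆ = ⁅hh k, φ' n⁆ := by
    intro k n
    have hn : n ∈ ⨆ μ, wt N μ := by
      rw [show (⨆ μ, wt N μ) = ⊤ from hN]; trivial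
    induction hn using Submodule.iSup_induction' with
    | mem μ y hy =>
      have h1 : ⁅hh k, r y⁆ = r ⁅hh k, y⁆ := by
        rw [hr2 μ y hy k, hy k, map_smul]
      rw [hφ'r, ← h1, LieModuleHom.map_lie, hφ'r]
      have h2 := ((φ (r y) : I W) : Ifull W).2 k 1
      rw [mul_one] at h2
      have h3 : ((⁅hh k, φ (r y)⁆ : I W) : Ifull W).1 1 =
        ((φ (r y) : I W) : Ifull W).1 (1 * iU (hh k)) := rfl
      rw [h3, one_mul, h2]
    | zero => rw [lie_zero, map_zero, lie_zero]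
    | add y z _ _ h1 h2 => rw [lie_add, map_add, map_add, h1, h2, lie_add]
  -- the map to the full induced module
  let Ψ : N →ₗ⁅ℂ, 𝔤⁆ Ifull W :=
    { toFun := fun n => ⟨Prd.of (φ' ∘ₗ (act N).toLinearMap.flip n), by
        intro k u
        show φ' (act N (iU (hh k) * u) n) = ⁅hh k, φ' (act N u n)⁆
        rw [map_mul, Module.End.mul_apply, act_iU, hφ']⟩
      map_add' := fun a b => by
        apply Subtype.ext; ext u
        show φ' (act N u (a + b)) = φ' (act N u a) + φ' (act N u b)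
        rw [map_add, map_add]
      map_smul' := fun c a => by
        apply Subtype.ext; ext u
        show φ' (act N u (c • a)) = c • φ' (act N u a)
        rw [map_smul, map_smul]
      map_lie' := fun {x n} => by
        apply Subtype.ext; ext u
        show φ' (act N u ⁅x, n⁆) = φ' (act N (u * iU x) n)
        rw [map_mul, Module.End.mul_apply, act_iU] }
  have hΨ : ∀ n, Ψ n ∈ Tfin (Ifull W) := by
    intro n
    apply map_mem_Tfin Ψ
    show n ∈ ⨆ μ, wt N μ
    rw [show (⨆ μ, wt N μ) = ⊤ from hN]; trivial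
  let ψ : N →ₗ⁅ℂ, 𝔤⁆ I W :=
    { toFun := fun n => ⟨Ψ n, hΨ n⟩
      map_add' := fun a b => by apply Subtype.ext; exact map_add Ψ a b
      map_smul' := fun c a => by apply Subtype.ext; exact map_smul Ψ c a
      map_lie' := fun {x n} => by apply Subtype.ext; exact LieModuleHom.map_lie Ψ x n }
  refine ⟨ψ, fun m => ?_⟩
  apply Subtype.ext
  apply Subtype.ext
  ext u
  show φ' (act N u (i m)) = ((φ m : I W) : Ifull W).1 u
  rw [← act_hom, hφ'r, hr1, act_hom, act_I_apply, one_mul]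

end Pool.Agent.MP_e0f57b_al
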