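import Pool.Agent.Lib.MP_e0f57b_al.UniAux
import Pool.Agent.Lib.MP_e0f57b_al.ExpG

/-! Multiplicities of `K`-types in a unitary completion. -/

open Matrix

attribute [local instance 100] LieRing.ofAssociativeRing

namespace Pool.Agent.MP_e0f57b_al

theorem completion_mult {A : Type*} [AddCommGroup A] [Module ℂ A] [LieRingModule 𝔤 A]
    [LieModule ℂ 𝔤 A] {H : Type*} [NormedAddCommGroup H] [InnerProductSpace ℂ H]
    (π : G →* (H ≃ₗᵢ[ℂ] H)) (Φ : A →ₗ[ℂ] H) (hc : IsCompletion π Φ)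
    {S : Type*} [AddCommGroup S] [Module ℂ S] (ρ : kk →ₗ⁅ℂ⁆ Module.End ℂ S)
    (hS : IsKType ρ) (N : ℕ) (hm : MultGe ρ A (N + 1)) :
    ∃ E : Submodule ℂ H, FiniteDimensional ℂ E ∧ E ≠ ⊥ ∧
      (∀ k : G, (k : Matˣ) ∈ K → ∀ v ∈ E, π k v ∈ E) ∧
      (∀ E' ≤ E, (∀ k : G, (k : Matˣ) ∈ K → ∀ v ∈ E', π k v ∈ E') → E' = ⊥ ∨ E' = E) ∧
      ∃ f : Fin (N + 1) → (E →ₗ[ℂ] H), LinearIndependent ℂ f ∧
        ∀ n (k : G), (k : Matˣ) ∈ K → ∀ (v : E) (hv : π k v ∈ E), f n ⟨π k v, hv⟩ = π k (f n v) :=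
  UniAux.completion_mult_of exists_exp exp_surj π Φ hc ρ hS N hm

end Pool.Agent.MP_e0f57b_al
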