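import Pool.Agent.Lib.MP_e0f57b_al.Main
import Pool.Agent.Lib.MP_e0f57b_al.InjObj
import Pool.Agent.Lib.MP_e0f57b_al.GrpPar
import Pool.Agent.Lib.MP_e0f57b_al.GrpNrm
import Pool.Agent.Lib.MP_e0f57b_al.GrpCpt
import Pool.Agent.Lib.MP_e0f57b_al.Uni

/-! Assembly: the pair `(G, K)`, the parabolic subalgebra `𝔟`, unbounded multiplicities. -/

open Matrix

attribute [local instance 100] LieRing.ofAssociativeRing

namespace Pool.Agent.MP_e0f57b_al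

/-- `(𝔤₀, 𝔨₀)` is a symmetric pair, `𝔨₀` being the Lie algebra of the closed subgroup `K`: some
involution of `𝔤₀` has the fixed point set `{X | exp (t X) ∈ K for all real t}`. -/
def SymmetricPairK : Prop :=
  ∃ τ : g0 ≃ₗ⁅ℝ⁆ g0, (∀ X, τ (τ X) = X) ∧
    ∀ X : g0, τ X = X ↔ ∀ t : ℝ, ∃ k ∈ K, (k : Mat) = NormedSpace.exp (t • (X : Mat))

/-- `G` is conjugate in `GL(4, ℂ)` to the real symplectic group `Sp(4, ℝ)`. -/
def IsRealSymplectic : Prop :=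
  ∃ C : Matˣ, ∀ g : Matˣ, g ∈ G ↔
    ∃ A ∈ Matrix.symplecticGroup (Fin 2) ℝ,
      ((C⁻¹ * g * C : Matˣ) : Mat) = A.map (fun r : ℝ => (r : ℂ))

/-- `I` is an injective `(𝔤, T)`-module. -/
def IsInjTMod (J : Type) [AddCommGroup J] [Module ℂ J] [LieRingModule 𝔤 J] [LieModule ℂ 𝔤 J] :
    Prop :=
  IsTMod J ∧ ∀ (M N : Type) [AddCommGroup M] [Module ℂ M] [LieRingModule 𝔤 M] [LieModule ℂ 𝔤 M]
    [AddCommGroup N] [Module ℂ N] [LieRingModule 𝔤 N] [LieModule ℂ 𝔤 N], IsTMod M → IsTMod N →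
    ∀ i : M →ₗ⁅ℂ, 𝔤⁆ N, Function.Injective i → ∀ φ : M →ₗ⁅ℂ, 𝔤⁆ J,
      ∃ ψ : N →ₗ⁅ℂ, 𝔤⁆ J, ∀ m, ψ (i m) = φ m

/-- the multiplicities of `K`-types in the `𝔤`-module `A` are unbounded -/
def UnbddKTypes (A : Type*) [AddCommGroup A] [Module ℂ A] [LieRingModule 𝔤 A] [LieModule ℂ 𝔤 A] :
    Prop :=
  ∀ N : ℕ, ∃ (m : ℕ) (ρ : kk →ₗ⁅ℂ⁆ Module.End ℂ (Fin (m + 1) → ℂ)), IsKType ρ ∧ MultGe ρ A N

/-- the multiplicities in the restriction to `K` of a unitary representation `π` of `G` are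
unbounded: for every `N` there is an irreducible finite-dimensional `K`-subrepresentation `E ≠ 0`
of `H` with `dim Hom_K(E, H) ≥ N` -/
def UnbddRestriction {H : Type*} [NormedAddCommGroup H] [InnerProductSpace ℂ H]
    (π : G →* (H ≃ₗᵢ[ℂ] H)) : Prop :=
  ∀ N : ℕ, ∃ E : Submodule ℂ H, FiniteDimensional ℂ E ∧ E ≠ ⊥ ∧
    (∀ k : G, (k : Matˣ) ∈ K → ∀ v ∈ E, π k v ∈ E) ∧
    (∀ E' ≤ E, (∀ k : G, (k : Matˣ) ∈ K → ∀ v ∈ E', π k v ∈ E') → E' = ⊥ ∨ E' = E) ∧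
    ∃ f : Fin N → (E →ₗ[ℂ] H), LinearIndependent ℂ f ∧
      ∀ n (k : G), (k : Matˣ) ∈ K → ∀ (v : E) (hv : π k v ∈ E), f n ⟨π k v, hv⟩ = π k (f n v)

theorem MultGe.mono {M : Type*} [AddCommGroup M] [Module ℂ M] {ρ : kk →ₗ⁅ℂ⁆ Module.End ℂ M}
    {A : Type*} [AddCommGroup A] [Module ℂ A] [LieRingModule 𝔤 A] [LieModule ℂ 𝔤 A] {N : ℕ}
    (h : MultGe ρ A (N + 1)) : MultGe ρ A N := by
  obtain ⟨f, hf, hf2⟩ := h
  exact ⟨fun n => f n.castSucc, hf.comp _ (Fin.castSucc_injective N), fun n => hf2 n.castSucc⟩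

theorem unbdd_of {A : Type*} [AddCommGroup A] [Module ℂ A] [LieRingModule 𝔤 A]
    [LieModule ℂ 𝔤 A] (h : ∀ k : ℕ, ∃ (m : ℕ) (ρ : kk →ₗ⁅ℂ⁆ Module.End ℂ (Fin (m + 1) → ℂ)),
      IsKType ρ ∧ MultGe ρ A (k + 1)) : UnbddKTypes A := fun N =>
  (h N).imp fun _ h => h.imp fun _ h => ⟨h.1, h.2.mono⟩

theorem unbdd_Ab (lam : Fin 2 → ℤ) (hg : GoodRange lam) : UnbddKTypes (Ab lam) := by
  exact unbdd_of (Ab_mult lam hg)

theorem virtuallySymmetric_bor : VirtuallySymmetricType bor := by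
  refine ⟨qt, qt_thetaStable, qt_symmetric, ?_, ?_⟩
  · rw [Nrm_bor, Nrm_qt]; exact T_le_K
  · rw [Nrm_qt]
    have := compact_K
    infer_instance

theorem injTMod {W : Type} [AddCommGroup W] [Module ℂ W] [LieRingModule 𝔤 W]
    [LieModule ℂ 𝔤 W] (hW : IsTMod W) : IsInjTMod (I W) :=
  ⟨isTMod_Tfin, fun _ _ _ _ _ _ _ _ _ _ hM hN i hi φ => I_injective hW hM hN i hi φ⟩

theorem unbdd_restriction {A : Type*} [AddCommGroup A] [Module ℂ A] [LieRingModule 𝔤 A]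
    [LieModule ℂ 𝔤 A] {H : Type*} [NormedAddCommGroup H] [InnerProductSpace ℂ H]
    (π : G →* (H ≃ₗᵢ[ℂ] H)) (Φ : A →ₗ[ℂ] H) (hc : IsCompletion π Φ) (hA : UnbddKTypes A) :
    UnbddRestriction π := by
  intro N
  obtain ⟨m, ρ, hρ, hm⟩ := hA (N + 1)
  obtain ⟨E, h1, h2, h3, h4, f, hf, hf2⟩ := completion_mult π Φ hc ρ hρ N hm
  exact ⟨E, h1, h2, h3, h4, fun n => f n.castSucc, hf.comp _ (Fin.castSucc_injective N),
    fun n => hf2 n.castSucc⟩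

end Pool.Agent.MP_e0f57b_al
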