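import Pool.Agent.Lib.MP_e0f57b_al.Omon

/-! Independence of the ordered monomials in the enveloping algebra of a matrix Lie algebra. -/

open Matrix

attribute [local instance 100] LieRing.ofAssociativeRing

namespace Pool.Agent.MP_e0f57b_al

section words

variable {n : ℕ}

/-- the word of an ordered monomial -/
def pbw2W (a : Fin n → ℕ) : List (Fin n) := (List.ofFn fun i => List.replicate (a i) i).flatten

theorem pbw2W_prod {A : Type*} [Monoid A] (y : Fin n → A) (a : Fin n → ℕ) :
    ((pbw2W a).map y).prod = omon y a := by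
  rw [pbw2W, omon, List.map_flatten, List.prod_flatten, List.map_map, List.map_ofFn]
  congr 1
  congr 1
  funext i
  simp [List.map_replicate, List.prod_replicate]

theorem pbw2W_count (a : Fin n → ℕ) (i : Fin n) : (pbw2W a).count i = a i := by
  rw [pbw2W, List.count_flatten, List.map_ofFn, List.sum_ofFn]
  simp only [Function.comp, List.count_replicate]
  simp

theorem pbw2_sum_count (w : List (Fin n)) : ∑ i, w.count i = w.length := by
  induction w with
  | nil => simp
  | cons j w ih =>
    simp only [List.count_cons, List.length_cons, Finset.sum_add_distrib, ih]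
    simp

theorem pbw2W_length (a : Fin n → ℕ) : (pbw2W a).length = ∑ i, a i := by
  rw [← pbw2_sum_count]
  exact Finset.sum_congr rfl fun i _ => pbw2W_count a i

end words

section deriv

variable {R : Type*} [CommRing R] [Algebra ℂ R]

theorem pbw2_deriv_pow (D : Derivation ℂ R R) (I : Ideal R) (s : ℕ) :
    ∀ x ∈ I ^ (s + 1), D x ∈ I ^ s := by
  induction s with
  | zero => intro x _; simp
  | succ s ih =>
    intro x hx
    rw [pow_succ] at hx
    refine Submodule.mul_induction_on hx ?_ ?_
    · intro y hy z hz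
      rw [D.leibniz]
      refine add_mem ?_ ?_
      · rw [smul_eq_mul]
        exact Ideal.mul_mem_right _ _ hy
      · rw [smul_eq_mul, mul_comm, pow_succ]
        exact Ideal.mul_mem_mul (ih y hy) hz
    · intro y z hy hz
      rw [map_add]
      exact add_mem hy hz

variable {n : ℕ}

theorem pbw2_prod_mem (I : Ideal R) (f : Fin n → R) (hf : ∀ j, f j ∈ I) (S : Finset (Fin n))
    (b : Fin n → ℕ) : ∏ j ∈ S, f j ^ b j ∈ I ^ (∑ j ∈ S, b j) := by
  classical
  induction S using Finset.induction_on with
  | empty => simp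
  | insert j S hj ih =>
    rw [Finset.prod_insert hj, Finset.sum_insert hj, pow_add]
    exact Ideal.mul_mem_mul (Ideal.pow_mem_pow (hf j) _) ih

theorem pbw2_deriv_prod (D : Derivation ℂ R R) (I : Ideal R) (f : Fin n → R)
    (hf : ∀ j, f j ∈ I) (i : Fin n) (hD : ∀ j, D (f j) - (if j = i then 1 else 0) ∈ I)
    (b : Fin n → ℕ) (S : Finset (Fin n)) :
    D (∏ j ∈ S, f j ^ b j) - (if i ∈ S then (b i : ℂ) • ∏ j ∈ S,
      f j ^ (Function.update b i (b i - 1) j) else 0) ∈ I ^ (∑ j ∈ S, b j) := by
  classical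
  induction S using Finset.induction_on with
  | empty => simp
  | insert j S hj ih =>
    have hP := pbw2_prod_mem I f hf S b
    have hpow : ∀ k, f j ^ k ∈ I ^ k := fun k => Ideal.pow_mem_pow (hf j) k
    rw [Finset.prod_insert hj, Finset.sum_insert hj, D.leibniz, D.leibniz_pow]
    simp only [smul_eq_mul]
    by_cases hji : j = i
    · subst hji
      rw [if_neg hj, sub_zero] at ih
      rw [if_pos (Finset.mem_insert_self _ _), Finset.prod_insert hj, Function.update_self]
      have e1 : ∏ k ∈ S, f k ^ (Function.update b j (b j - 1) k) = ∏ k ∈ S, f k ^ b k := by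
        refine Finset.prod_congr rfl fun k hk => ?_
        rw [Function.update_of_ne]
        rintro rfl
        exact hj hk
      rw [e1]
      have h2 := hD j
      rw [if_pos rfl] at h2
      set P := ∏ k ∈ S, f k ^ b k with hPdef
      have e2 : f j ^ b j * D P + P * (b j • (f j ^ (b j - 1) * D (f j))) -
          (b j : ℂ) • (f j ^ (b j - 1) * P) =
          f j ^ b j * D P + (b j : R) * (f j ^ (b j - 1) * P * (D (f j) - 1)) := by
        rw [nsmul_eq_mul, Nat.cast_smul_eq_nsmul, nsmul_eq_mul]
        ring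
      rw [e2]
      refine add_mem ?_ ?_
      · rw [pow_add]
        exact Ideal.mul_mem_mul (hpow _) ih
      · by_cases hb : b j = 0
        · rw [hb]
          simp
        · apply Ideal.mul_mem_left
          have e3 : b j + ∑ k ∈ S, b k = (b j - 1) + (∑ k ∈ S, b k) + 1 := by omega
          rw [e3, pow_succ, pow_add]
          exact Ideal.mul_mem_mul (Ideal.mul_mem_mul (hpow _) hP) h2
    · have hji' : i ≠ j := fun h => hji h.symm
      have h2 := hD j
      rw [if_neg hji, sub_zero] at h2
      have h3 : f j ^ b j * (D (∏ k ∈ S, f k ^ b k) - (if i ∈ S then (b i : ℂ) • ∏ k ∈ S,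
          f k ^ (Function.update b i (b i - 1) k) else 0)) ∈ I ^ (b j + ∑ k ∈ S, b k) := by
        rw [pow_add]
        exact Ideal.mul_mem_mul (hpow _) ih
      have h4 : (∏ k ∈ S, f k ^ b k) * (b j • (f j ^ (b j - 1) * D (f j))) ∈
          I ^ (b j + ∑ k ∈ S, b k) := by
        by_cases hb : b j = 0
        · rw [hb]
          simp
        · rw [nsmul_eq_mul]
          have e3 : b j + ∑ k ∈ S, b k = (∑ k ∈ S, b k) + ((b j - 1) + 1) := by omega
          rw [e3, pow_add, pow_add, pow_one]
          exact Ideal.mul_mem_mul hP (Ideal.mul_mem_left _ _ (Ideal.mul_mem_mul (hpow _) h2))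
      have e4 : (if i ∈ insert j S then (b i : ℂ) • ∏ k ∈ insert j S,
          f k ^ (Function.update b i (b i - 1) k) else 0) = f j ^ b j * (if i ∈ S then
            (b i : ℂ) • ∏ k ∈ S, f k ^ (Function.update b i (b i - 1) k) else 0) := by
        by_cases hi : i ∈ S
        · rw [if_pos hi, if_pos (Finset.mem_insert_of_mem hi), Finset.prod_insert hj,
            Function.update_of_ne hji, mul_smul_comm]
        · rw [if_neg hi, if_neg, mul_zero]
          rw [Finset.mem_insert]
          rintro (h | h)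
          · exact hji' h
          · exact hi h
      rw [e4]
      have e5 := add_mem h3 h4
      convert e5 using 1
      ring

theorem pbw2_words (D : Fin n → Derivation ℂ R R) (I : Ideal R) (f : Fin n → R)
    (hf : ∀ j, f j ∈ I) (hD : ∀ i j, D i (f j) - (if j = i then 1 else 0) ∈ I)
    (b : Fin n → ℕ) (w : List (Fin n)) (hw : w.length ≤ ∑ j, b j) :
    (w.map fun i => ((D i : Module.End ℂ R))).prod (∏ j, f j ^ b j) -
      (∏ j, ((b j).descFactorial (w.count j) : ℂ)) • ∏ j, f j ^ (b j - w.count j) ∈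
        I ^ (∑ j, b j + 1 - w.length) := by
  induction w with
  | nil => simp
  | cons i w ih =>
    rw [List.length_cons] at hw
    have ih' := ih (by omega)
    set F := ∏ j, f j ^ b j with hF
    set c' : ℂ := ∏ j, ((b j).descFactorial (w.count j) : ℂ) with hc'
    set G := ∏ j, f j ^ (b j - w.count j) with hG
    set T := (w.map fun i => ((D i : Module.End ℂ R))).prod F with hT
    rw [List.map_cons, List.prod_cons, Module.End.mul_apply]
    rw [← hT]
    have h1 : (∑ j, b j + 1 - w.length) = (∑ j, b j + 1 - (i :: w).length) + 1 := by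
      rw [List.length_cons]
      omega
    rw [h1] at ih'
    have h2 := pbw2_deriv_pow (D i) I _ _ ih'
    rw [map_sub, (D i).map_smul] at h2
    have h3 := pbw2_deriv_prod (D i) I f hf i (hD i) (fun j => b j - w.count j) Finset.univ
    rw [if_pos (Finset.mem_univ i), ← hG] at h3
    have h4 : ∏ j, ((b j).descFactorial ((i :: w).count j) : ℂ) =
        c' * ((b i - w.count i : ℕ) : ℂ) := by
      rw [hc', Finset.prod_eq_mul_prod_sdiff_singleton_of_mem (Finset.mem_univ i),
        Finset.prod_eq_mul_prod_sdiff_singleton_of_mem (Finset.mem_univ i)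
          (fun j => ((b j).descFactorial (w.count j) : ℂ))]
      have e1 : ∀ j ∈ Finset.univ \ {i}, ((b j).descFactorial ((i :: w).count j) : ℂ) =
          ((b j).descFactorial (w.count j) : ℂ) := by
        intro j hj
        rw [Finset.mem_sdiff, Finset.mem_singleton] at hj
        rw [List.count_cons_of_ne (fun h => hj.2 h.symm)]
      rw [Finset.prod_congr rfl e1, List.count_cons_self, Nat.descFactorial_succ]
      push_cast
      ring
    have h5 : ∏ j, f j ^ (b j - (i :: w).count j) =
        ∏ j, f j ^ (Function.update (fun j => b j - w.count j) i (b i - w.count i - 1) j) := by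
      refine Finset.prod_congr rfl fun j _ => ?_
      by_cases hj : j = i
      · subst hj
        rw [List.count_cons_self, Function.update_self, Nat.sub_sub]
      · rw [Function.update_of_ne hj, List.count_cons_of_ne (fun h => hj h.symm)]
    rw [h4, h5]
    have h6 : c' • (D i G - ((b i - w.count i : ℕ) : ℂ) • ∏ j,
        f j ^ (Function.update (fun j => b j - w.count j) i (b i - w.count i - 1) j)) ∈
        I ^ (∑ j, b j + 1 - (i :: w).length) := by
      by_cases hc : c' = 0
      · rw [hc, zero_smul]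
        exact zero_mem _
      · have h7 : ∀ j, w.count j ≤ b j := by
          intro j
          by_contra hcon
          apply hc
          rw [hc']
          refine Finset.prod_eq_zero (Finset.mem_univ j) ?_
          rw [Nat.descFactorial_of_lt (by omega)]
          simp
        have h8 : ∑ j, (b j - w.count j) = ∑ j, b j + 1 - (i :: w).length := by
          have h9 : ∑ j, (b j - w.count j) + ∑ j, w.count j = ∑ j, b j := by
            rw [← Finset.sum_add_distrib]
            exact Finset.sum_congr rfl fun j _ => Nat.sub_add_cancel (h7 j)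
          rw [pbw2_sum_count] at h9
          rw [List.length_cons]
          omega
        rw [h8] at h3
        rw [Algebra.smul_def]
        exact Ideal.mul_mem_left _ _ h3
    have h10 := add_mem h2 h6
    convert h10 using 1
    rw [smul_sub, smul_smul]
    change (D i T - _ : R) = D i T - c' • (D i) G + _
    abel

/-- evaluation -/
theorem pbw2_eval (ε : R →ₐ[ℂ] ℂ) (D : Fin n → Derivation ℂ R R) (f : Fin n → R)
    (hf : ∀ j, ε (f j) = 0) (hD : ∀ i j, ε (D i (f j)) = if j = i then 1 else 0)
    (b : Fin n → ℕ) (w : List (Fin n)) (hw : w.length ≤ ∑ j, b j) :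
    ε ((w.map fun i => ((D i : Module.End ℂ R))).prod (∏ j, f j ^ b j)) =
      if (fun j => w.count j) = b then ∏ j, ((b j).factorial : ℂ) else 0 := by
  have h1 := pbw2_words D (RingHom.ker ε) f (fun j => (RingHom.mem_ker).2 (hf j)) (by
    intro i j
    rw [RingHom.mem_ker]
    rw [map_sub]
    rw [hD]
    split_ifs <;> simp) b w hw
  have h2 : RingHom.ker ε ^ (∑ j, b j + 1 - w.length) ≤ RingHom.ker ε :=
    Ideal.pow_le_self (by omega)
  have h3 := h2 h1
  rw [RingHom.mem_ker, map_sub, map_smul, sub_eq_zero] at h3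
  rw [h3]
  split_ifs with hb
  · have h4 : ∀ j, w.count j = b j := fun j => congrFun hb j
    have h5 : ∏ j, f j ^ (b j - w.count j) = 1 := by
      refine Finset.prod_eq_one fun j _ => ?_
      rw [h4 j, Nat.sub_self, pow_zero]
    rw [h5, map_one, smul_eq_mul, mul_one]
    refine Finset.prod_congr rfl fun j _ => ?_
    rw [h4 j, Nat.descFactorial_self]
  · by_cases hle : ∀ j, w.count j ≤ b j
    · have h6 : ∃ j, w.count j ≠ b j := by
        by_contra hcon
        push Not at hcon
        exact hb (funext hcon)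
      obtain ⟨j, hj⟩ := h6
      have h7 : ε (∏ j, f j ^ (b j - w.count j)) = 0 := by
        rw [map_prod]
        refine Finset.prod_eq_zero (Finset.mem_univ j) ?_
        rw [map_pow, hf, zero_pow]
        have := hle j
        omega
      rw [h7, smul_zero]
    · push Not at hle
      obtain ⟨j, hj⟩ := hle
      rw [Finset.prod_eq_zero (Finset.mem_univ j), zero_smul]
      rw [Nat.descFactorial_of_lt hj]
      simp

end deriv

section mat

variable {ix : Type*} [Fintype ix] [DecidableEq ix]

/-- right multiplication vector field -/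
noncomputable def pbw2D (X : Matrix ix ix ℂ) :
    Derivation ℂ (MvPolynomial (ix × ix) ℂ) (MvPolynomial (ix × ix) ℂ) :=
  MvPolynomial.mkDerivation ℂ (fun p => ∑ k, MvPolynomial.C (X k p.2) * MvPolynomial.X (p.1, k))

theorem pbw2D_X (X : Matrix ix ix ℂ) (p : ix × ix) : pbw2D X (MvPolynomial.X p) =
    ∑ k, MvPolynomial.C (X k p.2) * MvPolynomial.X (p.1, k) := by
  rw [pbw2D, MvPolynomial.mkDerivation_X]

theorem pbw2D_add (X Y : Matrix ix ix ℂ) : pbw2D (X + Y) = pbw2D X + pbw2D Y := by
  apply MvPolynomial.derivation_ext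
  intro p
  rw [Derivation.add_apply]
  simp only [pbw2D_X, Matrix.add_apply, map_add, add_mul, Finset.sum_add_distrib]

theorem pbw2D_smul (c : ℂ) (X : Matrix ix ix ℂ) : pbw2D (c • X) = c • pbw2D X := by
  apply MvPolynomial.derivation_ext
  intro p
  rw [Derivation.smul_apply]
  simp only [pbw2D_X, Matrix.smul_apply, smul_eq_mul, map_mul, Finset.smul_sum,
    MvPolynomial.smul_eq_C_mul, mul_assoc]

theorem pbw2D_D (X Y : Matrix ix ix ℂ) (p : ix × ix) : pbw2D X (pbw2D Y (MvPolynomial.X p)) =
    ∑ k, MvPolynomial.C ((X * Y) k p.2) * MvPolynomial.X (p.1, k) := by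
  rw [pbw2D_X, map_sum]
  have h1 : ∀ k, pbw2D X (MvPolynomial.C (Y k p.2) * MvPolynomial.X (p.1, k)) =
      ∑ l, MvPolynomial.C (X l k * Y k p.2) * MvPolynomial.X (p.1, l) := by
    intro k
    rw [Derivation.leibniz, MvPolynomial.derivation_C, smul_zero, add_zero, smul_eq_mul, pbw2D_X,
      Finset.mul_sum]
    refine Finset.sum_congr rfl fun l _ => ?_
    rw [map_mul]
    ring
  rw [Finset.sum_congr rfl fun k _ => h1 k, Finset.sum_comm]
  refine Finset.sum_congr rfl fun l _ => ?_
  rw [Matrix.mul_apply, map_sum, Finset.sum_mul]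

theorem pbw2D_lie (X Y : Matrix ix ix ℂ) : pbw2D ⁅X, Y⁆ = ⁅pbw2D X, pbw2D Y⁆ := by
  apply MvPolynomial.derivation_ext
  intro p
  rw [Derivation.commutator_apply, pbw2D_D, pbw2D_D, pbw2D_X, ← Finset.sum_sub_distrib]
  refine Finset.sum_congr rfl fun k _ => ?_
  rw [Ring.lie_def, Matrix.sub_apply, map_sub, sub_mul]

/-- the action by vector fields as a Lie morphism -/
noncomputable def pbw2Hom (L : LieSubalgebra ℂ (Matrix ix ix ℂ)) :
    L →ₗ⁅ℂ⁆ Module.End ℂ (MvPolynomial (ix × ix) ℂ) where
  toFun X := (pbw2D (X : Matrix ix ix ℂ) : Module.End ℂ (MvPolynomial (ix × ix) ℂ))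
  map_add' X Y := by
    change (pbw2D ((X : Matrix ix ix ℂ) + (Y : Matrix ix ix ℂ)) : Module.End ℂ
      (MvPolynomial (ix × ix) ℂ)) = _
    rw [pbw2D_add]
    rfl
  map_smul' c X := by
    change (pbw2D (c • (X : Matrix ix ix ℂ)) : Module.End ℂ
      (MvPolynomial (ix × ix) ℂ)) = _
    rw [pbw2D_smul]
    rfl
  map_lie' := by
    intro X Y
    rw [LieSubalgebra.coe_bracket, pbw2D_lie]
    exact Derivation.commutator_coe_linear_map

/-- evaluation at the identity matrix -/
noncomputable def pbw2E : MvPolynomial (ix × ix) ℂ →ₐ[ℂ] ℂ :=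
  MvPolynomial.aeval (fun p => if p.1 = p.2 then 1 else 0)

theorem pbw2E_D (X : Matrix ix ix ℂ) (p : ix × ix) :
    (pbw2E (pbw2D X (MvPolynomial.X p)) : ℂ) = X p.1 p.2 := by
  rw [pbw2D_X, map_sum, Finset.sum_eq_single p.1]
  · rw [map_mul, pbw2E, MvPolynomial.aeval_X, MvPolynomial.aeval_C]
    simp
  · intro k _ hk
    rw [map_mul, pbw2E, MvPolynomial.aeval_X]
    simp only
    rw [if_neg (fun h => hk h.symm), mul_zero]
  · intro h
    exact absurd (Finset.mem_univ _) h

/-- coordinates attached to a linear form -/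
noncomputable def pbw2F (c : Matrix ix ix ℂ →ₗ[ℂ] ℂ) : MvPolynomial (ix × ix) ℂ :=
  ∑ p : ix × ix, MvPolynomial.C (c (Matrix.single p.1 p.2 1)) *
    (MvPolynomial.X p - MvPolynomial.C (if p.1 = p.2 then 1 else 0))

theorem pbw2E_F (c : Matrix ix ix ℂ →ₗ[ℂ] ℂ) : (pbw2E (pbw2F c) : ℂ) = 0 := by
  rw [pbw2F, map_sum]
  refine Finset.sum_eq_zero fun p _ => ?_
  rw [map_mul, map_sub, pbw2E, MvPolynomial.aeval_X, MvPolynomial.aeval_C, MvPolynomial.aeval_C]
  simp

theorem pbw2E_DF (c : Matrix ix ix ℂ →ₗ[ℂ] ℂ) (X : Matrix ix ix ℂ) :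
    (pbw2E (pbw2D X (pbw2F c)) : ℂ) = c X := by
  have h1 : pbw2D X (pbw2F c) = ∑ p : ix × ix, MvPolynomial.C (c (Matrix.single p.1 p.2 1)) *
      pbw2D X (MvPolynomial.X p) := by
    rw [pbw2F, map_sum]
    refine Finset.sum_congr rfl fun p _ => ?_
    rw [Derivation.leibniz, map_sub, MvPolynomial.derivation_C, MvPolynomial.derivation_C,
      smul_zero, add_zero, sub_zero, smul_eq_mul]
  rw [h1, map_sum]
  have h2 : ∀ p : ix × ix, (pbw2E (MvPolynomial.C (c (Matrix.single p.1 p.2 1)) *
      pbw2D X (MvPolynomial.X p)) : ℂ) = c (X p.1 p.2 • Matrix.single p.1 p.2 1) := by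
    intro p
    rw [map_mul, pbw2E_D, map_smul, smul_eq_mul, mul_comm]
    congr 1
    rw [pbw2E, MvPolynomial.aeval_C]
    rfl
  rw [Finset.sum_congr rfl fun p _ => h2 p, ← map_sum]
  congr 1
  rw [Fintype.sum_prod_type]
  conv_rhs => rw [Matrix.matrix_eq_sum_single X]
  refine Finset.sum_congr rfl fun i _ => Finset.sum_congr rfl fun j _ => ?_
  rw [Matrix.smul_single, smul_eq_mul, mul_one]

end mat

theorem omon_indep {ix : Type*} [Fintype ix] [DecidableEq ix]
    (L : LieSubalgebra ℂ (Matrix ix ix ℂ)) {n : ℕ} (x : Fin n → L)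
    (hx : LinearIndependent ℂ x) :
    LinearIndependent ℂ (fun a : Fin n → ℕ =>
      omon (fun i => (UniversalEnvelopingAlgebra.ι ℂ (x i) : UniversalEnvelopingAlgebra ℂ L)) a) := by
  classical
  -- dual linear forms
  have hy : LinearIndependent ℂ (fun i => ((x i : L) : Matrix ix ix ℂ)) :=
    hx.map' (L.toSubmodule.subtype) (Submodule.ker_subtype _)
  have hc : ∀ a : Fin n, ∃ c : Matrix ix ix ℂ →ₗ[ℂ] ℂ, ∀ b, c (x b : Matrix ix ix ℂ) =
      if a = b then 1 else 0 := by
    intro a
    obtain ⟨c, hc⟩ := LinearMap.exists_extend ((Module.Basis.span hy).coord a)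
    refine ⟨c, fun b => ?_⟩
    have h1 : ((x b : L) : Matrix ix ix ℂ) = (Submodule.subtype _) (Module.Basis.span hy b) := by
      rw [Submodule.subtype_apply, Module.Basis.span_apply]
    rw [h1, ← LinearMap.comp_apply, hc, Module.Basis.coord_apply, Module.Basis.repr_self,
      Finsupp.single_apply]
    simp only [eq_comm]
  choose c hc using hc
  set f : Fin n → MvPolynomial (ix × ix) ℂ := fun a => pbw2F (c a) with hfdef
  set D : Fin n → Derivation ℂ (MvPolynomial (ix × ix) ℂ) (MvPolynomial (ix × ix) ℂ) :=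
    fun b => pbw2D (x b : Matrix ix ix ℂ) with hDdef
  have hf : ∀ j, (pbw2E (f j) : ℂ) = 0 := fun j => pbw2E_F _
  have hD : ∀ i j, (pbw2E (D i (f j)) : ℂ) = if j = i then 1 else 0 := by
    intro i j
    rw [hfdef, hDdef]
    simp only
    rw [pbw2E_DF, hc]
  -- the functional
  let φ : (Fin n → ℕ) → (UniversalEnvelopingAlgebra ℂ L →ₗ[ℂ] ℂ) := fun b =>
    (pbw2E.toLinearMap ∘ₗ (LinearMap.applyₗ (∏ j, f j ^ b j))) ∘ₗ
      (UniversalEnvelopingAlgebra.lift ℂ (pbw2Hom L)).toLinearMap
  have hφ : ∀ b a : Fin n → ℕ, ∑ j, a j ≤ ∑ j, b j → φ b (omon (fun i =>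
      (UniversalEnvelopingAlgebra.ι ℂ (x i) : UniversalEnvelopingAlgebra ℂ L)) a) =
        if a = b then ∏ j, ((b j).factorial : ℂ) else 0 := by
    intro b a hab
    change pbw2E ((UniversalEnvelopingAlgebra.lift ℂ (pbw2Hom L) (omon (fun i =>
      (UniversalEnvelopingAlgebra.ι ℂ (x i) : UniversalEnvelopingAlgebra ℂ L)) a))
        (∏ j, f j ^ b j)) = _
    rw [← pbw2W_prod, map_list_prod, List.map_map]
    have h1 : (List.map ((UniversalEnvelopingAlgebra.lift ℂ (pbw2Hom L)) ∘
        fun i => (UniversalEnvelopingAlgebra.ι ℂ (x i) : UniversalEnvelopingAlgebra ℂ L))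
        (pbw2W a)) = (pbw2W a).map fun i => ((D i :
          Module.End ℂ (MvPolynomial (ix × ix) ℂ))) := by
      refine List.map_congr_left fun i _ => ?_
      rw [Function.comp_apply, UniversalEnvelopingAlgebra.lift_ι_apply]
      rfl
    rw [h1, pbw2_eval pbw2E D f hf hD b (pbw2W a) (by rw [pbw2W_length]; exact hab)]
    have h2 : (fun j => (pbw2W a).count j) = a := funext fun j => pbw2W_count a j
    rw [h2]
  rw [linearIndependent_iff']
  intro s g hg
  by_contra hcon
  push Not at hcon
  obtain ⟨a1, ha1, hga1⟩ := hcon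
  obtain ⟨a0, ha0, hmax⟩ := Finset.exists_max_image (s.filter fun a => g a ≠ 0)
    (fun a => ∑ j, a j) ⟨a1, Finset.mem_filter.2 ⟨ha1, hga1⟩⟩
  rw [Finset.mem_filter] at ha0
  have h3 := congrArg (φ a0) hg
  rw [map_sum, map_zero, Finset.sum_eq_single a0] at h3
  · rw [map_smul, hφ a0 a0 le_rfl, if_pos rfl, smul_eq_mul, mul_eq_zero] at h3
    rcases h3 with h3 | h3
    · exact ha0.2 h3
    · rw [Finset.prod_eq_zero_iff] at h3
      obtain ⟨j, _, hj⟩ := h3
      exact Nat.factorial_ne_zero _ (by exact_mod_cast hj)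
  · intro a ha haa
    rw [map_smul]
    by_cases hga : g a = 0
    · rw [hga, zero_smul]
    · rw [hφ a0 a (hmax a (Finset.mem_filter.2 ⟨ha, hga⟩)), if_neg haa, smul_zero]
  · intro h
    exact absurd ha0.1 h

end Pool.Agent.MP_e0f57b_al
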