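import Pool.Agent.Lib.MP_e0f57b_al.PBW1
import Pool.Agent.Lib.MP_e0f57b_al.PBW2

/-! Auxiliary results on ordered monomials. -/

open Matrix

attribute [local instance 100] LieRing.ofAssociativeRing

namespace Pool.Agent.MP_e0f57b_al

theorem omon_append {A : Type*} [Monoid A] {m n : ℕ} (x : Fin m → A) (y : Fin n → A)
    (a : Fin m → ℕ) (b : Fin n → ℕ) :
    omon (Fin.append x y) (Fin.append a b) = omon x a * omon y b := by
  unfold omon
  rw [← List.prod_append, ← List.ofFn_fin_append]
  congr 2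
  funext i
  refine Fin.addCases (fun i => ?_) (fun i => ?_) i <;> simp

theorem map_omon {A B : Type*} [Monoid A] [Monoid B] (f : A →* B) {n : ℕ} (x : Fin n → A)
    (a : Fin n → ℕ) : f (omon x a) = omon (fun i => f (x i)) a := by
  unfold omon
  rw [map_list_prod, List.map_ofFn]
  congr 2
  funext i
  simp

theorem omon_succ {A : Type*} [Monoid A] {n : ℕ} (x : Fin (n + 1) → A) (a : Fin (n + 1) → ℕ) :
    omon x a = x 0 ^ a 0 * omon (fun i => x i.succ) (fun i => a i.succ) := by
  unfold omon
  rw [List.ofFn_succ, List.prod_cons]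

theorem append_split {m n : ℕ} {α : Type*} (e : Fin (m + n) → α) :
    Fin.append (fun i => e (Fin.castAdd n i)) (fun i => e (Fin.natAdd m i)) = e := by
  funext i
  refine Fin.addCases (fun i => ?_) (fun i => ?_) i <;> simp

theorem pow_comm_aux {A : Type*} [Ring A] [Algebra ℂ A] (h x : A) (w : ℂ)
    (hx : h * x = x * h + w • x) (m : ℕ) : h * x ^ m = x ^ m * h + ((m : ℂ) * w) • x ^ m := by
  induction m with
  | zero => simp
  | succ m ih =>
    rw [pow_succ, ← mul_assoc, ih, add_mul, mul_assoc, hx, mul_add, ← mul_assoc]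
    rw [smul_mul_assoc, mul_smul_comm]
    push_cast
    rw [add_assoc, ← add_smul]
    congr 2
    ring

theorem omon_comm {A : Type*} [Ring A] [Algebra ℂ A] {n : ℕ} (h : A) (x : Fin n → A)
    (w : Fin n → ℂ) (hx : ∀ k, h * x k = x k * h + w k • x k) (a : Fin n → ℕ) :
    h * omon x a = omon x a * h + (∑ k, (a k : ℂ) * w k) • omon x a := by
  induction n with
  | zero => simp [omon]
  | succ n ih =>
    rw [omon_succ, ← mul_assoc, pow_comm_aux h (x 0) (w 0) (hx 0), add_mul, mul_assoc,
      ih (fun i => x i.succ) (fun i => w i.succ) (fun i => hx i.succ), mul_add, ← mul_assoc,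
      smul_mul_assoc, mul_smul_comm, add_assoc, ← add_smul, Fin.sum_univ_succ]
    congr 2
    ring

section pair

variable {A K W : Type*} [Ring A] [Algebra ℂ A] [Ring K] [Algebra ℂ K] [AddCommGroup W]
  [Module ℂ W] {m n : ℕ}

/-- `A` is free as a right `K`-module -/
theorem free_right (x : Fin m → A) (y : Fin n → A) (φ : K →ₐ[ℂ] A) (z : Fin n → K)
    (hz : ∀ i, φ (z i) = y i)
    (hi : LinearIndependent ℂ (fun e : Fin (m + n) → ℕ => omon (Fin.append x y) e))
    (hs : Submodule.span ℂ (Set.range fun e : Fin (m + n) → ℕ => omon (Fin.append x y) e) = ⊤)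
    (hK : Submodule.span ℂ (Set.range fun c : Fin n → ℕ => omon z c) = ⊤)
    (g : (Fin m → ℕ) → (K →ₗ[ℂ] W)) :
    ∃ F : A →ₗ[ℂ] W, ∀ a κ, F (omon x a * φ κ) = g a κ := by
  let B := Module.Basis.mk hi hs.ge
  let F : A →ₗ[ℂ] W := B.constr ℂ fun e => g (fun i => e (Fin.castAdd n i))
    (omon z fun i => e (Fin.natAdd m i))
  refine ⟨F, fun a κ => ?_⟩
  have key : F ∘ₗ LinearMap.mulLeft ℂ (omon x a) ∘ₗ φ.toLinearMap = g a := by
    apply LinearMap.ext_on hK
    rintro _ ⟨c, rfl⟩
    show F (omon x a * φ (omon z c)) = g a (omon z c)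
    have h1 : φ (omon z c) = omon y c := by
      have := map_omon (φ : K →* A) z c
      simpa [hz] using this
    rw [h1, ← omon_append]
    have h2 : omon (Fin.append x y) (Fin.append a c) = B (Fin.append a c) := by
      simp [B]
    rw [h2, Module.Basis.constr_basis]
    simp
  exact congrArg (fun f => f κ) key

theorem ext_right (x : Fin m → A) (y : Fin n → A) (φ : K →ₐ[ℂ] A) (z : Fin n → K)
    (hz : ∀ i, φ (z i) = y i)
    (hs : Submodule.span ℂ (Set.range fun e : Fin (m + n) → ℕ => omon (Fin.append x y) e) = ⊤)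
    {F F' : A →ₗ[ℂ] W} (h : ∀ a κ, F (omon x a * φ κ) = F' (omon x a * φ κ)) : F = F' := by
  apply LinearMap.ext_on hs
  rintro _ ⟨e, rfl⟩
  have h1 : ∀ c, φ (omon z c) = omon y c := by
    intro c
    have := map_omon (φ : K →* A) z c
    simpa [hz] using this
  have := h (fun i => e (Fin.castAdd n i)) (omon z fun i => e (Fin.natAdd m i))
  rw [h1, ← omon_append, append_split] at this
  exact this

/-- `A` is free as a left `K`-module -/
theorem free_left (x : Fin m → A) (y : Fin n → A) (φ : K →ₐ[ℂ] A) (z : Fin m → K)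
    (hz : ∀ i, φ (z i) = x i)
    (hi : LinearIndependent ℂ (fun e : Fin (m + n) → ℕ => omon (Fin.append x y) e))
    (hs : Submodule.span ℂ (Set.range fun e : Fin (m + n) → ℕ => omon (Fin.append x y) e) = ⊤)
    (hK : Submodule.span ℂ (Set.range fun c : Fin m → ℕ => omon z c) = ⊤)
    (g : (Fin n → ℕ) → (K →ₗ[ℂ] W)) :
    ∃ F : A →ₗ[ℂ] W, ∀ a κ, F (φ κ * omon y a) = g a κ := by
  let B := Module.Basis.mk hi hs.ge
  let F : A →ₗ[ℂ] W := B.constr ℂ fun e => g (fun i => e (Fin.natAdd m i))
    (omon z fun i => e (Fin.castAdd n i))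
  refine ⟨F, fun a κ => ?_⟩
  have key : F ∘ₗ LinearMap.mulRight ℂ (omon y a) ∘ₗ φ.toLinearMap = g a := by
    apply LinearMap.ext_on hK
    rintro _ ⟨c, rfl⟩
    show F (φ (omon z c) * omon y a) = g a (omon z c)
    have h1 : φ (omon z c) = omon x c := by
      have := map_omon (φ : K →* A) z c
      simpa [hz] using this
    rw [h1, ← omon_append]
    have h2 : omon (Fin.append x y) (Fin.append c a) = B (Fin.append c a) := by
      simp [B]
    rw [h2, Module.Basis.constr_basis]
    simp
  exact congrArg (fun f => f κ) key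

theorem ext_left (x : Fin m → A) (y : Fin n → A) (φ : K →ₐ[ℂ] A) (z : Fin m → K)
    (hz : ∀ i, φ (z i) = x i)
    (hs : Submodule.span ℂ (Set.range fun e : Fin (m + n) → ℕ => omon (Fin.append x y) e) = ⊤)
    {F F' : A →ₗ[ℂ] W} (h : ∀ a κ, F (φ κ * omon y a) = F' (φ κ * omon y a)) : F = F' := by
  apply LinearMap.ext_on hs
  rintro _ ⟨e, rfl⟩
  have h1 : ∀ c, φ (omon z c) = omon x c := by
    intro c
    have := map_omon (φ : K →* A) z c
    simpa [hz] using this
  have := h (fun i => e (Fin.natAdd m i)) (omon z fun i => e (Fin.castAdd n i))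
  rw [h1, ← omon_append, append_split] at this
  exact this

end pair

end Pool.Agent.MP_e0f57b_al
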