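import Pool.Agent.Lib.MP_e0f57b_al.FDefs
import Pool.Agent.Lib.MP_e0f57b_al.FreeAux

/-! `U(g)` is a free right `U(k)`-module with basis the ordered monomials of `p`. -/

open Matrix

attribute [local instance 100] LieRing.ofAssociativeRing

namespace Pool.Agent.MP_e0f57b_al

/-- the basis of `k` -/
def zk : Fin 4 → kk := ![hk 0, hk 1, ek, fk]

/-- permutation of the indices -/
def sgK : Fin (6 + 4) → Fin 10 := ![3, 4, 5, 7, 8, 9, 0, 1, 2, 6]

theorem xbK_eq : Fin.append pv (fun i => (zk i : 𝔤)) = fun i => xb (sgK i) := by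
  funext i
  refine Fin.addCases (fun i => ?_) (fun i => ?_) i
  · rw [Fin.append_left]
    fin_cases i <;> rfl
  · rw [Fin.append_right]
    fin_cases i <;> rfl

theorem xbK_indep : LinearIndependent ℂ (Fin.append pv (fun i => (zk i : 𝔤))) := by
  rw [xbK_eq]
  exact indep_xb.comp sgK (by decide)

theorem xbK_span : Submodule.span ℂ (Set.range (Fin.append pv (fun i => (zk i : 𝔤)))) = ⊤ := by
  rw [xbK_eq]
  have h : Set.range (fun i => xb (sgK i)) = Set.range xb := by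
    apply Set.Subset.antisymm
    · rintro _ ⟨i, rfl⟩; exact ⟨_, rfl⟩
    · rintro _ ⟨i, rfl⟩
      have : ∀ i : Fin 10, ∃ k, sgK k = i := by decide
      obtain ⟨k, hk⟩ := this i
      exact ⟨k, by simp [hk]⟩
  rw [h, span_xb]

theorem zk_span : Submodule.span ℂ (Set.range zk) = ⊤ := by
  rw [eq_top_iff]
  intro X _
  rw [kk_eq X]
  have h : ∀ i, zk i ∈ Submodule.span ℂ (Set.range zk) := fun i => Submodule.subset_span ⟨i, rfl⟩
  exact add_mem (add_mem (add_mem (Submodule.smul_mem _ _ (h 0)) (Submodule.smul_mem _ _ (h 1)))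
    (Submodule.smul_mem _ _ (h 2))) (Submodule.smul_mem _ _ (h 3))

theorem iU_append {m n : ℕ} (x : Fin m → 𝔤) (y : Fin n → 𝔤) :
    (fun i => (iU (Fin.append x y i) : U)) =
      Fin.append (fun i => iU (x i)) (fun i => iU (y i)) := by
  funext i
  refine Fin.addCases (fun i => ?_) (fun i => ?_) i <;> simp

theorem omK_indep : LinearIndependent ℂ (fun e : Fin (6 + 4) → ℕ =>
    omon (Fin.append (fun i => iU (pv i)) (fun i => iU (zk i : 𝔤))) e) := by
  rw [← iU_append]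
  exact omon_indep 𝔤 _ xbK_indep

theorem omK_span : Submodule.span ℂ (Set.range fun e : Fin (6 + 4) → ℕ =>
    omon (Fin.append (fun i => iU (pv i)) (fun i => iU (zk i : 𝔤))) e) = ⊤ := by
  rw [← iU_append]
  exact omon_span _ xbK_span

theorem phiK_ι (X : kk) : phiK (UniversalEnvelopingAlgebra.ι ℂ X) = iU (X : 𝔤) := by
  simp [phiK]

theorem right_free {W : Type*} [AddCommGroup W] [Module ℂ W]
    (g : (Fin 6 → ℕ) → (UniversalEnvelopingAlgebra ℂ kk →ₗ[ℂ] W)) :
    ∃ F : U →ₗ[ℂ] W, ∀ a κ, F (yb a * phiK κ) = g a κ :=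
  free_right (fun i => iU (pv i)) (fun i => iU (zk i : 𝔤)) phiK
    (fun i => UniversalEnvelopingAlgebra.ι ℂ (zk i)) (fun _ => phiK_ι _) omK_indep omK_span
    (omon_span zk zk_span) g

theorem right_ext {W : Type*} [AddCommGroup W] [Module ℂ W] {F F' : U →ₗ[ℂ] W}
    (h : ∀ a κ, F (yb a * phiK κ) = F' (yb a * phiK κ)) : F = F' :=
  ext_right (fun i => iU (pv i)) (fun i => iU (zk i : 𝔤)) phiK
    (fun i => UniversalEnvelopingAlgebra.ι ℂ (zk i)) (fun _ => phiK_ι _) omK_span h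

theorem iU_hh_xb (i : Fin 2) (k : Fin 10) :
    iU (hh i) * iU (xb k) = iU (xb k) * iU (hh i) + ((rt k i : ℤ) : ℂ) • iU (xb k) := by
  have h := congrArg (fun X => (iU X : U)) (lie_hh_xb i k)
  simp only [LieHom.map_lie, Ring.lie_def] at h
  rw [map_smul] at h
  rw [← h]
  abel

theorem pv_eq (k : Fin 6) : pv k = xb ((![3, 4, 5, 7, 8, 9] : Fin 6 → Fin 10) k) := by
  fin_cases k <;> rfl

theorem prt_eq (k : Fin 6) : prt k = rt ((![3, 4, 5, 7, 8, 9] : Fin 6 → Fin 10) k) := by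
  fin_cases k <;> rfl

theorem hh_mul_yb (i : Fin 2) (a : Fin 6 → ℕ) :
    iU (hh i) * yb a = yb a * iU (hh i) + ((∑ k, (a k : ℤ) * prt k i : ℤ) : ℂ) • yb a := by
  have h := omon_comm (iU (hh i)) (fun k => iU (pv k)) (fun k => ((prt k i : ℤ) : ℂ)) (by
    intro k
    rw [pv_eq, prt_eq]
    exact iU_hh_xb i _) a
  rw [yb, h]
  push_cast
  rfl

theorem yb_zero : yb 0 = 1 := by
  simp [yb, omon]

end Pool.Agent.MP_e0f57b_al
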