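import Pool.Agent.Lib.MP_e0f57b_al.FDefs
import Pool.Agent.Lib.MP_e0f57b_al.FreeK

/-! `U(g)` is a free left `U(b)`-module with basis the ordered monomials of the opposite
nilradical. -/

open Matrix

attribute [local instance 100] LieRing.ofAssociativeRing

namespace Pool.Agent.MP_e0f57b_al

/-- basis vectors of `𝔤` lying in the Borel subalgebra -/
def bv : Fin 6 → 𝔤 := ![xb 0, xb 1, xb 2, xb 3, xb 4, xb 5]

/-- root vectors of the opposite nilradical -/
def nv : Fin 4 → 𝔤 := ![xb 6, xb 7, xb 8, xb 9]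

theorem bv_eq (k : Fin 6) : bv k = xb (Fin.castAdd 4 k) := by
  fin_cases k <;> rfl

theorem nv_eq (k : Fin 4) : nv k = xb (Fin.natAdd 6 k) := by
  fin_cases k <;> rfl

theorem nvrt_eq (k : Fin 4) : (![rt 6, rt 7, rt 8, rt 9] : Fin 4 → Fin 2 → ℤ) k =
    rt (Fin.natAdd 6 k) := by
  fin_cases k <;> rfl

theorem bv_mem (k : Fin 6) : bv k ∈ bor := by
  intro i j h
  fin_cases k <;> rcases i with i | i <;> rcases j with j | j <;> fin_cases i <;> fin_cases j <;>
    simp [bv, xb, hh, mk, hgt, single] at h ⊢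

/-- the basis of the Borel subalgebra -/
def zb (k : Fin 6) : bor := ⟨bv k, bv_mem k⟩

theorem xbB_eq : (Fin.append bv nv : Fin (6 + 4) → 𝔤) = xb := by
  funext i
  refine Fin.addCases (fun i => ?_) (fun i => ?_) i
  · rw [Fin.append_left, bv_eq]
  · rw [Fin.append_right, nv_eq]

theorem omB_indep : LinearIndependent ℂ (fun e : Fin (6 + 4) → ℕ =>
    omon (Fin.append (fun i => iU (bv i)) (fun i => iU (nv i))) e) := by
  rw [← iU_append, xbB_eq]
  exact omon_indep 𝔤 _ indep_xb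

theorem omB_span : Submodule.span ℂ (Set.range fun e : Fin (6 + 4) → ℕ =>
    omon (Fin.append (fun i => iU (bv i)) (fun i => iU (nv i))) e) = ⊤ := by
  rw [← iU_append, xbB_eq]
  exact omon_span _ span_xb

theorem bor_eq (X : bor) : X = ∑ k : Fin 6, co (Fin.castAdd 4 k) (X : 𝔤) • zb k := by
  apply Subtype.ext
  have h := sum_co (X : 𝔤)
  have h0 : ∀ k : Fin 4, co (Fin.natAdd 6 k) (X : 𝔤) = 0 := by
    intro k
    have hX := X.2
    fin_cases k
    · exact hX (.inl 1) (.inl 0) (by simp [hgt])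
    · exact hX (.inr 0) (.inl 0) (by simp [hgt])
    · exact hX (.inr 0) (.inl 1) (by simp [hgt])
    · exact hX (.inl 1) (.inr 1) (by simp [hgt])
  have h1 : ∑ k : Fin (6 + 4), co k (X : 𝔤) • xb k = (X : 𝔤) := h
  rw [Fin.sum_univ_add] at h1
  simp only [h0, zero_smul, Finset.sum_const_zero, add_zero] at h1
  rw [AddSubmonoidClass.coe_finsetSum]
  conv_lhs => rw [← h1]
  refine Finset.sum_congr rfl fun k _ => ?_
  rw [← bv_eq]
  rfl

theorem zb_span : Submodule.span ℂ (Set.range zb) = ⊤ := by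
  rw [eq_top_iff]
  intro X _
  rw [bor_eq X]
  exact Submodule.sum_mem _ fun k _ => Submodule.smul_mem _ _ (Submodule.subset_span ⟨k, rfl⟩)

theorem phiB_ι (X : bor) : phiB (UniversalEnvelopingAlgebra.ι ℂ X) = iU (X : 𝔤) := by
  simp [phiB]

theorem nb_eq (c : Fin 4 → ℕ) : nb c = omon (fun i => (iU (nv i) : U)) c := rfl

theorem left_free {W : Type*} [AddCommGroup W] [Module ℂ W]
    (g : (Fin 4 → ℕ) → (UniversalEnvelopingAlgebra ℂ bor →ₗ[ℂ] W)) :
    ∃ F : U →ₗ[ℂ] W, ∀ c β, F (phiB β * nb c) = g c β :=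
  free_left (fun i => iU (bv i)) (fun i => iU (nv i)) phiB
    (fun i => UniversalEnvelopingAlgebra.ι ℂ (zb i)) (fun _ => phiB_ι _) omB_indep omB_span
    (omon_span zb zb_span) g

theorem left_ext {W : Type*} [AddCommGroup W] [Module ℂ W] {F F' : U →ₗ[ℂ] W}
    (h : ∀ c β, F (phiB β * nb c) = F' (phiB β * nb c)) : F = F' :=
  ext_left (fun i => iU (bv i)) (fun i => iU (nv i)) phiB
    (fun i => UniversalEnvelopingAlgebra.ι ℂ (zb i)) (fun _ => phiB_ι _) omB_span h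

theorem nb_mul_hh (i : Fin 2) (c : Fin 4 → ℕ) :
    nb c * iU (hh i) = iU (hh i) * nb c -
      ((∑ k, (c k : ℤ) * (![rt 6, rt 7, rt 8, rt 9] : Fin 4 → Fin 2 → ℤ) k i : ℤ) : ℂ) • nb c := by
  have h := omon_comm (iU (hh i)) (fun k => iU (nv k))
    (fun k => (((![rt 6, rt 7, rt 8, rt 9] : Fin 4 → Fin 2 → ℤ) k i : ℤ) : ℂ)) (by
    intro k
    rw [nvrt_eq, nv_eq]
    exact iU_hh_xb i _) c
  rw [nb_eq, h]
  push_cast
  simp

/-- the character of the Borel subalgebra as a Lie algebra homomorphism -/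
def chiLie (ν : Fin 2 → ℤ) : bor →ₗ⁅ℂ⁆ ℂ where
  toFun X := chi ν X
  map_add' X Y := by
    show chi ν ((X : 𝔤) + (Y : 𝔤)) = _
    rw [map_add]
  map_smul' c X := by
    show chi ν (c • (X : 𝔤)) = _
    rw [map_smul]; rfl
  map_lie' {X Y} := by
    have hd : ∀ i, (⁅(X : 𝔤), (Y : 𝔤)⁆ : 𝔤).1 i i = 0 := by
      intro i
      rw [LieSubalgebra.coe_bracket, Ring.lie_def, Matrix.sub_apply, Matrix.mul_apply,
        Matrix.mul_apply, ← Finset.sum_sub_distrib]
      apply Finset.sum_eq_zero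
      intro k _
      have hinj : ∀ a b : Ix, hgt a = hgt b → a = b := by
        intro a b hab
        rcases a with a | a <;> rcases b with b | b <;> fin_cases a <;> fin_cases b <;>
          simp [hgt] at hab ⊢
      rcases lt_trichotomy (hgt i) (hgt k) with h | h | h
      · rw [X.2 i k h, Y.2 i k h]; ring
      · rw [hinj i k h]; ring
      · rw [X.2 k i h, Y.2 k i h]; ring
    show chi ν ⁅(X : 𝔤), (Y : 𝔤)⁆ = ⁅chi ν (X : 𝔤), chi ν (Y : 𝔤)⁆
    rw [Ring.lie_def, mul_comm, sub_self]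
    show (ν 0 : ℂ) * (⁅(X : 𝔤), (Y : 𝔤)⁆ : 𝔤).1 (.inl 0) (.inl 0) +
      (ν 1 : ℂ) * (⁅(X : 𝔤), (Y : 𝔤)⁆ : 𝔤).1 (.inl 1) (.inl 1) = 0
    rw [hd, hd]; ring

/-- the character `ν` of `𝔟`, extended to `U(𝔟)` -/
theorem exists_chiB (ν : Fin 2 → ℤ) : ∃ f : UniversalEnvelopingAlgebra ℂ bor →ₐ[ℂ] ℂ,
    ∀ X : bor, f (UniversalEnvelopingAlgebra.ι ℂ X) = chi ν X :=
  ⟨UniversalEnvelopingAlgebra.lift ℂ (chiLie ν), fun X => by
    rw [UniversalEnvelopingAlgebra.lift_ι_apply]; rfl⟩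

end Pool.Agent.MP_e0f57b_al
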