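import Pool.Agent.Lib.MP_e0f57b_al.Mods

/-!
Group level definitions: normalisers of parabolic subalgebras, symmetric type, virtually symmetric
type, unitary completions.
-/

open Matrix

attribute [local instance 100] LieRing.ofAssociativeRing

namespace Pool.Agent.MP_e0f57b_al

/-- the adjoint action `X ↦ g X g⁻¹` of `G` on `𝔤` -/
def AdG (g : Matˣ) (hg : g ∈ G) (X : 𝔤) : 𝔤 :=
  ⟨(g : Mat) * X * ((g⁻¹ : Matˣ) : Mat), by
    have h0 := (mem_g_iff (X : Mat)).1 X.2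
    have h1 : (g : Mat)ᵀ * Jm * g = Jm := hg.1
    have h2 : (g : Mat) * ((g⁻¹ : Matˣ) : Mat) = 1 := by simp
    have h3 : ((g⁻¹ : Matˣ) : Mat) * (g : Mat) = 1 := by simp
    have h4 : (g : Mat)ᵀ * Jm = Jm * ((g⁻¹ : Matˣ) : Mat) := by
      calc (g : Mat)ᵀ * Jm = (g : Mat)ᵀ * Jm * ((g : Mat) * ((g⁻¹ : Matˣ) : Mat)) := by
            rw [h2, Matrix.mul_one]
        _ = ((g : Mat)ᵀ * Jm * g) * ((g⁻¹ : Matˣ) : Mat) := by simp only [Matrix.mul_assoc]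
        _ = _ := by rw [h1]
    have h5 : ((g⁻¹ : Matˣ) : Mat)ᵀ * Jm = Jm * (g : Mat) := by
      calc ((g⁻¹ : Matˣ) : Mat)ᵀ * Jm
          = ((g⁻¹ : Matˣ) : Mat)ᵀ * ((g : Mat)ᵀ * Jm * g) := by rw [h1]
        _ = (((g⁻¹ : Matˣ) : Mat)ᵀ * (g : Mat)ᵀ) * (Jm * g) := by simp only [Matrix.mul_assoc]
        _ = _ := by rw [← transpose_mul, h2, transpose_one, Matrix.one_mul]
    rw [mem_g_iff, transpose_mul, transpose_mul]
    calc ((g⁻¹ : Matˣ) : Mat)ᵀ * ((X : Mat)ᵀ * (g : Mat)ᵀ) * Jm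
        = ((g⁻¹ : Matˣ) : Mat)ᵀ * ((X : Mat)ᵀ * ((g : Mat)ᵀ * Jm)) := by
          simp only [Matrix.mul_assoc]
      _ = ((g⁻¹ : Matˣ) : Mat)ᵀ * (((X : Mat)ᵀ * Jm) * ((g⁻¹ : Matˣ) : Mat)) := by
          rw [h4]; simp only [Matrix.mul_assoc]
      _ = (((g⁻¹ : Matˣ) : Mat)ᵀ * Jm) * (-(X : Mat) * ((g⁻¹ : Matˣ) : Mat)) := by
          rw [h0]; simp only [Matrix.mul_assoc]
      _ = _ := by rw [h5]; simp only [Matrix.mul_assoc, Matrix.neg_mul, Matrix.mul_neg]⟩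

theorem AdG_mul {g h : Matˣ} (hg : g ∈ G) (hh' : h ∈ G) (X : 𝔤) :
    AdG (g * h) (G.mul_mem hg hh') X = AdG g hg (AdG h hh' X) := by
  apply Subtype.ext
  show ((g * h : Matˣ) : Mat) * X * (((g * h)⁻¹ : Matˣ) : Mat)
    = (g : Mat) * ((h : Mat) * X * ((h⁻¹ : Matˣ) : Mat)) * ((g⁻¹ : Matˣ) : Mat)
  rw [_root_.mul_inv_rev, Units.val_mul, Units.val_mul]
  simp only [Matrix.mul_assoc]

theorem AdG_one (X : 𝔤) : AdG 1 G.one_mem X = X := by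
  apply Subtype.ext
  show ((1 : Matˣ) : Mat) * X * (((1 : Matˣ)⁻¹ : Matˣ) : Mat) = X
  simp

/-- `N_G(𝔮)`, the normaliser in `G` of a subalgebra `𝔮` of `𝔤` -/
def Nrm (q : LieSubalgebra ℂ 𝔤) : Subgroup Matˣ where
  carrier := {g | ∃ hg : g ∈ G, ∀ X : 𝔤, AdG g hg X ∈ q ↔ X ∈ q}
  mul_mem' := by
    rintro a b ⟨ha, ha'⟩ ⟨hb, hb'⟩
    exact ⟨G.mul_mem ha hb, fun X => by rw [AdG_mul ha hb, ha', hb']⟩
  one_mem' := ⟨G.one_mem, fun X => by rw [AdG_one]⟩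
  inv_mem' := by
    rintro a ⟨ha, ha'⟩
    refine ⟨G.inv_mem ha, fun X => ?_⟩
    rw [← ha' (AdG a⁻¹ (G.inv_mem ha) X), ← AdG_mul ha (G.inv_mem ha)]
    have : AdG (a * a⁻¹) (G.mul_mem ha (G.inv_mem ha)) X = X := by
      apply Subtype.ext
      show ((a * a⁻¹ : Matˣ) : Mat) * X * (((a * a⁻¹ : Matˣ)⁻¹ : Matˣ) : Mat) = X
      simp
    rw [this]

/-- `𝔮` is a `θ`-stable parabolic subalgebra of `𝔤`: the sum of the eigenspaces of `ad x` for the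
nonnegative eigenvalues, where `x ∈ √-1 𝔨₀`, i.e. `x ∈ 𝔨` is a Hermitian matrix. -/
def IsThetaStableParabolic (q : LieSubalgebra ℂ 𝔤) : Prop :=
  ∃ x : 𝔤, x ∈ kk ∧ (x : Mat)ᴴ = x ∧
    ∀ X : 𝔤, X ∈ q ↔
      X ∈ ⨆ (a : ℝ) (_ : 0 ≤ a), Module.End.eigenspace (LieAlgebra.ad ℂ 𝔤 x : Module.End ℂ 𝔤) (a : ℂ)

/-- `𝔮` is of symmetric type: `(𝔤₀, 𝔩₀)` is a symmetric pair, where `𝔩₀ = 𝔤₀ ∩ 𝔮` is the real Levi
subalgebra of `𝔮`, i.e. `𝔩₀` is the fixed point algebra of an involution `τ` of `𝔤₀`. -/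
def SymmetricType (q : LieSubalgebra ℂ 𝔤) : Prop :=
  ∃ τ : g0 ≃ₗ⁅ℝ⁆ g0, (∀ X, τ (τ X) = X) ∧
    ∀ X : g0, τ X = X ↔ (⟨(X : Mat), X.2.1⟩ : 𝔤) ∈ q

/-- `𝔮` is of virtually symmetric type: some `θ`-stable parabolic subalgebra `𝔮'` of symmetric type
has `L = N_G(𝔮) ⊆ L' = N_G(𝔮')` with `L' / L` compact. -/
def VirtuallySymmetricType (q : LieSubalgebra ℂ 𝔤) : Prop :=
  ∃ q' : LieSubalgebra ℂ 𝔤, IsThetaStableParabolic q' ∧ SymmetricType q' ∧ Nrm q ≤ Nrm q' ∧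
    CompactSpace (↥(Nrm q') ⧸ (Nrm q).subgroupOf (Nrm q'))

/-- the compact torus `T`: the diagonal matrices of `G` -/
def T : Subgroup Matˣ where
  carrier := {g | g ∈ G ∧ ∀ i j, i ≠ j → (g : Mat) i j = 0}
  mul_mem' := by
    rintro a b ⟨ha, ha'⟩ ⟨hb, hb'⟩
    refine ⟨G.mul_mem ha hb, fun i j hij => ?_⟩
    rw [Units.val_mul, Matrix.mul_apply]
    refine Finset.sum_eq_zero fun k _ => ?_
    by_cases h : i = k
    · subst h; rw [hb' i j hij, mul_zero]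
    · rw [ha' i k h, zero_mul]
  one_mem' := ⟨G.one_mem, fun i j hij => by simp [hij]⟩
  inv_mem' := by
    rintro a ⟨ha, ha'⟩
    refine ⟨G.inv_mem ha, fun i j hij => ?_⟩
    have h1 : (a : Mat) * ((a⁻¹ : Matˣ) : Mat) = 1 := by simp
    have h2 := congrFun (congrFun h1 i) j
    have h3 := congrFun (congrFun h1 i) i
    rw [Matrix.mul_apply, Finset.sum_eq_single i (fun k _ hk => by rw [ha' i k (Ne.symm hk), zero_mul])
      (by simp)] at h2 h3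
    rw [Matrix.one_apply_ne hij] at h2
    rw [Matrix.one_apply_eq] at h3
    rcases mul_eq_zero.1 h2 with h | h
    · rw [h, zero_mul] at h3; exact absurd h3 zero_ne_one
    · exact h

/-- `exp X ∈ G` for `X ∈ 𝔤₀` -/
def IsExp (X : g0) (g : G) : Prop := ((g : Matˣ) : Mat) = NormedSpace.exp (X : Mat)

/-- `π` is a (strongly continuous) unitary representation of `G` on the Hilbert space `H`, and `Φ`
identifies the `𝔤`-module `A` with the underlying `(𝔤, K)`-module of `π`: `Φ` is a linear bijection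
of `A` onto the space of `K`-finite vectors, and intertwines the action of `𝔤₀` with the derivative
of `π`. -/
structure IsCompletion {A : Type*} [AddCommGroup A] [Module ℂ A] [LieRingModule 𝔤 A]
    {H : Type*} [NormedAddCommGroup H] [InnerProductSpace ℂ H]
    (π : G →* (H ≃ₗᵢ[ℂ] H)) (Φ : A →ₗ[ℂ] H) : Prop where
  cont : ∀ v : H, Continuous fun g : G => π g v
  inj : Function.Injective Φ
  range : ∀ v : H, v ∈ LinearMap.range Φ ↔
    FiniteDimensional ℂ (Submodule.span ℂ {w | ∃ k : G, (k : Matˣ) ∈ K ∧ w = π k v})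
  deriv : ∀ (X : g0) (γ : ℝ → G), (∀ t : ℝ, IsExp (t • X) (γ t)) → ∀ a : A,
    HasDerivAt (fun t : ℝ => π (γ t) (Φ a)) (Φ ⁅(⟨(X : Mat), X.2.1⟩ : 𝔤), a⁆) 0

end Pool.Agent.MP_e0f57b_al
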