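import Pool.Agent.Lib.MP_e0f57b_al.FDefs

/-! Modules whose weights are positive on the coroot of `e₁ - e₂` have no `K`-finite vectors. -/

open Matrix

attribute [local instance 100] LieRing.ofAssociativeRing

namespace Pool.Agent.MP_e0f57b_al

private theorem gamv_lie : ⁅(xb 2 : 𝔤), (xb 6 : 𝔤)⁆ = hh 0 - hh 1 := by
  apply Subtype.ext
  rw [LieSubalgebra.coe_bracket, Ring.lie_def]
  ext a b
  rcases a with a | a <;> rcases b with b | b <;> fin_cases a <;> fin_cases b <;>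
    simp [xb, hh, mk, fromBlocks_multiply, Matrix.mul_apply, single]

/-- eigenvalues of `hh 0 - hh 1` are positive integers -/
private theorem gamv_eig {W : Type} [AddCommGroup W] [Module ℂ W] [LieRingModule 𝔤 W]
    [LieModule ℂ 𝔤 W] (hW : IsTMod W) (hpos : ∀ μ : Fin 2 → ℤ, wt W μ ≠ ⊥ → 0 < μ 0 - μ 1)
    (c : ℂ) (y : W) (hy : y ≠ 0) (h : ⁅(hh 0 - hh 1 : 𝔤), y⁆ = c • y) :
    ∃ k : ℤ, 0 < k ∧ c = (k : ℂ) := by
  by_contra hcon
  push Not at hcon
  let H : Module.End ℂ W := LieModule.toEnd ℂ 𝔤 W (hh 0 - hh 1)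
  have hH : ∀ w : W, H w = ⁅(hh 0 - hh 1 : 𝔤), w⁆ := fun w => rfl
  have hdis := Module.End.eigenspaces_iSupIndep H c
  have htop : (⨆ j, ⨆ (_ : j ≠ c), Module.End.eigenspace H j) = ⊤ := by
    rw [eq_top_iff, ← (hW : ⨆ μ, wt W μ = ⊤)]
    refine iSup_le fun μ => ?_
    by_cases hμ : wt W μ = ⊥
    · rw [hμ]
      exact bot_le
    · have h1 := hpos μ hμ
      have h2 : (((μ 0 - μ 1 : ℤ)) : ℂ) ≠ c := fun h' => hcon _ h1 h'.symm
      refine le_trans ?_ (le_iSup₂_of_le (((μ 0 - μ 1 : ℤ)) : ℂ) h2 (le_refl _))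
      intro w hw
      rw [Module.End.mem_eigenspace_iff, hH, sub_lie, hw 0, hw 1, ← sub_smul]
      push_cast
      rfl
  rw [htop] at hdis
  have h1 : y ∈ Module.End.eigenspace H c := by
    rw [Module.End.mem_eigenspace_iff, hH, h]
  have h2 := hdis.le_bot (Submodule.mem_inf.2 ⟨h1, Submodule.mem_top⟩)
  exact hy ((Submodule.mem_bot ℂ).1 h2)

private theorem gamv_bot {W : Type} [AddCommGroup W] [Module ℂ W] [LieRingModule 𝔤 W]
    [LieModule ℂ 𝔤 W] (hW : IsTMod W) (hpos : ∀ μ : Fin 2 → ℤ, wt W μ ≠ ⊥ → 0 < μ 0 - μ 1)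
    (F : Submodule ℂ W) (hF : FiniteDimensional ℂ F) (hst : ∀ x ∈ kk, ∀ f ∈ F, ⁅x, f⁆ ∈ F) :
    F = ⊥ := by
  let re (x : kk) : Module.End ℂ F :=
    (LieModule.toEnd ℂ 𝔤 W (x : 𝔤)).restrict (fun f hf => hst x x.2 f hf)
  have hre : ∀ (x : kk) (f : F), ((re x f : F) : W) = ⁅(x : 𝔤), (f : W)⁆ := fun x f => rfl
  have hcomm : re (hk 0 - hk 1) = re ek * re fk - re fk * re ek := by
    ext f
    rw [hre]
    change ⁅((hk 0 - hk 1 : kk) : 𝔤), (f : W)⁆ =
      ⁅((ek : kk) : 𝔤), ⁅((fk : kk) : 𝔤), (f : W)⁆⁆ - ⁅((fk : kk) : 𝔤), ⁅((ek : kk) : 𝔤), (f : W)⁆⁆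
    have h1 : ((hk 0 - hk 1 : kk) : 𝔤) = ⁅(xb 2 : 𝔤), (xb 6 : 𝔤)⁆ := by
      rw [gamv_lie]
      rfl
    rw [h1, lie_lie]
    rfl
  have htr : LinearMap.trace ℂ F (re (hk 0 - hk 1)) = 0 := by
    rw [hcomm, map_sub, LinearMap.trace_mul_comm, sub_self]
  have hsp : (re (hk 0 - hk 1)).charpoly.Splits := IsAlgClosed.splits _
  rw [Module.End.trace_eq_sum_roots_charpoly_of_splits hsp] at htr
  have hroot : ∀ r ∈ (re (hk 0 - hk 1)).charpoly.roots, 1 ≤ r.re := by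
    intro r hr
    have h1 : (re (hk 0 - hk 1)).charpoly.IsRoot r := Polynomial.isRoot_of_mem_roots hr
    rw [← Module.End.hasEigenvalue_iff_isRoot_charpoly] at h1
    obtain ⟨y, hy⟩ := h1.exists_hasEigenvector
    have h2 := hy.apply_eq_smul
    have h3 : ⁅(hh 0 - hh 1 : 𝔤), (y : W)⁆ = r • (y : W) := congrArg Subtype.val h2
    have h4 : (y : W) ≠ 0 := fun h => hy.2 (Subtype.ext h)
    obtain ⟨k, hk0, hk1⟩ := gamv_eig hW hpos r (y : W) h4 h3
    rw [hk1]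
    have : (1 : ℝ) ≤ (k : ℝ) := by exact_mod_cast hk0
    simpa using this
  have hcard : ((re (hk 0 - hk 1)).charpoly.roots.card : ℝ) ≤
      ((re (hk 0 - hk 1)).charpoly.roots.sum).re := by
    have key : ∀ s : Multiset ℂ, (∀ r ∈ s, 1 ≤ r.re) → (s.card : ℝ) ≤ s.sum.re := by
      intro s
      induction s using Multiset.induction_on with
      | empty => intro _; simp
      | cons a s ih =>
        intro h
        have h1 := ih fun r hr => h r (Multiset.mem_cons_of_mem hr)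
        have h2 := h a (Multiset.mem_cons_self a s)
        rw [Multiset.card_cons, Multiset.sum_cons, Complex.add_re]
        push_cast
        linarith
    exact key _ hroot
  rw [htr, Complex.zero_re] at hcard
  have h0 : (re (hk 0 - hk 1)).charpoly.roots.card = 0 := by
    have : ((re (hk 0 - hk 1)).charpoly.roots.card : ℝ) = 0 :=
      le_antisymm hcard (Nat.cast_nonneg _)
    exact_mod_cast this
  have h1 := hsp.natDegree_eq_card_roots
  rw [h0, LinearMap.charpoly_natDegree] at h1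
  exact Submodule.finrank_eq_zero.1 h1

theorem Gam_eq_bot {W : Type} [AddCommGroup W] [Module ℂ W] [LieRingModule 𝔤 W] [LieModule ℂ 𝔤 W]
    (hW : IsTMod W) (hpos : ∀ μ : Fin 2 → ℤ, wt W μ ≠ ⊥ → 0 < μ 0 - μ 1) : Gam W = ⊥ := by
  rw [eq_bot_iff]
  rintro m ⟨F, hF, hst, hm⟩
  rw [gamv_bot hW hpos F hF hst, Submodule.mem_bot] at hm
  rw [hm]
  exact zero_mem _

end Pool.Agent.MP_e0f57b_al
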