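import Pool.Agent.Lib.MP_e0f57b_al.FreeK
import Pool.Agent.Lib.MP_e0f57b_al.UEA

open Matrix

attribute [local instance 100] LieRing.ofAssociativeRing

namespace Pool.Agent.MP_e0f57b_al

section

variable {W : Type} [AddCommGroup W] [Module ℂ W] [LieRingModule 𝔤 W]
    [LieModule ℂ 𝔤 W] {S : Type} [AddCommGroup S] [Module ℂ S]
    (ρ : kk →ₗ⁅ℂ⁆ Module.End ℂ S) (c : kk →ₗ[ℂ] S →ₗ[ℂ] W)

/-- the extension of `S` by `W` defined by the cocycle `c` -/
def extRep (hc : IsCocycle ρ c) : kk →ₗ⁅ℂ⁆ Module.End ℂ (W × S) where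
  toFun X :=
    { toFun := fun p => (⁅(X : 𝔤), p.1⁆ + c X p.2, ρ X p.2)
      map_add' := fun p q => by
        apply Prod.ext
        · show ⁅(X : 𝔤), p.1 + q.1⁆ + c X (p.2 + q.2) = (⁅(X : 𝔤), p.1⁆ + c X p.2) + (⁅(X : 𝔤), q.1⁆ + c X q.2)
          rw [lie_add, map_add]; abel
        · exact map_add (ρ X) p.2 q.2
      map_smul' := fun a p => by
        apply Prod.ext
        · show ⁅(X : 𝔤), a • p.1⁆ + c X (a • p.2) = a • (⁅(X : 𝔤), p.1⁆ + c X p.2)
          rw [lie_smul, map_smul, smul_add]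
        · exact map_smul (ρ X) a p.2 }
  map_add' X Y := by
    ext p
    · simp
    · simp
    · simp
    · simp
  map_smul' a X := by
    ext p
    · simp
    · simp
    · simp
    · simp
  map_lie' {X Y} := by
    apply LinearMap.ext
    intro p
    apply Prod.ext
    · show ⁅((⁅X, Y⁆ : kk) : 𝔤), p.1⁆ + c ⁅X, Y⁆ p.2 = (⁅(X : 𝔤), ⁅(Y : 𝔤), p.1⁆ + c Y p.2⁆ + c X (ρ Y p.2))
        - (⁅(Y : 𝔤), ⁅(X : 𝔤), p.1⁆ + c X p.2⁆ + c Y (ρ X p.2))
      rw [hc.coc, lie_add, lie_add, LieSubalgebra.coe_bracket, lie_lie]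
      abel
    · show ρ ⁅X, Y⁆ p.2 = ρ X (ρ Y p.2) - ρ Y (ρ X p.2)
      rw [LieHom.map_lie, Ring.lie_def]; rfl

theorem extRep_apply (hc : IsCocycle ρ c) (X : kk) (p : W × S) :
    extRep ρ c hc X p = (⁅(X : 𝔤), p.1⁆ + c X p.2, ρ X p.2) := rfl

/-- the action of `U(𝔨)` on the extension -/
def extU (hc : IsCocycle ρ c) : UniversalEnvelopingAlgebra ℂ kk →ₐ[ℂ] Module.End ℂ (W × S) :=
  UniversalEnvelopingAlgebra.lift ℂ (extRep ρ c hc)

theorem extU_ι (hc : IsCocycle ρ c) (X : kk) :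
    extU ρ c hc (UniversalEnvelopingAlgebra.ι ℂ X) = extRep ρ c hc X := by
  rw [extU, UniversalEnvelopingAlgebra.lift_ι_apply]

theorem extU_inl (hc : IsCocycle ρ c) (κ : UniversalEnvelopingAlgebra ℂ kk) (w : W) :
    extU ρ c hc κ (w, 0) = (act W (phiK κ) w, 0) := by
  let B : Subalgebra ℂ (UniversalEnvelopingAlgebra ℂ kk) :=
    { carrier := {κ | ∀ w : W, extU ρ c hc κ (w, 0) = (act W (phiK κ) w, 0)}
      mul_mem' := fun {a b} ha hb w => by
        rw [map_mul, map_mul, map_mul, Module.End.mul_apply, hb, ha, Module.End.mul_apply]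
      add_mem' := fun {a b} ha hb w => by
        rw [map_add, map_add, map_add, LinearMap.add_apply, hb, ha, LinearMap.add_apply]
        simp
      algebraMap_mem' := fun r w => by
        rw [AlgHom.commutes, AlgHom.commutes, AlgHom.commutes]
        simp [Module.algebraMap_end_apply] }
  refine uea_mem B (fun x w => ?_) κ w
  rw [extU_ι, phiK_ι, act_iU, extRep_apply]
  simp

/-- the map `E → Hom(U(𝔤), W)` of the blueprint -/
theorem exists_J (hc : IsCocycle ρ c) : ∃ J : (W × S) →ₗ[ℂ] Prd W,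
    ∀ e a κ, J e (yb a * phiK κ) = act W (yb a) (extU ρ c hc κ e).1 := by
  have h : ∀ e : W × S, ∃ F : U →ₗ[ℂ] W, ∀ a κ,
      F (yb a * phiK κ) = act W (yb a) (extU ρ c hc κ e).1 := fun e =>
    right_free fun a => (act W (yb a)) ∘ₗ (LinearMap.fst ℂ W S) ∘ₗ
      ((extU ρ c hc).toLinearMap.flip e)
  choose F hF using h
  refine ⟨⟨⟨fun e => Prd.of (F e), fun e e' => ?_⟩, fun r e => ?_⟩, hF⟩
  · have : F (e + e') = F e + F e' := right_ext fun a κ => by
      rw [hF, LinearMap.add_apply, hF, hF, map_add, Prod.fst_add, map_add]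
    rw [this]; rfl
  · have : F (r • e) = r • F e := right_ext fun a κ => by
      rw [hF, LinearMap.smul_apply, hF, map_smul, Prod.smul_fst, map_smul]
    show Prd.of (F (r • e)) = r • Prd.of (F e)
    rw [this]; rfl

omit [LieRingModule 𝔤 W] [LieModule ℂ 𝔤 W] in
theorem prd_ext {F F' : Prd W} (h : ∀ a κ, F (yb a * phiK κ) = F' (yb a * phiK κ)) : F = F' :=
  right_ext h

end

theorem exists_lift {W : Type} [AddCommGroup W] [Module ℂ W] [LieRingModule 𝔤 W]
    [LieModule ℂ 𝔤 W] (hW : IsTMod W) {S : Type} [AddCommGroup S] [Module ℂ S]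
    (ρ : kk →ₗ⁅ℂ⁆ Module.End ℂ S) (hρ : ⨆ μ, wtR ρ μ = ⊤) (c : kk →ₗ[ℂ] S →ₗ[ℂ] W)
    (hc : IsCocycle ρ c) :
    ∃ ψ : S →ₗ[ℂ] I W, ∀ (x : kk) (s : S), ⁅(x : 𝔤), ψ s⁆ = j hW (c x s) + ψ (ρ x s) := by
  obtain ⟨J, hJ⟩ := exists_J ρ c hc
  -- equivariance under `𝔨`
  have h1 : ∀ (x : kk) (e : W × S), ⁅(x : 𝔤), J e⁆ = J (extRep ρ c hc x e) := by
    intro x e
    refine prd_ext fun a κ => ?_
    rw [Prd.lie_apply, hJ, mul_assoc, ← phiK_ι, ← map_mul, hJ, map_mul, Module.End.mul_apply,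
      extU_ι]
  -- left equivariance under `𝔱`
  have h2 : ∀ (i : Fin 2) (e : W × S) (u : U), J e (iU (hh i) * u) = ⁅hh i, J e u⁆ := by
    intro i e
    have : ((J e : U →ₗ[ℂ] W) ∘ₗ LinearMap.mulLeft ℂ (iU (hh i))) =
        (LieModule.toEnd ℂ 𝔤 W (hh i)) ∘ₗ (J e : U →ₗ[ℂ] W) := by
      refine right_ext fun a κ => ?_
      show J e (iU (hh i) * (yb a * phiK κ)) = ⁅hh i, J e (yb a * phiK κ)⁆
      rw [← mul_assoc, hh_mul_yb, add_mul, map_add, smul_mul_assoc, map_smul, hJ, mul_assoc,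
        show iU (hh i) = iU ((hk i : kk) : 𝔤) from rfl, ← phiK_ι, ← map_mul, hJ, map_mul,
        Module.End.mul_apply, extU_ι, extRep_apply]
      simp only [hc.zero, add_zero]
      rw [← act_iU, ← act_iU (hh i), ← Module.End.mul_apply, ← map_mul, ← Module.End.mul_apply,
        ← map_mul, show iU ((hk i : kk) : 𝔤) = iU (hh i) from rfl, hh_mul_yb i a, map_add,
        map_smul, LinearMap.add_apply, LinearMap.smul_apply]
    exact fun u => congrArg (fun f : U →ₗ[ℂ] W => f u) this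
  have h3 : ∀ w : W, J (w, 0) = (jfull w : Prd W) := by
    intro w
    refine prd_ext fun a κ => ?_
    rw [hJ, extU_inl]
    show act W (yb a) (act W (phiK κ) w) = act W (yb a * phiK κ) w
    rw [map_mul, Module.End.mul_apply]
  let J' : (W × S) →ₗ[ℂ] Ifull W := J.codRestrict (Ifull W).toSubmodule (fun e i u => h2 i e u)
  have h4 : ∀ s : S, J' (0, s) ∈ Tfin (Ifull W) := by
    intro s
    have hs : s ∈ ⨆ μ, wtR ρ μ := by rw [hρ]; trivial
    show J' (0, s) ∈ ⨆ μ, wt (Ifull W) μ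
    induction hs using Submodule.iSup_induction' with
    | mem μ y hy =>
      refine Submodule.mem_iSup_of_mem μ fun i => ?_
      apply Subtype.ext
      show ⁅hh i, J (0, y)⁆ = ((μ i : ℤ) : ℂ) • J (0, y)
      rw [show hh i = ((hk i : kk) : 𝔤) from rfl, h1, extRep_apply]
      simp only [hc.zero, lie_zero, add_zero]
      rw [hy i, ← map_smul]
      congr 1
      simp
    | zero =>
      have : J' ((0 : W), (0 : S)) = 0 := map_zero J'
      rw [this]; exact zero_mem _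
    | add y z _ _ hy hz =>
      have : J' ((0 : W), y + z) = J' (0, y) + J' (0, z) := by
        rw [← map_add]; simp
      rw [this]; exact add_mem hy hz
  refine ⟨(J' ∘ₗ LinearMap.inr ℂ W S).codRestrict (Tfin (Ifull W)).toSubmodule h4, ?_⟩
  intro x s
  apply Subtype.ext
  apply Subtype.ext
  show ⁅(x : 𝔤), J (0, s)⁆ = (jfull (c x s) : Prd W) + J (0, ρ x s)
  rw [h1, extRep_apply, ← h3, ← map_add]
  simp

end Pool.Agent.MP_e0f57b_al
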