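import Pool.Agent.Lib.MP_e0f57b_al.FDefs

open Matrix

attribute [local instance 100] LieRing.ofAssociativeRing

namespace Pool.Agent.MP_e0f57b_al

/-- the abstract form of the multiplicity estimate -/
theorem mult_gen {W I' Q R : Type} [AddCommGroup W] [Module ℂ W] [LieRingModule 𝔤 W]
    [LieModule ℂ 𝔤 W] [AddCommGroup I'] [Module ℂ I'] [LieRingModule 𝔤 I'] [LieModule ℂ 𝔤 I']
    [AddCommGroup Q] [Module ℂ Q] [LieRingModule 𝔤 Q] [LieModule ℂ 𝔤 Q]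
    [AddCommGroup R] [Module ℂ R] [LieRingModule 𝔤 R] [LieModule ℂ 𝔤 R]
    (jj : W →ₗ⁅ℂ, 𝔤⁆ I') (hjj : Function.Injective jj) (p : I' →ₗ⁅ℂ, 𝔤⁆ Q)
    (hp : ∀ y, p y = 0 ↔ ∃ w, jj w = y) (r : Gam Q →ₗ⁅ℂ, 𝔤⁆ R)
    (hr : ∀ z : Gam Q, r z = 0 → ∃ y ∈ Gam I', p y = z) (hG : ∀ w ∈ Gam W, w = 0)
    {S : Type} [AddCommGroup S] [Module ℂ S]
    [FiniteDimensional ℂ S] (ρ : kk →ₗ⁅ℂ⁆ Module.End ℂ S) {N : ℕ}
    (c : Fin N → (kk →ₗ[ℂ] S →ₗ[ℂ] W)) (ψ : Fin N → (S →ₗ[ℂ] I'))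
    (hψ : ∀ n (x : kk) (s : S), ⁅(x : 𝔤), ψ n s⁆ = jj (c n x s) + ψ n (ρ x s))
    (hind : ∀ (t : Fin N → ℂ) (φ : S →ₗ[ℂ] W),
      (∀ (x : kk) s, ∑ n, t n • c n x s = ⁅(x : 𝔤), φ s⁆ - φ (ρ x s)) → t = 0) :
    MultGe ρ R N := by
  have hmemj : ∀ w, jj w ∈ Gam I' → w = 0 := by
    rintro w ⟨F, hF, hF2, hm⟩
    refine hG w ⟨F.comap (jj : W →ₗ[ℂ] I'), ?_, ?_, hm⟩
    · let g : F.comap (jj : W →ₗ[ℂ] I') →ₗ[ℂ] F :=
        ((jj : W →ₗ[ℂ] I').domRestrict _).codRestrict F (fun x => x.2)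
      have hg : Function.Injective g := by
        intro a b hab
        have := congrArg Subtype.val hab
        exact Subtype.ext (hjj this)
      exact FiniteDimensional.of_injective g hg
    · intro x hx f hf
      show jj ⁅x, f⁆ ∈ F
      rw [LieModuleHom.map_lie]
      exact hF2 x hx _ hf
  have hprj : ∀ w, p (jj w) = 0 := fun w => (hp _).2 ⟨w, rfl⟩
  have hprψ : ∀ n (x : kk) s, ⁅(x : 𝔤), p (ψ n s)⁆ = p (ψ n (ρ x s)) := by
    intro n x s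
    rw [← LieModuleHom.map_lie, hψ, map_add, hprj, zero_add]
  have hmem : ∀ n s, p (ψ n s) ∈ Gam Q := by
    intro n s
    refine ⟨LinearMap.range ((p : I' →ₗ[ℂ] Q) ∘ₗ ψ n), inferInstance, ?_, ⟨s, rfl⟩⟩
    rintro x hx _ ⟨s', rfl⟩
    exact ⟨ρ ⟨x, hx⟩ s', (hprψ n ⟨x, hx⟩ s').symm⟩
  let f0 : Fin N → (S →ₗ[ℂ] Gam Q) := fun n =>
    ((p : I' →ₗ[ℂ] Q) ∘ₗ ψ n).codRestrict (Gam Q).toSubmodule (hmem n)
  have hf0 : ∀ n s, ((f0 n s : Gam Q) : Q) = p (ψ n s) := fun n s => rfl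
  let f : Fin N → (S →ₗ[ℂ] R) := fun n => (r : Gam Q →ₗ[ℂ] R) ∘ₗ f0 n
  have hf : ∀ n s, f n s = r (f0 n s) := fun n s => rfl
  refine ⟨f, ?_, ?_⟩
  · rw [Fintype.linearIndependent_iff]
    intro t ht
    -- the combination
    let Ψ : S →ₗ[ℂ] I' := ∑ n, t n • ψ n
    have hΨ : ∀ s, Ψ s = ∑ n, t n • ψ n s := fun s => by
      simp [Ψ, LinearMap.sum_apply]
    have h1 : ∀ s, ∃ v : W, Ψ s + jj v ∈ Gam I' := by
      intro s
      have h2 : r (∑ n, t n • f0 n s) = 0 := by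
        have h3 : (∑ n, t n • f n) s = 0 := by rw [ht]; rfl
        rw [LinearMap.sum_apply] at h3
        rw [map_sum, ← h3]
        refine Finset.sum_congr rfl fun n _ => ?_
        rw [map_smul, LinearMap.smul_apply, hf]
      obtain ⟨y, hy, hy2⟩ := hr _ h2
      have h5 : (((∑ n, t n • f0 n s : Gam Q)) : Q) = p (Ψ s) := by
        rw [hΨ, map_sum, AddSubmonoidClass.coe_finsetSum]
        refine Finset.sum_congr rfl fun n _ => ?_
        rw [map_smul, ← hf0]; rfl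
      rw [h5] at hy2
      obtain ⟨v, hv⟩ := (hp (y - Ψ s)).1 (by rw [map_sub, sub_eq_zero]; exact hy2)
      exact ⟨v, by rw [hv, add_sub_cancel]; exact hy⟩
    have huniq : ∀ s v v', Ψ s + jj v ∈ Gam I' → Ψ s + jj v' ∈ Gam I' → v = v' := by
      intro s v v' hv hv'
      have h2 : jj (v - v') ∈ Gam I' := by
        have : jj (v - v') = (Ψ s + jj v) - (Ψ s + jj v') := by
          rw [map_sub]; abel
        rw [this]; exact sub_mem hv hv'
      exact sub_eq_zero.1 (hmemj _ h2)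
    choose φ hφ using h1
    let φ' : S →ₗ[ℂ] W :=
      { toFun := φ
        map_add' := fun s s' => huniq (s + s') _ _ (hφ _) (by
          rw [map_add, map_add]
          have : Ψ s + Ψ s' + (jj (φ s) + jj (φ s')) =
            (Ψ s + jj (φ s)) + (Ψ s' + jj (φ s')) := by abel
          rw [this]; exact add_mem (hφ s) (hφ s'))
        map_smul' := fun r s => huniq (r • s) _ _ (hφ _) (by
          rw [map_smul, RingHom.id_apply, map_smul, ← smul_add]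
          exact (Gam I').smul_mem r (hφ s)) }
    have hfin : t = 0 := by
      refine hind t (-φ') fun x s => ?_
      have h2 : φ (ρ x s) = ∑ n, t n • c n x s + ⁅(x : 𝔤), φ s⁆ := by
        refine huniq (ρ x s) _ _ (hφ _) ?_
        have h3 : ⁅(x : 𝔤), Ψ s + jj (φ s)⁆ ∈ Gam I' := (Gam I').lie_mem (hφ s)
        have h4 : ⁅(x : 𝔤), Ψ s + jj (φ s)⁆ =
            Ψ (ρ x s) + jj (∑ n, t n • c n x s + ⁅(x : 𝔤), φ s⁆) := by
          rw [lie_add, hΨ, hΨ, lie_sum, map_add, map_sum, LieModuleHom.map_lie, ← add_assoc,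
            ← Finset.sum_add_distrib]
          congr 1
          refine Finset.sum_congr rfl fun n _ => ?_
          rw [lie_smul, hψ, smul_add, map_smul, add_comm]
        rwa [h4] at h3
      show ∑ n, t n • c n x s = ⁅(x : 𝔤), -φ s⁆ - (-φ (ρ x s))
      rw [h2, lie_neg]; abel
    intro n
    exact congrFun hfin n
  · intro n x s
    rw [hf, hf, ← LieModuleHom.map_lie]
    congr 1
    apply Subtype.ext
    exact (hprψ n x s).symm

theorem j_inj {W : Type} [AddCommGroup W] [Module ℂ W] [LieRingModule 𝔤 W] [LieModule ℂ 𝔤 W]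
    (hW : IsTMod W) : Function.Injective (j hW) := by
  intro w w' h
  have h1 : (((j hW w : I W) : Ifull W) : Prd W) (1 : U) =
    (((j hW w' : I W) : Ifull W) : Prd W) 1 := by rw [h]
  have h2 : ∀ w : W, (((j hW w : I W) : Ifull W) : Prd W) (1 : U) = w := by
    intro w
    show act W 1 w = w
    rw [map_one]; rfl
  rwa [h2, h2] at h1

theorem mult_of_cocycles {W : Type} [AddCommGroup W] [Module ℂ W] [LieRingModule 𝔤 W]
    [LieModule ℂ 𝔤 W] (hW : IsTMod W) (hG : Gam W = ⊥) {S : Type} [AddCommGroup S] [Module ℂ S]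
    [FiniteDimensional ℂ S] (ρ : kk →ₗ⁅ℂ⁆ Module.End ℂ S) {N : ℕ}
    (c : Fin N → (kk →ₗ[ℂ] S →ₗ[ℂ] W)) (ψ : Fin N → (S →ₗ[ℂ] I W))
    (hψ : ∀ n (x : kk) (s : S), ⁅(x : 𝔤), ψ n s⁆ = j hW (c n x s) + ψ n (ρ x s))
    (hind : ∀ (t : Fin N → ℂ) (φ : S →ₗ[ℂ] W),
      (∀ (x : kk) s, ∑ n, t n • c n x s = ⁅(x : 𝔤), φ s⁆ - φ (ρ x s)) → t = 0) :
    MultGe ρ (R1 hW) N :=
  mult_gen (j hW) (j_inj hW) (pr hW)
    (fun y => (LieSubmodule.Quotient.mk_eq_zero _).trans Iff.rfl)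
    (LieSubmodule.Quotient.mk' (((Gam (I W)).map (pr hW)).comap (Gam (Qt hW)).incl))
    (fun z hz => (LieSubmodule.Quotient.mk_eq_zero _).1 hz)
    (fun w hw => by rwa [hG, LieSubmodule.mem_bot] at hw) ρ c ψ hψ hind

end Pool.Agent.MP_e0f57b_al
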