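import Pool.Agent.Lib.MP_e0f57b_al.FDefs

open Matrix

attribute [local instance 100] LieRing.ofAssociativeRing

namespace Pool.Agent.MP_e0f57b_al

variable (m : ℕ) (q : ℤ)

theorem opH1_apply (s : Fin (m + 1) → ℂ) (j : Fin (m + 1)) :
    opH1 m q s j = ((q : ℂ) + m - (j : ℕ)) * s j := rfl

theorem opH2_apply (s : Fin (m + 1) → ℂ) (j : Fin (m + 1)) :
    opH2 m q s j = ((q : ℂ) + (j : ℕ)) * s j := rfl

theorem opE_apply (s : Fin (m + 1) → ℂ) (j : Fin (m + 1)) :
    opE m s j = if h : (j : ℕ) + 1 < m + 1 then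
      (((j : ℕ) : ℂ) + 1) * ((m : ℂ) - (j : ℕ)) * s ⟨j + 1, h⟩ else 0 := rfl

theorem opF_apply (s : Fin (m + 1) → ℂ) (j : Fin (m + 1)) :
    opF m s j = if h : 0 < (j : ℕ) then s ⟨j - 1, by omega⟩ else 0 := rfl

theorem rel12 : opH1 m q * opH2 m q = opH2 m q * opH1 m q := by
  ext s j
  simp only [Module.End.mul_apply, LinearMap.comp_apply, opH1_apply, opH2_apply]
  ring

theorem rel1E : opH1 m q * opE m - opE m * opH1 m q = opE m := by
  ext s j
  simp only [Module.End.mul_apply, LinearMap.comp_apply, LinearMap.sub_apply, Pi.sub_apply,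
    opH1_apply, opE_apply]
  split_ifs with h
  · push_cast; ring
  · ring

theorem rel2E : opH2 m q * opE m - opE m * opH2 m q = - opE m := by
  ext s j
  simp only [Module.End.mul_apply, LinearMap.comp_apply, LinearMap.sub_apply, Pi.sub_apply,
    LinearMap.neg_apply, Pi.neg_apply, opH2_apply, opE_apply]
  split_ifs with h
  · push_cast; ring
  · ring

theorem rel1F : opH1 m q * opF m - opF m * opH1 m q = - opF m := by
  ext s j
  simp only [Module.End.mul_apply, LinearMap.comp_apply, LinearMap.sub_apply, Pi.sub_apply,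
    LinearMap.neg_apply, Pi.neg_apply, opH1_apply, opF_apply]
  split_ifs with h
  · rw [Nat.cast_sub (by omega)]; push_cast; ring
  · ring

theorem rel2F : opH2 m q * opF m - opF m * opH2 m q = opF m := by
  ext s j
  simp only [Module.End.mul_apply, LinearMap.comp_apply, LinearMap.sub_apply, Pi.sub_apply,
    opH2_apply, opF_apply]
  split_ifs with h
  · rw [Nat.cast_sub (by omega)]; push_cast; ring
  · ring

theorem relEF : opE m * opF m - opF m * opE m = opH1 m q - opH2 m q := by
  ext s j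
  simp only [Module.End.mul_apply, LinearMap.comp_apply, LinearMap.sub_apply, Pi.sub_apply,
    opH1_apply, opH2_apply, opE_apply, opF_apply]
  generalize (LinearMap.single ℂ (fun _ => ℂ) s) 1 = v
  by_cases h1 : (j : ℕ) + 1 < m + 1
  · by_cases h2 : 0 < (j : ℕ)
    · have e1 : (j : ℕ) - 1 + 1 < m + 1 := by omega
      have e2 : (⟨(j : ℕ) + 1 - 1, by omega⟩ : Fin (m + 1)) = j := Fin.ext (by simp)
      have e3 : (⟨(j : ℕ) - 1 + 1, e1⟩ : Fin (m + 1)) = j := Fin.ext (by simp; omega)
      simp only [dif_pos h1, dif_pos h2, dif_pos e1, Nat.succ_pos, e2, e3, dite_true]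
      rw [Nat.cast_sub (by omega)]; push_cast; ring
    · have e2 : (⟨(j : ℕ) + 1 - 1, by omega⟩ : Fin (m + 1)) = j := Fin.ext (by simp)
      have e4 : (j : ℕ) = 0 := by omega
      simp only [dif_pos h1, dif_neg h2, Nat.succ_pos, e2, dite_true]
      rw [e4]; push_cast; ring
  · by_cases h2 : 0 < (j : ℕ)
    · have e1 : (j : ℕ) - 1 + 1 < m + 1 := by omega
      have e3 : (⟨(j : ℕ) - 1 + 1, e1⟩ : Fin (m + 1)) = j := Fin.ext (by simp; omega)
      have e4 : (j : ℕ) = m := by omega
      simp only [dif_neg h1, dif_pos h2, dif_pos e1, e3]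
      rw [Nat.cast_sub (by omega), e4]; push_cast; ring
    · have e4 : (j : ℕ) = m := by omega
      have e5 : m = 0 := by omega
      simp only [e4, e5]
      push_cast; ring

theorem single_zero_mem (E : Submodule ℂ (Fin (m + 1) → ℂ)) (hE : ∀ s ∈ E, opE m s ∈ E) :
    ∀ (N : ℕ) (s : Fin (m + 1) → ℂ), s ∈ E → s ≠ 0 → (∀ j : Fin (m + 1), N < (j : ℕ) → s j = 0) →
      (Pi.single 0 1 : Fin (m + 1) → ℂ) ∈ E := by
  intro N
  induction N with
  | zero =>
    intro s hs hs0 hN
    have h1 : s = s 0 • (Pi.single 0 1 : Fin (m + 1) → ℂ) := by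
      ext j
      by_cases hj : j = 0
      · subst hj; simp
      · rw [hN j (Nat.pos_of_ne_zero fun h => hj (Fin.ext h))]
        simp [hj]
    have h2 : s 0 ≠ 0 := by
      intro h; rw [h, zero_smul] at h1; exact hs0 h1
    have h3 : (Pi.single 0 1 : Fin (m + 1) → ℂ) = (s 0)⁻¹ • s := by
      have h4 : (s 0)⁻¹ • s = (s 0)⁻¹ • (s 0 • (Pi.single 0 1 : Fin (m + 1) → ℂ)) :=
        congrArg (fun z => (s 0)⁻¹ • z) h1
      rw [h4, smul_smul, inv_mul_cancel₀ h2, one_smul]
    rw [h3]; exact E.smul_mem _ hs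
  | succ N ih =>
    intro s hs hs0 hN
    by_cases h : ∀ j : Fin (m + 1), N < (j : ℕ) → s j = 0
    · exact ih s hs hs0 h
    · push Not at h
      obtain ⟨j, hj, hj0⟩ := h
      have hjN : (j : ℕ) = N + 1 := by
        by_contra hne
        exact hj0 (hN j (by omega))
      have hjm := j.2
      refine ih (opE m s) (hE s hs) ?_ ?_
      · intro h0
        have h1 := congrFun h0 ⟨N, by omega⟩
        rw [opE_apply] at h1
        have h2 : N + 1 < m + 1 := by omega
        simp only [h2, dite_true] at h1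
        have h3 : (⟨N + 1, h2⟩ : Fin (m + 1)) = j := Fin.ext hjN.symm
        rw [h3] at h1
        rcases mul_eq_zero.1 h1 with h4 | h4
        · rcases mul_eq_zero.1 h4 with h5 | h5
          · exact Nat.cast_add_one_ne_zero N h5
          · rw [sub_eq_zero] at h5
            have : m = N := by exact_mod_cast h5
            omega
        · exact hj0 h4
      · intro i hi
        rw [opE_apply]
        split_ifs with h1
        · rw [hN ⟨i + 1, h1⟩ (by simp; omega), mul_zero]
        · rfl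

theorem opF_single (j : ℕ) (hj : j + 1 < m + 1) :
    opF m (Pi.single ⟨j, by omega⟩ 1) = Pi.single ⟨j + 1, hj⟩ 1 := by
  ext i
  rw [opF_apply]
  by_cases h : (i : ℕ) = j + 1
  · have h1 : i = ⟨j + 1, hj⟩ := Fin.ext h
    subst h1
    simp
  · have h1 : i ≠ ⟨j + 1, hj⟩ := fun h' => h (by rw [h'])
    rw [Pi.single_eq_of_ne h1]
    split_ifs with h2
    · rw [Pi.single_eq_of_ne]
      intro h3
      have := congrArg Fin.val h3
      simp at this
      omega
    · rfl

theorem exists_rho (m : ℕ) (q : ℤ) : ∃ ρ : kk →ₗ⁅ℂ⁆ Module.End ℂ (Fin (m + 1) → ℂ),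
    ρ (hk 0) = opH1 m q ∧ ρ (hk 1) = opH2 m q ∧ ρ ek = opE m ∧ ρ fk = opF m ∧ IsKType ρ := by
  let ρ := repOfOps (opH1 m q) (opH2 m q) (opE m) (opF m) (rel12 m q) (rel1E m q) (rel2E m q)
    (rel1F m q) (rel2F m q) (relEF m q)
  have hρ : ∀ X : kk, ρ X = ((X : 𝔤) : Mat) (.inl 0) (.inl 0) • opH1 m q +
    ((X : 𝔤) : Mat) (.inl 1) (.inl 1) • opH2 m q +
    ((X : 𝔤) : Mat) (.inl 0) (.inl 1) • opE m + ((X : 𝔤) : Mat) (.inl 1) (.inl 0) • opF m :=
    fun X => rfl
  have e0 : ρ (hk 0) = opH1 m q := by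
    rw [hρ]; simp [hk, hh, mk, single]
  have e1 : ρ (hk 1) = opH2 m q := by
    rw [hρ]; simp [hk, hh, mk, single]
  have e2 : ρ ek = opE m := by
    rw [hρ]; simp [ek, xb, mk, single]
  have e3 : ρ fk = opF m := by
    rw [hρ]; simp [fk, xb, mk, single]
  refine ⟨ρ, e0, e1, e2, e3, inferInstance, ⟨?_, ?_⟩, ?_⟩
  · exact bot_ne_top
  · intro E hE
    by_cases hbot : E = ⊥
    · exact Or.inl hbot
    · right
      obtain ⟨s, hs, hs0⟩ := Submodule.exists_mem_ne_zero_of_ne_bot hbot
      have h1 : (Pi.single 0 1 : Fin (m + 1) → ℂ) ∈ E :=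
        single_zero_mem m E (fun s hs => by rw [← e2]; exact hE ek s hs) m s hs hs0
          (fun j hj => absurd j.2 (by omega))
      have h2 : ∀ j (hj : j < m + 1), (Pi.single ⟨j, hj⟩ 1 : Fin (m + 1) → ℂ) ∈ E := by
        intro j
        induction j with
        | zero => intro _; exact h1
        | succ j ih =>
          intro hj
          rw [← opF_single m j hj, ← e3]
          exact hE fk _ (ih (by omega))
      rw [eq_top_iff]
      intro s _
      rw [pi_eq_sum_univ s]
      refine Submodule.sum_mem _ fun j _ => E.smul_mem _ ?_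
      have h3 := h2 j j.2
      convert h3 using 1
      ext i
      by_cases h : i = j
      · subst h; simp
      · simp [h, Ne.symm h]
  · rw [eq_top_iff]
    intro s _
    rw [pi_eq_sum_univ s]
    refine Submodule.sum_mem _ fun j _ => Submodule.smul_mem _ _ ?_
    refine Submodule.mem_iSup_of_mem ![q + m - (j : ℕ), q + (j : ℕ)] fun i => ?_
    fin_cases i
    · show ρ (hk 0) _ = _
      rw [e0]
      ext i
      rw [opH1_apply]
      by_cases h : j = i
      · subst h; simp
      · simp [h]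
    · show ρ (hk 1) _ = _
      rw [e1]
      ext i
      rw [opH2_apply]
      by_cases h : j = i
      · subst h; simp
      · simp [h]

end Pool.Agent.MP_e0f57b_al
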