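import Pool.Agent.Lib.MP_e0f57b_al.FDefs
import Pool.Agent.Lib.MP_e0f57b_al.FreeB

/-! Weight spaces of the produced module `V ν`. -/

open Matrix

attribute [local instance 100] LieRing.ofAssociativeRing

namespace Pool.Agent.MP_e0f57b_al

/-- minus the weight of `nb c`, in the coordinate `i` -/
def nwt (c : Fin 4 → ℕ) (i : Fin 2) : ℤ :=
  ∑ k, (c k : ℤ) * (![rt 6, rt 7, rt 8, rt 9] : Fin 4 → Fin 2 → ℤ) k i

theorem nwt_zero (c : Fin 4 → ℕ) : nwt c 0 = -((c 0 : ℤ) + 2 * c 1 + c 2) := by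
  simp [nwt, Fin.sum_univ_succ, rt]; ring

theorem nwt_one (c : Fin 4 → ℕ) : nwt c 1 = -(-(c 0 : ℤ) + c 2 - 2 * c 3) := by
  simp [nwt, Fin.sum_univ_succ, rt]; ring

theorem mem_pset_iff (ν μ : Fin 2 → ℤ) (c : Fin 4 → ℕ) :
    c ∈ pset (μ - ν) ↔ ∀ i, ν i - nwt c i = μ i := by
  constructor
  · rintro ⟨h1, h2⟩ i
    fin_cases i
    · show ν 0 - nwt c 0 = μ 0
      rw [nwt_zero]; simp only [Pi.sub_apply] at h1; linarith
    · show ν 1 - nwt c 1 = μ 1
      rw [nwt_one]; simp only [Pi.sub_apply] at h2; linarith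
  · intro h
    have h1 := h 0
    have h2 := h 1
    rw [nwt_zero] at h1
    rw [nwt_one] at h2
    refine ⟨?_, ?_⟩ <;> simp only [Pi.sub_apply] <;> linarith

theorem chi_hh (ν : Fin 2 → ℤ) (i : Fin 2) : chi ν (hh i) = (ν i : ℂ) := by
  fin_cases i <;> simp [chi, hh, mk, single]

theorem hh_mem_bor (i : Fin 2) : hh i ∈ bor := by
  fin_cases i
  · exact bv_mem 0
  · exact bv_mem 1

section

variable {ν μ : Fin 2 → ℤ}

/-- equivariance for `U(𝔟)` -/
theorem equi_phiB (F : U →ₗ[ℂ] ℂ) (hF : ∀ X ∈ bor, ∀ u : U, F (iU X * u) = chi ν X * F u)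
    (f : UniversalEnvelopingAlgebra ℂ bor →ₐ[ℂ] ℂ)
    (hf : ∀ X : bor, f (UniversalEnvelopingAlgebra.ι ℂ X) = chi ν X)
    (β : UniversalEnvelopingAlgebra ℂ bor) (u : U) : F (phiB β * u) = f β * F u := by
  let B : Subalgebra ℂ (UniversalEnvelopingAlgebra ℂ bor) :=
    { carrier := {β | ∀ u, F (phiB β * u) = f β * F u}
      mul_mem' := fun {a b} ha hb u => by
        rw [map_mul phiB, mul_assoc, ha, hb, map_mul f, mul_assoc]
      add_mem' := fun {a b} ha hb u => by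
        rw [map_add, add_mul, map_add, ha, hb, map_add, add_mul]
      algebraMap_mem' := fun c u => by
        rw [AlgHom.commutes, AlgHom.commutes, ← Algebra.smul_def, map_smul, smul_eq_mul]
        rfl }
  have : β ∈ B := uea_mem B (fun X u => by
    rw [phiB_ι, hF _ X.2, hf]) β
  exact this u

/-- a linear form on `U` with the right equivariance properties -/
theorem wt_vanish (F : U →ₗ[ℂ] ℂ) (hF : ∀ X ∈ bor, ∀ u : U, F (iU X * u) = chi ν X * F u)
    (hμ : ∀ i u, F (u * iU (hh i)) = (μ i : ℂ) * F u) (c : Fin 4 → ℕ)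
    (hc : c ∉ pset (μ - ν)) : F (nb c) = 0 := by
  by_contra h
  apply hc
  rw [mem_pset_iff]
  intro i
  have h1 := hμ i (nb c)
  rw [nb_mul_hh, map_sub, hF _ (hh_mem_bor i), map_smul, chi_hh, smul_eq_mul, ← sub_mul] at h1
  have h2 := mul_right_cancel₀ h h1
  have h3 : ((ν i - nwt c i : ℤ) : ℂ) = ((μ i : ℤ) : ℂ) := by
    rw [← h2, Int.cast_sub]
    rfl
  exact_mod_cast h3

theorem wt_inj (F : U →ₗ[ℂ] ℂ) (hF : ∀ X ∈ bor, ∀ u : U, F (iU X * u) = chi ν X * F u)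
    (hμ : ∀ i u, F (u * iU (hh i)) = (μ i : ℂ) * F u)
    (h0 : ∀ c ∈ pset (μ - ν), F (nb c) = 0) : F = 0 := by
  obtain ⟨f, hf⟩ := exists_chiB ν
  apply left_ext
  intro c β
  rw [equi_phiB F hF f hf]
  by_cases hc : c ∈ pset (μ - ν)
  · rw [h0 c hc]; simp
  · rw [wt_vanish F hF hμ c hc]; simp

theorem wt_surj (g : pset (μ - ν) → ℂ) : ∃ F : U →ₗ[ℂ] ℂ,
    (∀ X ∈ bor, ∀ u : U, F (iU X * u) = chi ν X * F u) ∧
    (∀ i u, F (u * iU (hh i)) = (μ i : ℂ) * F u) ∧ ∀ c : pset (μ - ν), F (nb c) = g c := by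
  classical
  obtain ⟨f, hf⟩ := exists_chiB ν
  let g' : (Fin 4 → ℕ) → ℂ := fun c => if h : c ∈ pset (μ - ν) then g ⟨c, h⟩ else 0
  obtain ⟨F, hF⟩ := left_free (W := ℂ) fun c => g' c • f.toLinearMap
  have hF' : ∀ c β, F (phiB β * nb c) = g' c * f β := fun c β => by
    rw [hF]; rfl
  have e1 : ∀ X ∈ bor, ∀ u : U, F (iU X * u) = chi ν X * F u := by
    intro X hX u
    have : F ∘ₗ LinearMap.mulLeft ℂ (iU X : U) = chi ν X • F := by
      apply left_ext
      intro c β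
      show F (iU X * (phiB β * nb c)) = chi ν X * F (phiB β * nb c)
      rw [← mul_assoc]
      have h1 : (iU X : U) = phiB (UniversalEnvelopingAlgebra.ι ℂ (⟨X, hX⟩ : bor)) := by
        rw [phiB_ι]
      rw [h1, ← map_mul, hF', hF', map_mul, hf]
      ring
    exact congrArg (fun L => L u) this
  refine ⟨F, e1, ?_, ?_⟩
  · intro i u
    have : F ∘ₗ LinearMap.mulRight ℂ (iU (hh i) : U) = (μ i : ℂ) • F := by
      apply left_ext
      intro c β
      show F (phiB β * nb c * iU (hh i)) = (μ i : ℂ) * F (phiB β * nb c)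
      rw [mul_assoc, nb_mul_hh, mul_sub, map_sub, ← mul_assoc]
      have h1 : (iU (hh i) : U) =
          phiB (UniversalEnvelopingAlgebra.ι ℂ (⟨hh i, hh_mem_bor i⟩ : bor)) := by
        rw [phiB_ι]
      rw [h1, ← map_mul, hF', mul_smul_comm, map_smul, hF', map_mul, hf, smul_eq_mul]
      show g' c * (f β * chi ν (hh i)) - ((nwt c i : ℤ) : ℂ) * (g' c * f β) = _
      rw [chi_hh]
      by_cases hc : c ∈ pset (μ - ν)
      · have h2 := (mem_pset_iff ν μ c).1 hc i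
        rw [← h2]
        push_cast
        ring
      · have : g' c = 0 := dif_neg hc
        rw [this]; ring
    exact congrArg (fun L => L u) this
  · intro c
    have := hF' c 1
    rw [map_one, one_mul, map_one, mul_one] at this
    rw [this]
    show (if h : (c : Fin 4 → ℕ) ∈ pset (μ - ν) then g ⟨c, h⟩ else 0) = g c
    rw [dif_pos c.2]

end

theorem wt_V_equiv (ν μ : Fin 2 → ℤ) : Nonempty (wt (V ν) μ ≃ₗ[ℂ] (pset (μ - ν) → ℂ)) := by
  have hb : ∀ F : wt (V ν) μ, ∀ X ∈ bor, ∀ u : U,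
      ((F : V ν) : Vfull ν).1 (iU X * u) = chi ν X * ((F : V ν) : Vfull ν).1 u :=
    fun F => ((F : V ν) : Vfull ν).2
  have hw : ∀ F : wt (V ν) μ, ∀ i, ∀ u : U,
      ((F : V ν) : Vfull ν).1 (u * iU (hh i)) = (μ i : ℂ) * ((F : V ν) : Vfull ν).1 u := by
    intro F i u
    have h := congrArg (fun G : V ν => ((G : Vfull ν).1 : Prd ℂ) u) (F.2 i)
    exact h
  let Ψ : wt (V ν) μ →ₗ[ℂ] (pset (μ - ν) → ℂ) :=
    { toFun := fun F c => ((F : V ν) : Vfull ν).1 (nb c)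
      map_add' := fun _ _ => rfl
      map_smul' := fun _ _ => rfl }
  refine ⟨LinearEquiv.ofBijective Ψ ⟨?_, ?_⟩⟩
  · rw [injective_iff_map_eq_zero]
    intro F hF
    apply Subtype.ext
    apply Subtype.ext
    apply Subtype.ext
    exact wt_inj (ν := ν) (μ := μ) ((F : V ν) : Vfull ν).1 (hb F) (hw F)
      (fun c hc => congrFun hF ⟨c, hc⟩)
  · intro g
    obtain ⟨F, h1, h2, h3⟩ := wt_surj (ν := ν) (μ := μ) g
    let F1 : Vfull ν := ⟨Prd.of F, h1⟩
    have hF1 : F1 ∈ wt (Vfull ν) μ := by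
      intro i
      apply Subtype.ext
      ext u
      exact h2 i u
    let F2 : V ν := ⟨F1, Submodule.mem_iSup_of_mem μ hF1⟩
    have hF2 : F2 ∈ wt (V ν) μ := by
      intro i
      apply Subtype.ext
      exact hF1 i
    exact ⟨⟨F2, hF2⟩, funext fun c => h3 c⟩

end Pool.Agent.MP_e0f57b_al
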