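import Pool.Agent.Lib.MP_e0f57b_al.Comb
import Pool.Agent.Lib.MP_e0f57b_al.Rho
import Pool.Agent.Lib.MP_e0f57b_al.Mult
import Pool.Agent.Lib.MP_e0f57b_al.Lift
import Pool.Agent.Lib.MP_e0f57b_al.VDim
import Pool.Agent.Lib.MP_e0f57b_al.GamV
import Pool.Agent.Lib.MP_e0f57b_al.Coc

/-! The `K`-multiplicities of `A_𝔟(λ)` are unbounded. -/

open Matrix

attribute [local instance 100] LieRing.ofAssociativeRing

namespace Pool.Agent.MP_e0f57b_al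

theorem finrank_wt_V (ν μ : Fin 2 → ℤ) :
    Module.finrank ℂ (wt (V ν) μ) = Nat.card (pset (μ - ν)) := by
  obtain ⟨e⟩ := wt_V_equiv ν μ
  have : Finite (pset (μ - ν)) := (pset_finite _).to_subtype
  have := Fintype.ofFinite (pset (μ - ν))
  rw [e.finrank_eq, Module.finrank_fintype_fun_eq_card, Nat.card_eq_fintype_card]

theorem fd_wt_V (ν μ : Fin 2 → ℤ) : FiniteDimensional ℂ (wt (V ν) μ) := by
  obtain ⟨e⟩ := wt_V_equiv ν μ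
  have : Finite (pset (μ - ν)) := (pset_finite _).to_subtype
  exact Module.Finite.equiv e.symm

theorem Gam_V (ν : Fin 2 → ℤ) (hν : 0 < ν 0 - ν 1) : Gam (V ν) = ⊥ := by
  refine Gam_eq_bot isTMod_Tfin fun μ hμ => ?_
  obtain ⟨e⟩ := wt_V_equiv ν μ
  have hne : (pset (μ - ν)).Nonempty := by
    by_contra h
    rw [Set.not_nonempty_iff_eq_empty] at h
    have : IsEmpty (pset (μ - ν)) := by rw [h]; infer_instance
    apply hμ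
    have : Subsingleton (wt (V ν) μ) := e.toEquiv.subsingleton
    rw [Submodule.eq_bot_iff]
    intro x hx
    have := Subsingleton.elim (⟨x, hx⟩ : wt (V ν) μ) 0
    exact congrArg Subtype.val this
  have := pset_pos _ hne
  simp only [Pi.sub_apply] at this
  omega

theorem fr_ineq (a b : ℤ) (m k : ℕ) (hm : (m : ℤ) = a - b + 4 + 2 * k)
    (g4 : 0 < a + b + 1) (g5 : b < 1) (ν : Fin 2 → ℤ) (h0 : ν 0 = a + 4) (h1 : ν 1 = b - 2) :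
    (k + 1) + Nat.card (pset ((![b - 1 + (m : ℤ), b - 1] : Fin 2 → ℤ) - ν)) +
      Nat.card (pset ((![b - 1, b - 1 + (m : ℤ)] : Fin 2 → ℤ) - ν)) ≤
      Nat.card (pset ((![b - 1 + (m : ℤ) + 1, b - 1 - 1] : Fin 2 → ℤ) - ν)) := by
  have hcard := pset_card k
  have a1 : (![b - 1 + (m : ℤ), b - 1] : Fin 2 → ℤ) - ν = ![2 * (k : ℤ) - 1, 1] := by
    funext i
    fin_cases i
    · simp [h0]; omega
    · simp [h1]
  have a2 : (![b - 1 + (m : ℤ) + 1, b - 1 - 1] : Fin 2 → ℤ) - ν = ![2 * (k : ℤ), 0] := by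
    funext i
    fin_cases i
    · simp [h0]; omega
    · simp [h1]; omega
  have a3 : pset ((![b - 1, b - 1 + (m : ℤ)] : Fin 2 → ℤ) - ν) = ∅ := by
    apply pset_neg
    simp [h0]; omega
  rw [a1, a2, a3]
  simp only [Nat.card_of_isEmpty, add_zero]
  omega

theorem mult_rho {W : Type} [AddCommGroup W] [Module ℂ W] [LieRingModule 𝔤 W]
    [LieModule ℂ 𝔤 W] (hW : IsTMod W) (hG : Gam W = ⊥) (hfd : ∀ μ, FiniteDimensional ℂ (wt W μ))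
    (m : ℕ) (q : ℤ) (ρ : kk →ₗ⁅ℂ⁆ Module.End ℂ (Fin (m + 1) → ℂ)) (h0 : ρ (hk 0) = opH1 m q)
    (h1 : ρ (hk 1) = opH2 m q) (he : ρ ek = opE m) (hf : ρ fk = opF m) (hK : IsKType ρ) (N : ℕ)
    (hN : N + Module.finrank ℂ (wt W ![q + m, q]) + Module.finrank ℂ (wt W ![q, q + m]) ≤
      Module.finrank ℂ (wt W ![q + m + 1, q - 1])) : MultGe ρ (R1 hW) N := by
  obtain ⟨c, hc, hind⟩ : ∃ c : Fin N → (kk →ₗ[ℂ] (Fin (m + 1) → ℂ) →ₗ[ℂ] W),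
      (∀ n, IsCocycle ρ (c n)) ∧
      ∀ (t : Fin N → ℂ) (φ : (Fin (m + 1) → ℂ) →ₗ[ℂ] W),
        (∀ (x : kk) s, ∑ n, t n • c n x s = ⁅(x : 𝔤), φ s⁆ - φ (ρ x s)) → t = 0 :=
    exists_cocycles hfd m q ρ h0 h1 he hf N hN
  have hlift : ∀ n, ∃ ψ : (Fin (m + 1) → ℂ) →ₗ[ℂ] I W, ∀ (x : kk) s,
      ⁅(x : 𝔤), ψ s⁆ = j hW (c n x s) + ψ (ρ x s) := fun n => exists_lift hW ρ hK.2.2 (c n) (hc n)
  have hψ := fun n => (hlift n).choose_spec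
  exact mult_of_cocycles hW hG ρ c _ hψ hind

theorem mult_W {W : Type} [AddCommGroup W] [Module ℂ W] [LieRingModule 𝔤 W]
    [LieModule ℂ 𝔤 W] (hW : IsTMod W) (hG : Gam W = ⊥) (hfd : ∀ μ, FiniteDimensional ℂ (wt W μ))
    (ν : Fin 2 → ℤ) (hfr : ∀ μ, Module.finrank ℂ (wt W μ) = Nat.card (pset (μ - ν)))
    (a b : ℤ) (g4 : 0 < a + b + 1) (g5 : b < 1) (h0 : ν 0 = a + 4) (h1 : ν 1 = b - 2) (k : ℕ) :
    ∃ (m : ℕ) (ρ : kk →ₗ⁅ℂ⁆ Module.End ℂ (Fin (m + 1) → ℂ)), IsKType ρ ∧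
      MultGe ρ (R1 hW) (k + 1) := by
  obtain ⟨m, hm⟩ : ∃ m : ℕ, (m : ℤ) = a - b + 4 + 2 * k :=
    ⟨(a - b + 4 + 2 * k).toNat, Int.toNat_of_nonneg (by omega)⟩
  have hN : (k + 1) + Module.finrank ℂ (wt W ![(b - 1) + (m : ℤ), b - 1]) +
      Module.finrank ℂ (wt W ![b - 1, (b - 1) + (m : ℤ)]) ≤
      Module.finrank ℂ (wt W ![(b - 1) + (m : ℤ) + 1, (b - 1) - 1]) := by
    rw [hfr, hfr, hfr]
    exact fr_ineq a b m k hm g4 g5 ν h0 h1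
  exact (exists_rho m (b - 1)).elim fun ρ h => ⟨m, ρ, h.2.2.2.2,
    mult_rho hW hG hfd m (b - 1) ρ h.1 h.2.1 h.2.2.1 h.2.2.2.1 h.2.2.2.2 (k + 1) hN⟩

/-- `λ` is in the good range: `⟨λ + ρ, β⟩ > 0` for the roots `β` of `𝔲`; `ρ = (2, -1)`. -/
def GoodRange (lam : Fin 2 → ℤ) : Prop :=
  ∀ k ∈ ({2, 3, 4, 5} : Finset (Fin 10)), 0 < (lam 0 + 2) * rt k 0 + (lam 1 - 1) * rt k 1

theorem good_ineq (lam : Fin 2 → ℤ) (hg : GoodRange lam) :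
    0 < lam 0 + lam 1 + 1 ∧ lam 1 < 1 := by
  have g4 := hg 4 (by simp)
  have g5 := hg 5 (by simp)
  have e1 : rt 4 0 = 1 := by decide
  have e2 : rt 4 1 = 1 := by decide
  have e3 : rt 5 0 = 0 := by decide
  have e4 : rt 5 1 = -2 := by decide
  rw [e1, e2] at g4
  rw [e3, e4] at g5
  constructor <;> omega

theorem Ab_mult_aux (lam : Fin 2 → ℤ) (h0 : (lam + twoRho) 0 = lam 0 + 4)
    (h1 : (lam + twoRho) 1 = lam 1 - 2) (g4 : 0 < lam 0 + lam 1 + 1) (g5 : lam 1 < 1)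
    (hν : 0 < (lam + twoRho) 0 - (lam + twoRho) 1) (k : ℕ) :
    ∃ (m : ℕ) (ρ : kk →ₗ⁅ℂ⁆ Module.End ℂ (Fin (m + 1) → ℂ)), IsKType ρ ∧
      MultGe ρ (Ab lam) (k + 1) :=
  mult_W (W := V (lam + twoRho)) isTMod_Tfin (Gam_V _ hν) (fd_wt_V _) (lam + twoRho)
    (finrank_wt_V _) (lam 0) (lam 1) g4 g5 h0 h1 k

theorem lam_rho0 (lam : Fin 2 → ℤ) : (lam + twoRho) 0 = lam 0 + 4 := rfl

theorem lam_rho1 (lam : Fin 2 → ℤ) : (lam + twoRho) 1 = lam 1 - 2 := rfl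

/-- the multiplicity of the `K`-type with highest weight `(λ₁ + 3 + 2k, λ₂ - 1)` is at least
`k + 1` -/
theorem Ab_mult (lam : Fin 2 → ℤ) (hg : GoodRange lam) (k : ℕ) :
    ∃ (m : ℕ) (ρ : kk →ₗ⁅ℂ⁆ Module.End ℂ (Fin (m + 1) → ℂ)), IsKType ρ ∧
      MultGe ρ (Ab lam) (k + 1) :=
  Ab_mult_aux lam (lam_rho0 lam) (lam_rho1 lam) (good_ineq lam hg).1 (good_ineq lam hg).2 (by
    rw [lam_rho0, lam_rho1]
    have h := good_ineq lam hg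
    omega) k

end Pool.Agent.MP_e0f57b_al
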