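import Pool.Agent.Lib.MP_e0f57b_al.Roots

/-!
`(𝔤, T)`-modules, produced modules, the first derived Zuckerman functor, `A_𝔟(λ)`.
-/

open Matrix

attribute [local instance 100] LieRing.ofAssociativeRing

namespace Pool.Agent.MP_e0f57b_al

/-- universal enveloping algebra of `𝔤` -/
abbrev U : Type := UniversalEnvelopingAlgebra ℂ 𝔤

/-- `𝔤 → U(𝔤)` -/
abbrev iU : 𝔤 →ₗ⁅ℂ⁆ U := UniversalEnvelopingAlgebra.ι ℂ

/-- the complexified Lie algebra `𝔨` of `K`: block diagonal matrices -/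
def kk : LieSubalgebra ℂ 𝔤 where
  carrier := {X | ∀ i j, (X : Mat) (.inl i) (.inr j) = 0 ∧ (X : Mat) (.inr i) (.inl j) = 0}
  add_mem' {a b} ha hb i j := by
    refine ⟨?_, ?_⟩
    · show (a : Mat) (.inl i) (.inr j) + (b : Mat) (.inl i) (.inr j) = 0
      rw [(ha i j).1, (hb i j).1, add_zero]
    · show (a : Mat) (.inr i) (.inl j) + (b : Mat) (.inr i) (.inl j) = 0
      rw [(ha i j).2, (hb i j).2, add_zero]
  zero_mem' i j := ⟨rfl, rfl⟩
  smul_mem' c a ha i j := by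
    refine ⟨?_, ?_⟩
    · show c * (a : Mat) (.inl i) (.inr j) = 0
      rw [(ha i j).1, mul_zero]
    · show c * (a : Mat) (.inr i) (.inl j) = 0
      rw [(ha i j).2, mul_zero]
  lie_mem' {a b} ha hb i j := by
    rw [LieSubalgebra.coe_bracket, Ring.lie_def]
    refine ⟨?_, ?_⟩ <;> rw [Matrix.sub_apply, Matrix.mul_apply, Matrix.mul_apply,
      Fintype.sum_sum_type, Fintype.sum_sum_type]
    · simp [fun i j => (ha i j).1, fun i j => (hb i j).1]
    · simp [fun i j => (ha i j).2, fun i j => (hb i j).2]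

section Modules

variable (M : Type*) [AddCommGroup M] [Module ℂ M] [LieRingModule 𝔤 M] [LieModule ℂ 𝔤 M]

/-- weight spaces for `𝔱`, for integral weights (characters of the compact torus `T`) -/
def wt (μ : Fin 2 → ℤ) : Submodule ℂ M where
  carrier := {m | ∀ i, ⁅hh i, m⁆ = ((μ i : ℤ) : ℂ) • m}
  add_mem' {a b} ha hb i := by rw [lie_add, ha i, hb i, smul_add]
  zero_mem' i := by simp
  smul_mem' c a ha i := by rw [lie_smul, ha i, smul_comm]

/-- a `(𝔤, T)`-module: a `𝔤`-module which is the sum of its integral weight spaces -/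
def IsTMod : Prop := ⨆ μ, wt M μ = ⊤

variable {M}

theorem lie_xb_mem_wt {μ : Fin 2 → ℤ} {m : M} (hm : m ∈ wt M μ) (k : Fin 10) :
    ⁅xb k, m⁆ ∈ wt M (μ + rt k) := by
  intro i
  rw [leibniz_lie, lie_hh_xb, hm i, smul_lie, lie_smul, ← add_smul]
  congr 1
  simp [add_comm]

theorem lie_mem_iSup_wt (x : 𝔤) {m : M} (hm : m ∈ ⨆ μ, wt M μ) : ⁅x, m⁆ ∈ ⨆ μ, wt M μ := by
  have key : ∀ k, ⁅xb k, m⁆ ∈ ⨆ μ, wt M μ := by
    intro k
    induction hm using Submodule.iSup_induction' with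
    | mem μ y hy => exact Submodule.mem_iSup_of_mem (μ + rt k) (lie_xb_mem_wt hy k)
    | zero => rw [lie_zero]; exact zero_mem _
    | add y z _ _ h1 h2 => rw [lie_add]; exact add_mem h1 h2
  rw [← sum_co x, sum_lie]
  exact Submodule.sum_mem _ fun k _ => by rw [smul_lie]; exact Submodule.smul_mem _ _ (key k)

variable (M)

/-- the `T`-finite part of a `𝔤`-module: the sum of its integral weight spaces -/
def Tfin : LieSubmodule ℂ 𝔤 M :=
  { (⨆ μ, wt M μ : Submodule ℂ M) with lie_mem := fun {x _} hm => lie_mem_iSup_wt x hm }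

/-- the largest locally `K`-finite submodule of a `𝔤`-module `M`: all vectors lying in a
finite-dimensional `𝔨`-stable subspace. On `(𝔤, T)`-modules this is Zuckerman's functor `Γ`
(`K ≅ U(2)` is connected and the weights are integral, so that such subspaces integrate to `K`). -/
def Gam : LieSubmodule ℂ 𝔤 M where
  carrier := {m | ∃ F : Submodule ℂ M, FiniteDimensional ℂ F ∧
    (∀ x ∈ kk, ∀ f ∈ F, ⁅x, f⁆ ∈ F) ∧ m ∈ F}
  add_mem' := by
    rintro a b ⟨F, hF, hF2, ha⟩ ⟨F', hF', hF2', hb⟩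
    refine ⟨F ⊔ F', inferInstance, ?_, add_mem (le_sup_left (a := F) ha) (le_sup_right (b := F') hb)⟩
    intro x hx f hf
    obtain ⟨y, hy, z, hz, rfl⟩ := Submodule.mem_sup.1 hf
    rw [lie_add]
    exact add_mem (le_sup_left (a := F) (hF2 x hx y hy)) (le_sup_right (b := F') (hF2' x hx z hz))
  zero_mem' := ⟨⊥, inferInstance, by
    intro x _ f hf; rw [Submodule.mem_bot] at hf ⊢; rw [hf, lie_zero], zero_mem _⟩
  smul_mem' := by
    rintro c a ⟨F, hF, hF2, ha⟩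
    exact ⟨F, hF, hF2, F.smul_mem c ha⟩
  lie_mem := by
    rintro x m ⟨F, hF, hF2, hm⟩
    let B : 𝔤 →ₗ[ℂ] M →ₗ[ℂ] M := (LieModule.toEnd ℂ 𝔤 M : 𝔤 →ₗ[ℂ] Module.End ℂ M)
    have hfin : FiniteDimensional ℂ (Submodule.map₂ B ⊤ F) := by
      rw [FiniteDimensional, Module.Finite.iff_fg]
      exact Submodule.FG.map₂ B Module.Finite.fg_top (Module.Finite.iff_fg.1 hF)
    refine ⟨Submodule.map₂ B ⊤ F, hfin, ?_, Submodule.apply_mem_map₂ B trivial hm⟩
    intro y hy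
    have : Submodule.map₂ B ⊤ F ≤ (Submodule.map₂ B ⊤ F).comap (LieModule.toEnd ℂ 𝔤 M y) := by
      rw [Submodule.map₂_le]
      intro z _ u hu
      have h1 : ⁅y, ⁅z, u⁆⁆ = ⁅⁅y, z⁆, u⁆ + ⁅z, ⁅y, u⁆⁆ := leibniz_lie y z u
      show ⁅y, ⁅z, u⁆⁆ ∈ Submodule.map₂ B ⊤ F
      rw [h1]
      exact add_mem (Submodule.apply_mem_map₂ B (m := ⁅y, z⁆) trivial hu)
        (Submodule.apply_mem_map₂ B (m := z) trivial (hF2 y hy u hu))
    exact fun f hf => this hf

end Modules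

/-- the space of all linear maps `U(𝔤) → W`; `𝔤` acts by `(x F)(u) = F (u x)` -/
def Prd (W : Type) [AddCommGroup W] [Module ℂ W] : Type := U →ₗ[ℂ] W
  deriving AddCommGroup, Module ℂ

section Prd

variable {W : Type} [AddCommGroup W] [Module ℂ W]

instance : FunLike (Prd W) U W := inferInstanceAs (FunLike (U →ₗ[ℂ] W) U W)

instance : LinearMapClass (Prd W) ℂ U W := inferInstanceAs (LinearMapClass (U →ₗ[ℂ] W) ℂ U W)

/-- build an element of `Prd W` -/
def Prd.of (F : U →ₗ[ℂ] W) : Prd W := F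

@[simp] theorem Prd.of_apply (F : U →ₗ[ℂ] W) (u : U) : Prd.of F u = F u := rfl

@[ext] theorem Prd.ext {F F' : Prd W} (h : ∀ u, F u = F' u) : F = F' := LinearMap.ext h

@[simp] theorem Prd.add_apply (F F' : Prd W) (u : U) : (F + F') u = F u + F' u := rfl

@[simp] theorem Prd.smul_apply (c : ℂ) (F : Prd W) (u : U) : (c • F) u = c • F u := rfl

@[simp] theorem Prd.zero_apply (u : U) : (0 : Prd W) u = 0 := rfl

instance : Bracket 𝔤 (Prd W) := ⟨fun x F => Prd.of (F ∘ₗ LinearMap.mulRight ℂ (iU x))⟩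

theorem Prd.lie_apply (x : 𝔤) (F : Prd W) (u : U) : ⁅x, F⁆ u = F (u * iU x) := rfl

instance : LieRingModule 𝔤 (Prd W) where
  add_lie x y F := by ext u; simp [Prd.lie_apply, mul_add]
  lie_add x F F' := by ext u; simp [Prd.lie_apply]
  leibniz_lie x y F := by
    ext u
    simp only [Prd.lie_apply, Prd.add_apply]
    rw [LieHom.map_lie, Ring.lie_def, mul_sub, map_sub, mul_assoc, mul_assoc]
    abel

instance : LieModule ℂ 𝔤 (Prd W) where
  smul_lie c x F := by ext u; simp [Prd.lie_apply]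
  lie_smul c x F := by ext u; simp [Prd.lie_apply]

end Prd

/-- the `θ`-stable Borel subalgebra `𝔟` with positive roots `e₁-e₂, 2e₁, e₁+e₂, -2e₂`: the matrices
of `𝔤` preserving the flag with heights `2, -1 | -2, 1`. -/
def hgt : Ix → ℤ := Sum.elim ![2, -1] ![-2, 1]

/-- the parabolic subalgebra of all `X ∈ 𝔤` with `X i j = 0` whenever `d i < d j` -/
def par (d : Ix → ℤ) : LieSubalgebra ℂ 𝔤 where
  carrier := {X | ∀ i j, d i < d j → (X : Mat) i j = 0}
  add_mem' {a b} ha hb i j h := by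
    show (a : Mat) i j + (b : Mat) i j = 0
    rw [ha i j h, hb i j h, add_zero]
  zero_mem' i j _ := rfl
  smul_mem' c a ha i j h := by
    show c * (a : Mat) i j = 0
    rw [ha i j h, mul_zero]
  lie_mem' {a b} ha hb i j h := by
    rw [LieSubalgebra.coe_bracket, Ring.lie_def, Matrix.sub_apply, Matrix.mul_apply,
      Matrix.mul_apply]
    rw [Finset.sum_eq_zero, Finset.sum_eq_zero, sub_zero]
    · intro k _
      rcases lt_or_ge (d i) (d k) with h1 | h1
      · rw [hb i k h1, zero_mul]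
      · rw [ha k j (by omega), mul_zero]
    · intro k _
      rcases lt_or_ge (d i) (d k) with h1 | h1
      · rw [ha i k h1, zero_mul]
      · rw [hb k j (by omega), mul_zero]

/-- the Borel subalgebra `𝔟` -/
abbrev bor : LieSubalgebra ℂ 𝔤 := par hgt

/-- the linear form on `𝔤` which restricts to the character `ν` of `𝔟` -/
def chi (ν : Fin 2 → ℤ) : 𝔤 →ₗ[ℂ] ℂ where
  toFun X := (ν 0 : ℂ) * (X : Mat) (.inl 0) (.inl 0) + (ν 1 : ℂ) * (X : Mat) (.inl 1) (.inl 1)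
  map_add' X Y := by
    show (ν 0 : ℂ) * ((X : Mat) _ _ + (Y : Mat) _ _) + (ν 1 : ℂ) * ((X : Mat) _ _ + (Y : Mat) _ _) = _
    ring
  map_smul' c X := by
    show (ν 0 : ℂ) * (c * (X : Mat) _ _) + (ν 1 : ℂ) * (c * (X : Mat) _ _) = c * (_ + _)
    ring

/-- `Hom_{U(𝔟)}(U(𝔤), ℂ_ν)` -/
def Vfull (ν : Fin 2 → ℤ) : LieSubmodule ℂ 𝔤 (Prd ℂ) where
  carrier := {F | ∀ X ∈ bor, ∀ u : U, F (iU X * u) = chi ν X * F u}
  add_mem' {a b} ha hb X hX u := by
    rw [Prd.add_apply, Prd.add_apply, ha X hX, hb X hX, mul_add]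
  zero_mem' X _ u := by simp
  smul_mem' c a ha X hX u := by
    rw [Prd.smul_apply, Prd.smul_apply, ha X hX, smul_eq_mul, smul_eq_mul]; ring
  lie_mem {x m} hm X hX u := by
    rw [Prd.lie_apply, Prd.lie_apply, mul_assoc]; exact hm X hX _

/-- `V(ν) = pro_𝔟^𝔤 (ℂ_ν)`, the `T`-finite part of `Hom_{U(𝔟)}(U(𝔤), ℂ_ν)` -/
abbrev V (ν : Fin 2 → ℤ) : Type := Tfin (Vfull ν)

section Inj

variable (W : Type) [AddCommGroup W] [Module ℂ W] [LieRingModule 𝔤 W] [LieModule ℂ 𝔤 W]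

/-- `Hom_{U(𝔱)}(U(𝔤), W)` -/
def Ifull : LieSubmodule ℂ 𝔤 (Prd W) where
  carrier := {F | ∀ i, ∀ u : U, F (iU (hh i) * u) = ⁅hh i, F u⁆}
  add_mem' {a b} ha hb i u := by
    rw [Prd.add_apply, Prd.add_apply, ha i, hb i, lie_add]
  zero_mem' i u := by simp
  smul_mem' c a ha i u := by
    rw [Prd.smul_apply, Prd.smul_apply, ha i, lie_smul]
  lie_mem {x m} hm i u := by
    rw [Prd.lie_apply, Prd.lie_apply, mul_assoc]; exact hm i _

/-- `I(W)`: the `T`-finite part of `Hom_{U(𝔱)}(U(𝔤), W)`, the standard injective `(𝔤, T)`-module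
containing the `(𝔤, T)`-module `W` -/
abbrev I : Type := Tfin (Ifull W)

/-- the action of `U(𝔤)` on a `𝔤`-module -/
def act : U →ₐ[ℂ] Module.End ℂ W := UniversalEnvelopingAlgebra.lift ℂ (LieModule.toEnd ℂ 𝔤 W)

variable {W}

@[simp] theorem act_iU (x : 𝔤) (w : W) : act W (iU x) w = ⁅x, w⁆ := by
  simp [act]

/-- the embedding of `W` into `Hom_{U(𝔱)}(U(𝔤), W)` -/
def jfull : W →ₗ⁅ℂ, 𝔤⁆ Ifull W where
  toFun w := ⟨Prd.of ((act W).toLinearMap.flip w), by
    intro i u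
    show act W (iU (hh i) * u) w = ⁅hh i, act W u w⁆
    rw [map_mul, Module.End.mul_apply, act_iU]⟩
  map_add' w w' := by
    apply Subtype.ext; ext u
    show act W u (w + w') = act W u w + act W u w'
    rw [map_add]
  map_smul' c w := by
    apply Subtype.ext; ext u
    show act W u (c • w) = c • act W u w
    rw [map_smul]
  map_lie' {x w} := by
    apply Subtype.ext; ext u
    show act W u ⁅x, w⁆ = act W (u * iU x) w
    rw [map_mul, Module.End.mul_apply, act_iU]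

end Inj

section Derived

variable {M N : Type*} [AddCommGroup M] [Module ℂ M] [LieRingModule 𝔤 M] [LieModule ℂ 𝔤 M]
  [AddCommGroup N] [Module ℂ N] [LieRingModule 𝔤 N] [LieModule ℂ 𝔤 N]

theorem map_mem_wt (f : M →ₗ⁅ℂ, 𝔤⁆ N) {μ : Fin 2 → ℤ} {m : M} (hm : m ∈ wt M μ) :
    f m ∈ wt N μ := fun i => by rw [← LieModuleHom.map_lie, hm i, map_smul]

theorem map_mem_Tfin (f : M →ₗ⁅ℂ, 𝔤⁆ N) {m : M} (hm : m ∈ Tfin M) : f m ∈ Tfin N := by
  have hm' : m ∈ ⨆ μ, wt M μ := hm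
  show f m ∈ ⨆ μ, wt N μ
  induction hm' using Submodule.iSup_induction' with
  | mem μ y hy => exact Submodule.mem_iSup_of_mem μ (map_mem_wt f hy)
  | zero => rw [map_zero]; exact zero_mem _
  | add y z hy hz h1 h2 => rw [map_add]; exact add_mem (h1 hy) (h2 hz)

theorem isTMod_Tfin : IsTMod (Tfin M) := by
  rw [IsTMod, eq_top_iff]
  rintro ⟨m, hm⟩ -
  have hm' : m ∈ ⨆ μ, wt M μ := hm
  induction hm' using Submodule.iSup_induction' with
  | mem μ y hy =>
    refine Submodule.mem_iSup_of_mem μ fun i => ?_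
    apply Subtype.ext
    exact hy i
  | zero => exact zero_mem _
  | add y z hy hz h1 h2 => exact add_mem (h1 hy) (h2 hz)

variable {W : Type} [AddCommGroup W] [Module ℂ W] [LieRingModule 𝔤 W] [LieModule ℂ 𝔤 W]

/-- the embedding `W → I(W)`, `w ↦ (u ↦ u w)` of a `(𝔤, T)`-module `W` -/
def j (hW : IsTMod W) : W →ₗ⁅ℂ, 𝔤⁆ I W where
  toFun w := ⟨jfull w, map_mem_Tfin jfull (by
    show w ∈ ⨆ μ, wt W μ
    rw [show (⨆ μ, wt W μ) = ⊤ from hW]; trivial)⟩
  map_add' w w' := by apply Subtype.ext; exact map_add jfull w w'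
  map_smul' c w := by apply Subtype.ext; exact map_smul jfull c w
  map_lie' {x w} := by apply Subtype.ext; exact LieModuleHom.map_lie jfull x w

/-- `I(W)/W` -/
abbrev Qt (hW : IsTMod W) : Type := I W ⧸ (j hW).range

/-- the projection `I(W) → I(W)/W` -/
abbrev pr (hW : IsTMod W) : I W →ₗ⁅ℂ, 𝔤⁆ Qt hW := LieSubmodule.Quotient.mk' (j hW).range

/-- The first derived Zuckerman functor `R¹Γ (W) = Γ(I(W)/W) / im (Γ(I(W)))`. -/
abbrev R1 (hW : IsTMod W) : Type :=
  Gam (Qt hW) ⧸ ((Gam (I W)).map (pr hW)).comap (Gam (Qt hW)).incl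

/-- the weight `2ρ(𝔲) = (e₁-e₂) + 2e₁ + (e₁+e₂) - 2e₂` -/
def twoRho : Fin 2 → ℤ := ![4, -2]

/-- `A_𝔟(λ) = R¹Γ (pro_𝔟^𝔤 (ℂ_λ ⊗ Λ^top 𝔲))`, for an integral weight `λ`, i.e. a character of `T` -/
abbrev Ab (lam : Fin 2 → ℤ) : Type := R1 (W := V (lam + twoRho)) isTMod_Tfin

end Derived

end Pool.Agent.MP_e0f57b_al
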