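import Pool.Agent.Lib.MP_e0f57b_al.Omon
import Pool.Agent.Lib.MP_e0f57b_al.UEA

/-! The easy half of the Poincare-Birkhoff-Witt theorem: ordered monomials span. -/

open Matrix

attribute [local instance 100] LieRing.ofAssociativeRing

namespace Pool.Agent.MP_e0f57b_al

section aux

variable {A : Type*} [Ring A] [Algebra ℂ A] {n : ℕ}

/-- span of the products of fewer than `d` of the `y i` -/
def wsp (y : Fin n → A) (d : ℕ) : Submodule ℂ A :=
  Submodule.span ℂ {u | ∃ l : List (Fin n), l.length < d ∧ u = (l.map y).prod}

theorem wsp_mono (y : Fin n → A) {d e : ℕ} (h : d ≤ e) : wsp y d ≤ wsp y e := by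
  apply Submodule.span_mono
  rintro u ⟨l, hl, rfl⟩
  exact ⟨l, by omega, rfl⟩

theorem mul_wsp (y : Fin n → A) (i : Fin n) {d : ℕ} {u : A} (hu : u ∈ wsp y d) :
    y i * u ∈ wsp y (d + 1) := by
  have : wsp y d ≤ (wsp y (d + 1)).comap (LinearMap.mulLeft ℂ (y i)) := by
    apply Submodule.span_le.2
    rintro u ⟨l, hl, rfl⟩
    apply Submodule.subset_span
    exact ⟨i :: l, by simpa using hl, by simp⟩
  exact this hu

theorem perm_wsp (y : Fin n → A)
    (hy : ∀ i j, y i * y j - y j * y i ∈ Submodule.span ℂ (Set.range y))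
    {l l' : List (Fin n)} (h : l.Perm l') :
    (l.map y).prod - (l'.map y).prod ∈ wsp y l.length := by
  induction h with
  | nil => simp
  | cons x h ih =>
    rw [List.map_cons, List.map_cons, List.prod_cons, List.prod_cons, ← mul_sub, List.length_cons]
    exact mul_wsp y x ih
  | swap a b l =>
    have e : ((b :: a :: l).map y).prod - ((a :: b :: l).map y).prod
        = (y b * y a - y a * y b) * (l.map y).prod := by
      simp only [List.map_cons, List.prod_cons]
      noncomm_ring
    rw [e]
    have : Submodule.span ℂ (Set.range y) ≤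
        (wsp y (b :: a :: l).length).comap (LinearMap.mulRight ℂ (l.map y).prod) := by
      apply Submodule.span_le.2
      rintro _ ⟨k, rfl⟩
      apply Submodule.subset_span
      exact ⟨k :: l, by simp, by simp⟩
    exact this (hy b a)
  | trans h1 h2 ih1 ih2 =>
    rename_i l1 l2 l3
    have e : (l1.map y).prod - (l3.map y).prod
        = ((l1.map y).prod - (l2.map y).prod) + ((l2.map y).prod - (l3.map y).prod) := by abel
    rw [e]
    apply add_mem ih1
    rw [h1.length_eq]
    exact ih2

/-- the sorted list with given multiplicities -/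
def srt (a : Fin n → ℕ) : List (Fin n) := (List.ofFn fun i => List.replicate (a i) i).flatten

omit [Algebra ℂ A] in
theorem srt_prod (y : Fin n → A) (a : Fin n → ℕ) : ((srt a).map y).prod = omon y a := by
  rw [srt, omon, List.map_flatten, List.prod_flatten, List.map_ofFn, List.map_ofFn]
  congr 2
  funext i
  simp

theorem srt_count (a : Fin n → ℕ) (j : Fin n) : (srt a).count j = a j := by
  rw [srt, List.count_flatten, List.map_ofFn, List.sum_ofFn]
  rw [Finset.sum_eq_single j]
  · simp
  · intro i _ hi
    simp [List.count_replicate, hi]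
  · simp

theorem wsp_le (y : Fin n → A)
    (hy : ∀ i j, y i * y j - y j * y i ∈ Submodule.span ℂ (Set.range y)) (d : ℕ) :
    wsp y d ≤ Submodule.span ℂ (Set.range fun a : Fin n → ℕ => omon y a) := by
  induction d with
  | zero =>
    apply Submodule.span_le.2
    rintro u ⟨l, hl, rfl⟩
    omega
  | succ d ih =>
    apply Submodule.span_le.2
    rintro u ⟨l, hl, rfl⟩
    have hp : l.Perm (srt fun i => l.count i) := by
      rw [List.perm_iff_count]
      intro j
      rw [srt_count]
    have h1 := perm_wsp y hy hp
    have h2 := ih (wsp_mono y (Nat.lt_succ_iff.1 hl) h1)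
    rw [srt_prod] at h2
    have h3 : omon y (fun i => l.count i) ∈
        Submodule.span ℂ (Set.range fun a : Fin n → ℕ => omon y a) :=
      Submodule.subset_span ⟨_, rfl⟩
    have := add_mem h2 h3
    simpa using this

end aux

theorem omon_span {L : Type*} [LieRing L] [LieAlgebra ℂ L] {n : ℕ} (x : Fin n → L)
    (hx : Submodule.span ℂ (Set.range x) = ⊤) :
    Submodule.span ℂ (Set.range fun a : Fin n → ℕ =>
      omon (fun i => UniversalEnvelopingAlgebra.ι ℂ (x i)) a) = ⊤ := by
  set y : Fin n → UniversalEnvelopingAlgebra ℂ L :=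
    fun i => UniversalEnvelopingAlgebra.ι ℂ (x i) with hydef
  have hι : ∀ z : L, UniversalEnvelopingAlgebra.ι ℂ z ∈ Submodule.span ℂ (Set.range y) := by
    intro z
    have hz : z ∈ Submodule.span ℂ (Set.range x) := by rw [hx]; trivial
    have : Submodule.span ℂ (Set.range x) ≤ (Submodule.span ℂ (Set.range y)).comap
        (UniversalEnvelopingAlgebra.ι ℂ : L →ₗ⁅ℂ⁆ UniversalEnvelopingAlgebra ℂ L).toLinearMap := by
      apply Submodule.span_le.2
      rintro _ ⟨i, rfl⟩
      exact Submodule.subset_span ⟨i, rfl⟩
    exact this hz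
  have hy : ∀ i j, y i * y j - y j * y i ∈ Submodule.span ℂ (Set.range y) := by
    intro i j
    have h := hι ⁅x i, x j⁆
    rw [LieHom.map_lie, Ring.lie_def] at h
    exact h
  rw [eq_top_iff]
  intro u _
  have hu : u ∈ Algebra.adjoin ℂ (Set.range y) := by
    apply uea_mem
    intro z
    have : Submodule.span ℂ (Set.range y) ≤
        Subalgebra.toSubmodule (Algebra.adjoin ℂ (Set.range y)) :=
      Submodule.span_le.2 Algebra.subset_adjoin
    exact this (hι z)
  rw [← Subalgebra.mem_toSubmodule, Algebra.adjoin_eq_span] at hu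
  have : Submodule.span ℂ (Submonoid.closure (Set.range y) :
      Set (UniversalEnvelopingAlgebra ℂ L)) ≤
      Submodule.span ℂ (Set.range fun a : Fin n → ℕ => omon y a) := by
    apply Submodule.span_le.2
    intro v hv
    obtain ⟨l, hl, rfl⟩ := Submonoid.exists_list_of_mem_closure hv
    have : ∃ l' : List (Fin n), l'.map y = l := by
      clear hv
      induction l with
      | nil => exact ⟨[], rfl⟩
      | cons a l ih =>
        obtain ⟨l', hl'⟩ := ih fun z hz => hl z (List.mem_cons_of_mem _ hz)
        obtain ⟨i, hi⟩ := hl a (List.mem_cons_self)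
        exact ⟨i :: l', by simp [hl', hi]⟩
    obtain ⟨l', rfl⟩ := this
    exact wsp_le y hy (l'.length + 1) (Submodule.subset_span ⟨l', Nat.lt_succ_self _, rfl⟩)
  exact this hu

end Pool.Agent.MP_e0f57b_al
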