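import Pool.Agent.Lib.MP_e0f57b_al.Defs

/-! The weight basis of `sp(4, ℂ)`. -/

open Matrix

attribute [local instance 100] LieRing.ofAssociativeRing

namespace Pool.Agent.MP_e0f57b_al

/-- the weight basis of `𝔤`: first `𝔱`, then the positive roots `e₁-e₂, 2e₁, e₁+e₂, -2e₂` of the
Borel subalgebra `bor`, then their negatives. -/
def xb : Fin 10 → 𝔤 :=
  ![hh 0, hh 1,
    mk (single 0 1 1) 0 0 (by simp) (by simp),
    mk 0 (single 0 0 1) 0 (by simp) (by simp),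
    mk 0 (single 0 1 1 + single 1 0 1) 0 (by simp [add_comm]) (by simp),
    mk 0 0 (single 1 1 1) (by simp) (by simp),
    mk (single 1 0 1) 0 0 (by simp) (by simp),
    mk 0 0 (single 0 0 1) (by simp) (by simp),
    mk 0 0 (single 0 1 1 + single 1 0 1) (by simp) (by simp [add_comm]),
    mk 0 (single 1 1 1) 0 (by simp) (by simp)]

/-- the weights of `xb` -/
def rt : Fin 10 → Fin 2 → ℤ :=
  ![![0, 0], ![0, 0], ![1, -1], ![2, 0], ![1, 1], ![0, -2], ![-1, 1], ![-2, 0], ![-1, -1], ![0, 2]]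

theorem lie_hh_xb (i : Fin 2) (k : Fin 10) : ⁅hh i, xb k⁆ = ((rt k i : ℤ) : ℂ) • xb k := by
  apply Subtype.ext
  rw [LieSubalgebra.coe_bracket, Ring.lie_def]
  fin_cases i <;> fin_cases k <;>
  · ext a b
    rcases a with a | a <;> rcases b with b | b <;> fin_cases a <;> fin_cases b <;>
      simp [xb, rt, hh, mk, fromBlocks_multiply, Matrix.mul_apply, single] <;> norm_num

/-- entries of a matrix of `𝔤` -/
theorem entries (X : 𝔤) :
    (∀ i j, (X : Mat) (.inr i) (.inr j) = - (X : Mat) (.inl j) (.inl i)) ∧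
    (∀ i j, (X : Mat) (.inl i) (.inr j) = (X : Mat) (.inl j) (.inr i)) ∧
    (∀ i j, (X : Mat) (.inr i) (.inl j) = (X : Mat) (.inr j) (.inl i)) := by
  have h := (mem_g_iff (X : Mat)).1 X.2
  rw [← fromBlocks_toBlocks (X : Mat), Jm, Matrix.J, fromBlocks_transpose, fromBlocks_neg,
    fromBlocks_multiply, fromBlocks_multiply, fromBlocks_inj] at h
  obtain ⟨h1, h2, h3, h4⟩ := h
  simp only [Matrix.mul_zero, Matrix.mul_one, Matrix.zero_mul, Matrix.one_mul, Matrix.mul_neg,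
    Matrix.neg_mul, zero_add, add_zero, neg_neg] at h1 h2 h3 h4
  refine ⟨fun i j => ?_, fun i j => ?_, fun i j => ?_⟩
  · have := congrFun (congrFun h2 i) j
    simp [toBlocks₁₁, toBlocks₂₂] at this
    exact this.symm
  · have := congrFun (congrFun h4 i) j
    simp [toBlocks₁₂] at this
    exact this.symm
  · have := congrFun (congrFun h1 i) j
    simp [toBlocks₂₁] at this
    exact this.symm

/-- coordinates with respect to `xb` -/
def co : Fin 10 → 𝔤 →ₗ[ℂ] ℂ :=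
  ![⟨⟨fun X => (X : Mat) (.inl 0) (.inl 0), fun _ _ => rfl⟩, fun _ _ => rfl⟩,
    ⟨⟨fun X => (X : Mat) (.inl 1) (.inl 1), fun _ _ => rfl⟩, fun _ _ => rfl⟩,
    ⟨⟨fun X => (X : Mat) (.inl 0) (.inl 1), fun _ _ => rfl⟩, fun _ _ => rfl⟩,
    ⟨⟨fun X => (X : Mat) (.inl 0) (.inr 0), fun _ _ => rfl⟩, fun _ _ => rfl⟩,
    ⟨⟨fun X => (X : Mat) (.inl 0) (.inr 1), fun _ _ => rfl⟩, fun _ _ => rfl⟩,
    ⟨⟨fun X => (X : Mat) (.inr 1) (.inl 1), fun _ _ => rfl⟩, fun _ _ => rfl⟩,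
    ⟨⟨fun X => (X : Mat) (.inl 1) (.inl 0), fun _ _ => rfl⟩, fun _ _ => rfl⟩,
    ⟨⟨fun X => (X : Mat) (.inr 0) (.inl 0), fun _ _ => rfl⟩, fun _ _ => rfl⟩,
    ⟨⟨fun X => (X : Mat) (.inr 0) (.inl 1), fun _ _ => rfl⟩, fun _ _ => rfl⟩,
    ⟨⟨fun X => (X : Mat) (.inl 1) (.inr 1), fun _ _ => rfl⟩, fun _ _ => rfl⟩]

theorem sum_co (X : 𝔤) : ∑ k, co k X • xb k = X := by
  obtain ⟨h1, h2, h3⟩ := entries X
  apply Subtype.ext
  rw [AddSubmonoidClass.coe_finsetSum]
  ext a b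
  rcases a with a | a <;> rcases b with b | b <;> fin_cases a <;> fin_cases b <;>
    simp [Fin.sum_univ_succ, xb, co, hh, mk, Matrix.add_apply, single, h1, h2 1 0, h3 1 0]

theorem co_xb (j k : Fin 10) : co j (xb k) = if j = k then 1 else 0 := by
  fin_cases j <;> fin_cases k <;> simp [xb, co, hh, mk, single]

theorem span_xb : Submodule.span ℂ (Set.range xb) = ⊤ := by
  rw [eq_top_iff]
  intro X _
  rw [← sum_co X]
  exact Submodule.sum_mem _ fun k _ => Submodule.smul_mem _ _ (Submodule.subset_span ⟨k, rfl⟩)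

theorem indep_xb : LinearIndependent ℂ xb := by
  rw [Fintype.linearIndependent_iff]
  intro g hg j
  have := congrArg (co j) hg
  simpa [co_xb] using this

end Pool.Agent.MP_e0f57b_al
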