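import Pool.Agent.Lib.MP_e0f57b_al.FDefs

/-! Auxiliary file for `Uni.lean`: the completion has the multiplicities of the module. -/

open Matrix

attribute [local instance 100] LieRing.ofAssociativeRing

namespace Pool.Agent.MP_e0f57b_al

namespace UniAux

theorem flow {E H : Type*} [NormedAddCommGroup E] [NormedSpace ℝ E] [FiniteDimensional ℝ E]
    [NormedAddCommGroup H] [NormedSpace ℝ H] (P : ℝ → (H →L[ℝ] H)) (hP0 : ∀ w, P 0 w = w)
    (D : E →L[ℝ] E) (T : E →ₗ[ℝ] H)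
    (hd : ∀ (v : E) (t : ℝ), HasDerivAt (fun t => P t (T v)) (P t (T (D v))) t)
    (t : ℝ) (v : E) : P t (T v) = T (NormedSpace.exp (t • D) v) := by
  have : CompleteSpace E := FiniteDimensional.complete ℝ E
  have key : ∀ (w : E) (t : ℝ), P t (T (NormedSpace.exp ((-t) • D) w)) = T w := by
    intro w
    let c : ℝ → E := fun u => NormedSpace.exp ((-u) • D) w
    have hc : ∀ u, HasDerivAt c (-(D (c u))) u := by
      intro u
      have h1 : HasDerivAt (fun s : ℝ => NormedSpace.exp (s • D)) (D * NormedSpace.exp ((-u) • D)) (-u) :=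
        hasDerivAt_exp_smul_const' D (-u)
      have h2 := h1.scomp u (hasDerivAt_neg u)
      have h3 := h2.clm_apply (hasDerivAt_const u w)
      refine h3.congr_deriv ?_
      simp [c]
    let b := Module.finBasis ℝ E
    have hF : ∀ u, HasDerivAt (fun u => P u (T (c u))) 0 u := by
      intro u
      have hco : ∀ i, HasDerivAt (fun u => b.repr (c u) i) (b.repr (-(D (c u))) i) u := by
        intro i
        have := ((LinearMap.toContinuousLinearMap (b.coord i)).hasFDerivAt (x := c u)).comp_hasDerivAt u (hc u)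
        exact this
      have e1 : (fun u => P u (T (c u))) = fun u => ∑ i, (b.repr (c u) i) • P u (T (b i)) := by
        funext u
        conv_lhs => rw [← b.sum_repr (c u), map_sum, map_sum]
        simp only [map_smul]
      rw [e1]
      have h := HasDerivAt.fun_sum (u := Finset.univ) (fun i _ => (hco i).smul (hd (b i) u))
      refine h.congr_deriv ?_
      rw [Finset.sum_add_distrib]
      have e2 : ∑ i, (b.repr (c u) i) • P u (T (D (b i))) = P u (T (D (c u))) := by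
        conv_rhs => rw [← b.sum_repr (c u), map_sum, map_sum, map_sum]
        simp only [map_smul]
      have e3 : ∑ i, (b.repr (-(D (c u))) i) • P u (T (b i)) = P u (T (-(D (c u)))) := by
        conv_rhs => rw [← b.sum_repr (-(D (c u))), map_sum, map_sum]
        simp only [map_smul]
      rw [e2, e3]
      simp
    have hconst := is_const_of_deriv_eq_zero (f := fun u => P u (T (c u)))
      (fun u => (hF u).differentiableAt) (fun u => (hF u).deriv)
    intro t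
    have := hconst t 0
    simp only [c] at this
    rw [this, hP0]
    simp
  have h := key (NormedSpace.exp (t • D) v) t
  rw [← h]
  congr 2
  have : NormedSpace.exp ((-t) • D) * NormedSpace.exp (t • D) = (1 : E →L[ℝ] E) := by
    let _ : NormedAlgebra ℚ (E →L[ℝ] E) := NormedAlgebra.restrictScalars ℚ ℝ (E →L[ℝ] E)
    rw [← NormedSpace.exp_add_of_commute]
    · rw [← add_smul]; simp
    · exact ((Commute.refl D).smul_left _).smul_right _
  have h2 := congrArg (fun L : E →L[ℝ] E => L v) this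
  simpa using h2.symm



theorem exp_add_g {X : g0} {γ : ℝ → G} (hγ : ∀ t : ℝ, IsExp (t • X) (γ t)) (s t : ℝ) :
    γ (s + t) = γ s * γ t := by
  apply Subtype.ext
  apply Units.ext
  have e : ∀ u, ((γ u : Matˣ) : Mat) = NormedSpace.exp (u • (X : Mat)) := fun u => hγ u
  show ((γ (s + t) : Matˣ) : Mat) = ((γ s : Matˣ) : Mat) * ((γ t : Matˣ) : Mat)
  rw [e, e, e, add_smul]
  exact Matrix.exp_add_of_commute _ _ (((Commute.refl (X : Mat)).smul_left _).smul_right _)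

theorem exp_zero_g {X : g0} {γ : ℝ → G} (hγ : ∀ t : ℝ, IsExp (t • X) (γ t)) : γ 0 = 1 := by
  apply Subtype.ext
  apply Units.ext
  have e : ∀ u, ((γ u : Matˣ) : Mat) = NormedSpace.exp (u • (X : Mat)) := fun u => hγ u
  show ((γ 0 : Matˣ) : Mat) = 1
  rw [e, zero_smul, NormedSpace.exp_zero]

/-- elements of `𝔤₀ ∩ 𝔨` are skew-Hermitian -/
theorem skew {X : g0} (hX : (⟨(X : Mat), X.2.1⟩ : 𝔤) ∈ kk) : (X : Mat)ᴴ = -(X : Mat) := by
  have h := X.2.2
  have hc : Hm * (X : Mat) = (X : Mat) * Hm := by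
    ext i j
    have h1 : ∀ i j, (X : Mat) (.inl i) (.inr j) = 0 := fun i j => (hX i j).1
    have h2 : ∀ i j, (X : Mat) (.inr i) (.inl j) = 0 := fun i j => (hX i j).2
    rw [← fromBlocks_toBlocks (X : Mat)]
    have e12 : toBlocks₁₂ (X : Mat) = 0 := by ext i j; exact h1 i j
    have e21 : toBlocks₂₁ (X : Mat) = 0 := by ext i j; exact h2 i j
    rw [e12, e21]
    simp [Hm, fromBlocks_multiply]
  rw [hc, ← add_mul] at h
  have hH : Hm * Hm = 1 := by
    simp [Hm, fromBlocks_multiply]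
  have h3 : ((X : Mat)ᴴ + (X : Mat)) * Hm * Hm = 0 := by rw [h, zero_mul]
  rw [Matrix.mul_assoc, hH, Matrix.mul_one] at h3
  exact eq_neg_of_add_eq_zero_left h3

theorem exp_mem_K {X : g0} (hX : (⟨(X : Mat), X.2.1⟩ : 𝔤) ∈ kk) {g : G} (t : ℝ)
    (hg : IsExp (t • X) g) : (g : Matˣ) ∈ K := by
  refine ⟨g.2, ?_⟩
  have e : ((g : Matˣ) : Mat) = NormedSpace.exp (t • (X : Mat)) := hg
  rw [e, ← Matrix.exp_conjTranspose]
  have : (t • (X : Mat))ᴴ = -(t • (X : Mat)) := by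
    rw [conjTranspose_smul, skew hX]
    simp
  rw [this]
  rw [← Matrix.exp_add_of_commute _ _ ((Commute.refl (t • (X : Mat))).neg_left)]
  simp

theorem conjT_mem {M : Mat} (hM : M ∈ 𝔤) : Mᴴ ∈ 𝔤 := by
  rw [mem_g_iff] at hM ⊢
  have hJ : Jm * Jm = -1 := by
    simp [Jm, Matrix.J, fromBlocks_multiply, ← fromBlocks_one, fromBlocks_neg]
  have hJH : Jmᴴ = -Jm := by
    simp [Jm, Matrix.J, fromBlocks_conjTranspose, fromBlocks_neg]
  have h1 : M * Jm = -(Jm * Mᵀ) := by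
    have h2 : Jm * (Mᵀ * Jm) * Jm = Jm * (Jm * (-M)) * Jm := by rw [hM]
    have h3 : Jm * (Mᵀ * Jm) * Jm = Jm * Mᵀ * (Jm * Jm) := by simp only [Matrix.mul_assoc]
    have h4 : Jm * (Jm * (-M)) * Jm = (Jm * Jm) * (-M) * Jm := by simp only [Matrix.mul_assoc]
    rw [h3, h4, hJ] at h2
    simp at h2
    rw [← h2]
  have h5 := congrArg conjTranspose h1
  rw [conjTranspose_neg, conjTranspose_mul, conjTranspose_mul, hJH] at h5
  have h6 : Mᵀᴴ = Mᴴᵀ := rfl
  rw [h6, Matrix.mul_neg, neg_neg] at h5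
  rw [← h5]
  simp

theorem mem_g0 {Y : Mat} (hY : Y ∈ 𝔤) (h1 : ∀ i j, Y (.inl i) (.inr j) = 0)
    (h2 : ∀ i j, Y (.inr i) (.inl j) = 0) (hs : Yᴴ = -Y) : Y ∈ g0 := by
  refine ⟨hY, ?_⟩
  have hc : Hm * Y = Y * Hm := by
    rw [← fromBlocks_toBlocks Y]
    have e12 : toBlocks₁₂ Y = 0 := by ext i j; exact h1 i j
    have e21 : toBlocks₂₁ Y = 0 := by ext i j; exact h2 i j
    rw [e12, e21]
    simp [Hm, fromBlocks_multiply]
  rw [hs, hc, ← add_mul]
  simp

/-- every element of `𝔨` is `X₁ + i X₂` with `X₁, X₂ ∈ 𝔤₀ ∩ 𝔨` -/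
theorem kk_decomp (x : kk) : ∃ X1 X2 : g0, ∃ (h1 : (⟨(X1 : Mat), X1.2.1⟩ : 𝔤) ∈ kk)
    (h2 : (⟨(X2 : Mat), X2.2.1⟩ : 𝔤) ∈ kk),
    x = (⟨⟨(X1 : Mat), X1.2.1⟩, h1⟩ : kk) + Complex.I • (⟨⟨(X2 : Mat), X2.2.1⟩, h2⟩ : kk) := by
  obtain ⟨⟨M, hM⟩, hx⟩ := x
  have hMH := conjT_mem hM
  have b1 : ∀ i j, M (.inl i) (.inr j) = 0 := fun i j => (hx i j).1
  have b2 : ∀ i j, M (.inr i) (.inl j) = 0 := fun i j => (hx i j).2
  have m1 : ((1 / 2 : ℂ) • (M - Mᴴ)) ∈ 𝔤 := 𝔤.smul_mem _ (sub_mem hM hMH)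
  have m2 : ((-Complex.I / 2 : ℂ) • (M + Mᴴ)) ∈ 𝔤 := 𝔤.smul_mem _ (add_mem hM hMH)
  have z1 : ((1 / 2 : ℂ) • (M - Mᴴ)) ∈ g0 := by
    refine mem_g0 m1 ?_ ?_ ?_
    · intro i j; simp [b1, b2]
    · intro i j; simp [b1, b2]
    · rw [conjTranspose_smul, conjTranspose_sub, conjTranspose_conjTranspose, ← smul_neg, neg_sub]
      simp
  have z2 : ((-Complex.I / 2 : ℂ) • (M + Mᴴ)) ∈ g0 := by
    refine mem_g0 m2 ?_ ?_ ?_
    · intro i j; simp [b1, b2]
    · intro i j; simp [b1, b2]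
    · rw [conjTranspose_smul, conjTranspose_add, conjTranspose_conjTranspose, ← neg_smul,
        add_comm Mᴴ M]
      congr 1
      simp
      ring
  refine ⟨⟨_, z1⟩, ⟨_, z2⟩, ?_, ?_, ?_⟩
  · intro i j; constructor <;> simp [b1, b2]
  · intro i j; constructor <;> simp [b1, b2]
  · apply Subtype.ext
    apply Subtype.ext
    show M = ((1 / 2 : ℂ) • (M - Mᴴ)) + Complex.I • ((-Complex.I / 2 : ℂ) • (M + Mᴴ))
    rw [smul_smul]
    have : Complex.I * (-Complex.I / 2) = 1 / 2 := by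
      have := Complex.I_mul_I
      linear_combination (-1 / 2) * this
    rw [this]
    module

section

variable {A : Type*} [AddCommGroup A] [Module ℂ A] [LieRingModule 𝔤 A]
    [LieModule ℂ 𝔤 A] {H : Type*} [NormedAddCommGroup H] [InnerProductSpace ℂ H]
    {π : G →* (H ≃ₗᵢ[ℂ] H)} {Φ : A →ₗ[ℂ] H}

omit [LieModule ℂ 𝔤 A] in
theorem deriv_at (hc : IsCompletion π Φ) {X : g0} {γ : ℝ → G}
    (hγ : ∀ t : ℝ, IsExp (t • X) (γ t)) (a : A) (t : ℝ) :
    HasDerivAt (fun t : ℝ => π (γ t) (Φ a)) (π (γ t) (Φ ⁅(⟨(X : Mat), X.2.1⟩ : 𝔤), a⁆)) t := by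
  have h0 := hc.deriv X γ hγ a
  have h1 : HasDerivAt (fun u : ℝ => π (γ (u - t)) (Φ a))
      (Φ ⁅(⟨(X : Mat), X.2.1⟩ : 𝔤), a⁆) t := by
    rw [← sub_self t] at h0
    exact h0.comp_sub_const t t
  let L : H →L[ℝ] H := ((π (γ t)).toContinuousLinearEquiv : H →L[ℂ] H).restrictScalars ℝ
  have h2 := L.hasFDerivAt.comp_hasDerivAt t h1
  refine h2.congr_of_eventuallyEq (Filter.Eventually.of_forall fun u => ?_)
  show π (γ u) (Φ a) = π (γ t) (π (γ (u - t)) (Φ a))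
  have : γ u = γ t * γ (u - t) := by rw [← exp_add_g hγ, add_sub_cancel]
  rw [this, map_mul]
  rfl

variable {S : Type*} [AddCommGroup S] [Module ℂ S] {ρ : kk →ₗ⁅ℂ⁆ Module.End ℂ S}

omit [LieModule ℂ 𝔤 A] in
/-- the fundamental computation -/
theorem exp_action (hexp : ∀ X : g0, ∃ γ : ℝ → G, ∀ t : ℝ, IsExp (t • X) (γ t))
    (hc : IsCompletion π Φ) {E : Type*} [NormedAddCommGroup E] [NormedSpace ℂ E]
    [FiniteDimensional ℂ E] (e : S ≃ₗ[ℂ] E) {X : g0} (hX : (⟨(X : Mat), X.2.1⟩ : 𝔤) ∈ kk) :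
    ∃ L : E → E, ∀ (k : G), IsExp X k → ∀ (f : S →ₗ[ℂ] A)
      (_ : ∀ (x : kk) (s : S), f (ρ x s) = ⁅(x : 𝔤), f s⁆) (v : E),
      π k (Φ (f (e.symm v))) = Φ (f (e.symm (L v))) := by
  obtain ⟨γ, hγ⟩ := hexp X
  have : FiniteDimensional ℝ E := FiniteDimensional.complexToReal E
  let xX : kk := ⟨⟨(X : Mat), X.2.1⟩, hX⟩
  let D0 : E →ₗ[ℂ] E := e.toLinearMap ∘ₗ (ρ xX) ∘ₗ e.symm.toLinearMap
  let D : E →L[ℝ] E := LinearMap.toContinuousLinearMap (D0.restrictScalars ℝ)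
  refine ⟨fun v => NormedSpace.exp ((1 : ℝ) • D) v, ?_⟩
  intro k hk f hf v
  let P : ℝ → (H →L[ℝ] H) := fun t =>
    ((π (γ t)).toContinuousLinearEquiv : H →L[ℂ] H).restrictScalars ℝ
  let T : E →ₗ[ℝ] H := (Φ ∘ₗ f ∘ₗ e.symm.toLinearMap).restrictScalars ℝ
  have h := flow P (by
      intro w
      show π (γ 0) w = w
      rw [exp_zero_g hγ, map_one]; rfl) D T (by
      intro v t
      have h1 := deriv_at hc hγ (f (e.symm v)) t
      have h2 : T (D v) = Φ ⁅(⟨(X : Mat), X.2.1⟩ : 𝔤), f (e.symm v)⁆ := by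
        show Φ (f (e.symm (e (ρ xX (e.symm v))))) = _
        rw [LinearEquiv.symm_apply_apply, hf]
      rw [h2]
      exact h1) 1 v
  have hk1 : γ 1 = k := by
    apply Subtype.ext
    apply Units.ext
    have e1 : ((γ 1 : Matˣ) : Mat) = NormedSpace.exp ((1 : ℝ) • (X : Mat)) := hγ 1
    have e2 : ((k : Matˣ) : Mat) = NormedSpace.exp (X : Mat) := hk
    rw [e1, e2, one_smul]
  rw [← hk1]
  exact h

end


theorem completion_mult_of
    (hexp : ∀ X : g0, ∃ γ : ℝ → G, ∀ t : ℝ, IsExp (t • X) (γ t))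
    (hsurj : ∀ k : G, (k : Matˣ) ∈ K → ∃ X : g0, (⟨(X : Mat), X.2.1⟩ : 𝔤) ∈ kk ∧ IsExp X k)
    {A : Type*} [AddCommGroup A] [Module ℂ A] [LieRingModule 𝔤 A]
    [LieModule ℂ 𝔤 A] {H : Type*} [NormedAddCommGroup H] [InnerProductSpace ℂ H]
    (π : G →* (H ≃ₗᵢ[ℂ] H)) (Φ : A →ₗ[ℂ] H) (hc : IsCompletion π Φ)
    {S : Type*} [AddCommGroup S] [Module ℂ S] (ρ : kk →ₗ⁅ℂ⁆ Module.End ℂ S)
    (hS : IsKType ρ) (N : ℕ) (hm : MultGe ρ A (N + 1)) :
    ∃ E : Submodule ℂ H, FiniteDimensional ℂ E ∧ E ≠ ⊥ ∧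
      (∀ k : G, (k : Matˣ) ∈ K → ∀ v ∈ E, π k v ∈ E) ∧
      (∀ E' ≤ E, (∀ k : G, (k : Matˣ) ∈ K → ∀ v ∈ E', π k v ∈ E') → E' = ⊥ ∨ E' = E) ∧
      ∃ f : Fin (N + 1) → (E →ₗ[ℂ] H), LinearIndependent ℂ f ∧
        ∀ n (k : G), (k : Matˣ) ∈ K → ∀ (v : E) (hv : π k v ∈ E), f n ⟨π k v, hv⟩ = π k (f n v) := by
  obtain ⟨hfin, ⟨hne, hirr⟩, -⟩ := hS
  obtain ⟨f, hli, hf⟩ := hm
  -- `f 0` is injective
  have hf0 : f 0 ≠ 0 := hli.ne_zero 0
  have hinj0 : Function.Injective (f 0) := by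
    rw [← LinearMap.ker_eq_bot]
    rcases hirr (LinearMap.ker (f 0)) (by
      intro x s hs
      rw [LinearMap.mem_ker] at hs ⊢
      rw [hf, hs, lie_zero]) with h | h
    · exact h
    · exact absurd (LinearMap.ker_eq_top.1 h) hf0
  have hinj : Function.Injective (Φ ∘ₗ f 0) := hc.inj.comp hinj0
  let g0' : S →ₗ[ℂ] H := Φ ∘ₗ f 0
  let E : Submodule ℂ H := LinearMap.range g0'
  let e : S ≃ₗ[ℂ] E := LinearEquiv.ofInjective g0' hinj
  have hE : FiniteDimensional ℂ E := inferInstance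
  have he : ∀ s, (e s : H) = Φ (f 0 s) := fun s => rfl
  have he' : ∀ v : E, (v : H) = Φ (f 0 (e.symm v)) := by
    intro v
    rw [← he, LinearEquiv.apply_symm_apply]
  -- action of `K`
  have hact : ∀ k : G, (k : Matˣ) ∈ K → ∃ L : E → E, ∀ n (v : E),
      π k (Φ (f n (e.symm v))) = Φ (f n (e.symm (L v))) := by
    intro k hk
    obtain ⟨X, hX, hXk⟩ := hsurj k hk
    obtain ⟨L, hL⟩ := exp_action (ρ := ρ) hexp hc e hX
    exact ⟨L, fun n v => hL k hXk (f n) (hf n) v⟩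
  have hKE : ∀ k : G, (k : Matˣ) ∈ K → ∀ v ∈ E, π k v ∈ E := by
    intro k hk v hv
    obtain ⟨L, hL⟩ := hact k hk
    have h1 := hL 0 ⟨v, hv⟩
    rw [← he', ← he'] at h1
    rw [h1]
    exact (L ⟨v, hv⟩).2
  refine ⟨E, hE, ?_, hKE, ?_, fun n => Φ ∘ₗ f n ∘ₗ e.symm.toLinearMap, ?_, ?_⟩
  · intro h
    apply hne
    symm
    rw [eq_bot_iff]
    intro s _
    rw [Submodule.mem_bot]
    apply hinj
    rw [map_zero]
    have : g0' s ∈ E := ⟨s, rfl⟩
    rw [h, Submodule.mem_bot] at this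
    exact this
  · intro E' hE' hK
    -- the preimage of `E'`
    let S' : Submodule ℂ S := E'.comap g0'
    have hclosed : IsClosed (E' : Set H) := by
      have : FiniteDimensional ℂ E' := Submodule.finiteDimensional_of_le hE'
      exact Submodule.closed_of_finiteDimensional E'
    have hreal : ∀ X : g0, ∀ hX : (⟨(X : Mat), X.2.1⟩ : 𝔤) ∈ kk, ∀ s ∈ S',
        ρ ⟨⟨(X : Mat), X.2.1⟩, hX⟩ s ∈ S' := by
      intro X hX s hs
      obtain ⟨γ, hγ⟩ := hexp X
      have hd := hc.deriv X γ hγ (f 0 s)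
      show Φ (f 0 (ρ ⟨⟨(X : Mat), X.2.1⟩, hX⟩ s)) ∈ E'
      rw [hf]
      have hs' : Φ (f 0 s) ∈ E' := hs
      have hmem : ∀ t : ℝ, π (γ t) (Φ (f 0 s)) ∈ E' := fun t =>
        hK _ (exp_mem_K hX t (hγ t)) _ hs'
      have hd' := hd.hasDerivWithinAt (s := Set.univ)
      rw [hasDerivWithinAt_univ, hasDerivAt_iff_tendsto_slope_zero] at hd'
      refine hclosed.mem_of_tendsto hd' (Filter.Eventually.of_forall fun t => ?_)
      have : ∀ (r : ℝ) (w : H), w ∈ E' → r • w ∈ E' := by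
        intro r w hw
        have := E'.smul_mem (r : ℂ) hw
        rwa [Complex.coe_smul] at this
      exact this _ _ (sub_mem (hmem _) (hmem _))
    have hstab : ∀ x, ∀ s ∈ S', ρ x s ∈ S' := by
      intro x s hs
      obtain ⟨X1, X2, h1, h2, hx⟩ := kk_decomp x
      rw [hx, map_add, map_smul]
      exact add_mem (hreal X1 h1 s hs) (S'.smul_mem _ (hreal X2 h2 s hs))
    rcases hirr S' hstab with h | h
    · left
      rw [eq_bot_iff]
      intro w hw
      obtain ⟨s, rfl⟩ := hE' hw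
      have : s ∈ S' := hw
      rw [h, Submodule.mem_bot] at this
      rw [Submodule.mem_bot, this, map_zero]
    · right
      apply le_antisymm hE'
      rintro w ⟨s, rfl⟩
      have : s ∈ S' := by rw [h]; trivial
      exact this
  · rw [Fintype.linearIndependent_iff]
    intro t ht
    rw [Fintype.linearIndependent_iff] at hli
    apply hli t
    ext s
    apply hc.inj
    have := LinearMap.congr_fun ht (e s)
    simpa using this
  · intro n k hk v hv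
    obtain ⟨L, hL⟩ := hact k hk
    have h1 := hL 0 v
    rw [← he', ← he'] at h1
    have h2 : (⟨π k v, hv⟩ : E) = L v := Subtype.ext h1
    show Φ (f n (e.symm ⟨π k v, hv⟩)) = π k (Φ (f n (e.symm v)))
    rw [h2, hL n v]

end UniAux

end Pool.Agent.MP_e0f57b_al
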